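import Pool.Agent.H877R3.HSC.Decode

/-!
# Primitivity of quasivarieties generated by finite Heyting algebras: a finite criterion
-/

set_option autoImplicit false

namespace Pool.Agent.V11235.Prim

open Pool.Agent.H877R3.HSC RA

/-- A quasi-identity: finitely many equations (premises) and one equation (conclusion) between
terms in `∧, ∨, →, 0`; the constant `1` is the term `0 → 0`. -/
structure QId where
  prem : Finset (Fm × Fm)
  concl : Fm × Fm

/-- The Heyting algebra `H` satisfies the quasi-identity `q`. -/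
def SatQ (H : Type) [HeytingAlgebra H] (q : QId) : Prop :=
  ∀ v : ℕ → H, (∀ p ∈ q.prem, p.1.eval v = p.2.eval v) → q.concl.1.eval v = q.concl.2.eval v

/-- The Heyting algebra `H` satisfies the identity `ε`. -/
def SatI (H : Type) [HeytingAlgebra H] (ε : Fm × Fm) : Prop :=
  ∀ v : ℕ → H, ε.1.eval v = ε.2.eval v

/-- `H` belongs to the quasivariety `Q(A)` generated by `A`: it satisfies all quasi-identities
valid in `A`. -/
def InQ (A H : Type) [HeytingAlgebra A] [HeytingAlgebra H] : Prop :=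
  ∀ q : QId, SatQ A q → SatQ H q

/-- `Q(A)` is primitive: for every subquasivariety of `Q(A)` (the algebras of `Q(A)` satisfying a
set `S` of quasi-identities) there is a variety (given by a set `E` of identities) whose
intersection with `Q(A)` is this subquasivariety. -/
def Primitive (A : Type) [HeytingAlgebra A] : Prop :=
  ∀ S : Set QId, ∃ E : Set (Fm × Fm), ∀ (H : Type) [HeytingAlgebra H], InQ A H →
    ((∀ q ∈ S, SatQ H q) ↔ ∀ ε ∈ E, SatI H ε)

/-! ### Raw algebras -/

/-- Satisfaction in raw algebras. -/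
def RSatQ {X : Type} (R : RA X) (q : QId) : Prop :=
  ∀ v : ℕ → X, (∀ p ∈ q.prem, R.eval v p.1 = R.eval v p.2) →
    R.eval v q.concl.1 = R.eval v q.concl.2

theorem rsatQ_ofH {H : Type} [HeytingAlgebra H] (q : QId) : RSatQ (ofH H) q ↔ SatQ H q := by
  unfold RSatQ SatQ
  simp only [ofH_eval]

theorem Sep.rsatQ {X Y : Type} {R : RA X} {R' : RA Y} (hs : Sep R R') {q : QId}
    (h : RSatQ R' q) : RSatQ R q := by
  intro v hv
  by_contra hne
  obtain ⟨f, hf, hne⟩ := hs _ _ hne
  apply hne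
  rw [hf.eval, hf.eval]
  apply h
  intro p hp
  rw [← hf.eval, ← hf.eval, hv p hp]

section heyt

variable {A : Type} [HeytingAlgebra A] {X : Type} (R : RA X)

/-- The embedding into a power of `A`. -/
def emb (x : X) : {f : X → A // IsHom R (ofH A) f} → A := fun f => f.1 x

theorem emb_inj (h : Sep R (ofH A)) : Function.Injective (emb (A := A) R) := by
  intro x y hxy
  by_contra hne
  obtain ⟨f, hf, hne⟩ := h _ _ hne
  exact hne (congrFun hxy ⟨f, hf⟩)

/-- The Heyting algebra structure of a raw algebra separated by homomorphisms to `A`. -/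
@[reducible] def heyt (h : Sep R (ofH A)) : HeytingAlgebra X :=
  letI : Max X := ⟨R.sup⟩
  letI : Min X := ⟨R.inf⟩
  letI : LE X := ⟨fun x y => emb (A := A) R x ≤ emb (A := A) R y⟩
  letI : LT X := ⟨fun x y => emb (A := A) R x < emb (A := A) R y⟩
  letI : Top X := ⟨R.imp R.bot R.bot⟩
  letI : Bot X := ⟨R.bot⟩
  letI : Compl X := ⟨fun x => R.imp x R.bot⟩
  letI : HImp X := ⟨R.imp⟩
  Function.Injective.heytingAlgebra (emb (A := A) R) (emb_inj R h) Iff.rfl Iff.rfl
    (fun a b => funext fun f => f.2.sup a b) (fun a b => funext fun f => f.2.inf a b)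
    (funext fun f => by
      show f.1 (R.imp R.bot R.bot) = ⊤
      rw [f.2.imp, f.2.bot]
      exact himp_self)
    (funext fun f => f.2.bot)
    (fun a => funext fun f => by
      show f.1 (R.imp a R.bot) = (f.1 a)ᶜ
      rw [f.2.imp, f.2.bot]
      exact himp_bot _)
    (fun a b => funext fun f => f.2.imp a b)

theorem ofH_heyt (h : Sep R (ofH A)) : @ofH X (heyt R h) = R := rfl

end heyt

/-- The quasi-identity saying that the diagram of `B` forces `x = y`. -/
def diagQ {m : ℕ} (B : RA (Fin m)) (x y : Fin m) : QId where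
  prem := (dg B).image fun D => (D, Fm.imp Fm.bot Fm.bot)
  concl := (Fm.var x, Fm.var y)

theorem diagQ_iff {m : ℕ} (B : RA (Fin m)) (x y : Fin m) {Y : Type} {R : RA Y} (hg : Good R) :
    RSatQ R (diagQ B x y) ↔ ∀ w : ℕ → Y, IsHom B R (fun i => w i) → w x = w y := by
  unfold RSatQ
  constructor
  · intro h w hw
    refine h w fun p hp => ?_
    simp only [diagQ, Finset.mem_image] at hp
    obtain ⟨D, hD, rfl⟩ := hp
    exact (dg_iff B hg w).2 hw D hD
  · intro h w hw
    refine h w ((dg_iff B hg w).1 fun D hD => ?_)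
    exact hw (D, Fm.imp Fm.bot Fm.bot) (Finset.mem_image_of_mem _ hD)

/-- A finite algebra satisfying the diagram quasi-identities valid in `R` is separated by
homomorphisms to `R`. -/
theorem sep_of_diag {m : ℕ} (B : RA (Fin m)) (hB : Good B) {Y : Type} {R : RA Y} (hR : Good R)
    (h : ∀ x y, RSatQ R (diagQ B x y) → RSatQ B (diagQ B x y)) : Sep B R := by
  intro x y hxy
  by_contra hno
  push Not at hno
  have h1 := h x y ((diagQ_iff B x y hR).2 fun w hw => hno _ hw)
  have hm : 0 < m := lt_of_le_of_lt (Nat.zero_le _) x.2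
  have h2 := (diagQ_iff B x y hB).1 h1 (fun i => if h : i < m then ⟨i, h⟩ else ⟨0, hm⟩) (by
    have : (fun i : Fin m => (if h : (i : ℕ) < m then (⟨i, h⟩ : Fin m) else ⟨0, hm⟩)) =
        fun i => i := by
      funext i; simp
    rw [this]
    exact ⟨fun _ _ => rfl, fun _ _ => rfl, fun _ _ => rfl, rfl⟩)
  apply hxy
  simpa using h2

/-- The finite criterion, for algebras of size at most `N₁` and `N₂`. -/
def Crit2 (A : Type) [HeytingAlgebra A] (N₁ N₂ : ℕ) : Prop :=
  ∀ m ≤ N₁, ∀ l ≤ N₂, ∀ (B : RA (Fin m)) (C : RA (Fin l)), Sep B (ofH A) → Sep C (ofH A) →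
    (∃ g : Fin l → Fin m, Function.Surjective g ∧ IsHom C B g) → Sep B C

section

variable {A : Type} [HeytingAlgebra A]

theorem crit_of_primitive (hP : Primitive A) (N₁ N₂ : ℕ) : Crit2 A N₁ N₂ := by
  intro m _ l _ B C hB hC ⟨g, gs, hg⟩
  obtain ⟨E, hE⟩ := hP {q | RSatQ C q}
  have eB := @hE (Fin m) (heyt B hB)
  have eC := @hE (Fin l) (heyt C hC)
  have sB : ∀ q, @SatQ (Fin m) (heyt B hB) q ↔ RSatQ B q := by
    intro q
    rw [← @rsatQ_ofH (Fin m) (heyt B hB) q]
    rfl
  have sC : ∀ q, @SatQ (Fin l) (heyt C hC) q ↔ RSatQ C q := by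
    intro q
    rw [← @rsatQ_ofH (Fin l) (heyt C hC) q]
    rfl
  have qB : @InQ A (Fin m) _ (heyt B hB) := fun q hq =>
    (sB q).2 (Sep.rsatQ hB ((rsatQ_ofH q).2 hq))
  have qC : @InQ A (Fin l) _ (heyt C hC) := fun q hq =>
    (sC q).2 (Sep.rsatQ hC ((rsatQ_ofH q).2 hq))
  have hCE := (eC qC).1 fun q hq => (sC q).2 hq
  have evB : ∀ (v : ℕ → Fin m) (φ : Fm), @Fm.eval (Fin m) (heyt B hB) v φ = B.eval v φ := by
    intro v φ
    rw [← @ofH_eval (Fin m) (heyt B hB)]
    rfl
  have evC : ∀ (v : ℕ → Fin l) (φ : Fm), @Fm.eval (Fin l) (heyt C hC) v φ = C.eval v φ := by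
    intro v φ
    rw [← @ofH_eval (Fin l) (heyt C hC)]
    rfl
  have hBE := (eB qB).2 (by
    intro ε hε v
    rw [evB, evB]
    choose w hw using gs
    have h1 := hCE ε hε (fun i => w (v i))
    rw [evC, evC] at h1
    have h2 : ∀ φ, B.eval v φ = g (C.eval (fun i => w (v i)) φ) := by
      intro φ
      rw [hg.eval]
      simp only [hw]
    rw [h2, h2, h1])
  refine sep_of_diag B (hB.good (good_ofH A)) (hC.good (good_ofH A)) fun x y hxy => ?_
  exact (sB _).1 (hBE _ hxy)

variable {n : ℕ} (e : A ≃ Fin n)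

/-- Extension of a valuation of the first `k` variables by `⊥`. -/
def ext {k : ℕ} {H : Type} [HeytingAlgebra H] (a : Fin k → H) : ℕ → H :=
  fun i => if h : i < k then a ⟨i, h⟩ else ⊥

theorem eval_trunc {k : ℕ} {H : Type} [HeytingAlgebra H] (v : ℕ → H) (φ : Fm) :
    (φ.subst (trunc k)).eval v = φ.eval (ext fun i : Fin k => v i) := by
  rw [Fm.eval_subst]
  congr 1
  funext i
  unfold trunc ext
  split_ifs <;> rfl

include e in
theorem primitive_of_crit (hcrit : Crit2 A n (n ^ (n ^ n))) : Primitive A := by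
  classical
  let _ : Fintype A := Fintype.ofEquiv _ e.symm
  have hcard : Fintype.card A = n := by
    rw [Fintype.card_congr e, Fintype.card_fin]
  have hn : 0 < n := lt_of_le_of_lt (Nat.zero_le _) (e ⊥).2
  intro S
  let E : Set (Fm × Fm) := {ε | ∀ (X : Type) [HeytingAlgebra X], InQ A X →
    (∀ q ∈ S, SatQ X q) → SatI X ε}
  refine ⟨E, fun H _ hH => ⟨fun h ε hε => hε H hH h, fun hHE q hq v hv => ?_⟩⟩
  by_contra hne
  -- a bound for the variables
  obtain ⟨k, hk⟩ := exists_bound_finset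
    (q.prem.image Prod.fst ∪ q.prem.image Prod.snd ∪ {q.concl.1, q.concl.2})
  have hk' := hk k le_rfl
  have hkp1 : ∀ p ∈ q.prem, p.1.subst (trunc k) = p.1 := fun p hp => hk' _ (by
    simp only [Finset.mem_union, Finset.mem_image]
    exact Or.inl (Or.inl ⟨p, hp, rfl⟩))
  have hkp2 : ∀ p ∈ q.prem, p.2.subst (trunc k) = p.2 := fun p hp => hk' _ (by
    simp only [Finset.mem_union, Finset.mem_image]
    exact Or.inl (Or.inr ⟨p, hp, rfl⟩))
  have hkc1 : q.concl.1.subst (trunc k) = q.concl.1 := hk' _ (by simp)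
  have hkc2 : q.concl.2.subst (trunc k) = q.concl.2 := hk' _ (by simp)
  set v' : ℕ → H := ext fun i : Fin k => v i with hv'
  -- a valuation in `A`
  obtain ⟨a, ha1, ha2⟩ : ∃ a : Fin k → A,
      (∀ φ ψ : Fm, φ.eval v' = ψ.eval v' → φ.eval (ext a) = ψ.eval (ext a)) ∧
      q.concl.1.eval (ext a) ≠ q.concl.2.eval (ext a) := by
    by_contra hcon
    push Not at hcon
    have h1 : ∀ a : Fin k → A, ∃ θ : Fm × Fm, θ.1.eval v' = θ.2.eval v' ∧
        (θ.1.eval (ext a) = θ.2.eval (ext a) →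
          q.concl.1.eval (ext a) = q.concl.2.eval (ext a)) := by
      intro a
      by_cases h : ∀ φ ψ : Fm, φ.eval v' = ψ.eval v' → φ.eval (ext a) = ψ.eval (ext a)
      · exact ⟨(Fm.bot, Fm.bot), rfl, fun _ => hcon a h⟩
      · push Not at h
        obtain ⟨φ, ψ, h2, h3⟩ := h
        exact ⟨(φ, ψ), h2, fun h4 => absurd h4 h3⟩
    choose θ hθ1 hθ2 using h1
    let q' : QId := ⟨Finset.univ.image fun a => ((θ a).1.subst (trunc k), (θ a).2.subst (trunc k)),
      q.concl⟩
    have hq' : SatQ A q' := by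
      intro w hw
      have h2 := hw ((θ fun i => w i).1.subst (trunc k), (θ fun i => w i).2.subst (trunc k))
        (Finset.mem_image_of_mem _ (Finset.mem_univ _))
      simp only [eval_trunc] at h2
      have h3 := hθ2 _ h2
      show q.concl.1.eval w = q.concl.2.eval w
      rw [← hkc1, ← hkc2, eval_trunc, eval_trunc]
      exact h3
    refine hne (hH q' hq' v fun p hp => ?_)
    obtain ⟨a, -, rfl⟩ := Finset.mem_image.1 hp
    simp only [eval_trunc]
    exact hθ1 a
  -- the algebra `B`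
  obtain ⟨m, B, clB, hmle, hsB, hhB, hclB⟩ := quot_exists
    (fun φ ψ => φ.eval (ext a) = ψ.eval (ext a))
    ⟨fun _ => rfl, fun h => h.symm, fun h h' => h.trans h'⟩
    (fun a a' b b' h h' => by simp only [Fm.eval]; rw [h, h'])
    (fun a a' b b' h h' => by simp only [Fm.eval]; rw [h, h'])
    (fun a a' b b' h h' => by simp only [Fm.eval]; rw [h, h'])
    (K := A) (fun φ => φ.eval (ext a)) (fun φ ψ h => h)
  rw [hcard] at hmle
  choose repB hrepB using hsB
  have hrB : ∀ φ, (repB (clB φ)).eval (ext a) = φ.eval (ext a) := fun φ =>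
    (hclB _ _).1 (hrepB _)
  have hBA : Sep B (ofH A) := by
    intro x y hxy
    refine ⟨fun b => (repB b).eval (ext a), ⟨?_, ?_, ?_, ?_⟩, ?_⟩
    · intro c d
      have h1 : B.inf c d = clB (fm.inf (repB c) (repB d)) := by rw [hhB.inf, hrepB, hrepB]
      rw [h1, hrB]
      rfl
    · intro c d
      have h1 : B.sup c d = clB (fm.sup (repB c) (repB d)) := by rw [hhB.sup, hrepB, hrepB]
      rw [h1, hrB]
      rfl
    · intro c d
      have h1 : B.imp c d = clB (fm.imp (repB c) (repB d)) := by rw [hhB.imp, hrepB, hrepB]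
      rw [h1, hrB]
      rfl
    · have h1 : B.bot = clB fm.bot := by rw [hhB.bot]
      rw [h1, hrB]
      rfl
    · intro h
      apply hxy
      rw [← hrepB x, ← hrepB y, hclB]
      exact h
  have hBev : ∀ (w : ℕ → Fin m) (φ : Fm), B.eval w φ = clB (φ.subst fun i => repB (w i)) := by
    intro w φ
    rw [← fm_eval, hhB.eval]
    simp only [hrepB]
  have hBE : ∀ ε ∈ E, ∀ w : ℕ → Fin m, B.eval w ε.1 = B.eval w ε.2 := by
    intro ε hε w
    rw [hBev, hBev, hclB]
    refine ha1 _ _ ?_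
    rw [Fm.eval_subst, Fm.eval_subst]
    exact hHE ε hε _
  -- the algebra `C`
  obtain ⟨l, C, clC, hlle, hsC, hhC, hclC⟩ := quot_exists
    (fun φ ψ => (φ.subst (trunc m), ψ.subst (trunc m)) ∈ E)
    ⟨fun φ X _ _ _ v => rfl, fun h X _ h1 h2 v => (h X h1 h2 v).symm,
      fun h h' X _ h1 h2 v => (h X h1 h2 v).trans (h' X h1 h2 v)⟩
    (fun a a' b b' h h' X _ h1 h2 v => by
      have e1 := h X h1 h2 v
      have e2 := h' X h1 h2 v
      simp only at e1 e2
      simp only [Fm.subst, Fm.eval]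
      rw [e1, e2])
    (fun a a' b b' h h' X _ h1 h2 v => by
      have e1 := h X h1 h2 v
      have e2 := h' X h1 h2 v
      simp only at e1 e2
      simp only [Fm.subst, Fm.eval]
      rw [e1, e2])
    (fun a a' b b' h h' X _ h1 h2 v => by
      have e1 := h X h1 h2 v
      have e2 := h' X h1 h2 v
      simp only at e1 e2
      simp only [Fm.subst, Fm.eval]
      rw [e1, e2])
    (K := (Fin m → A) → A) (fun φ c => φ.eval (ext c)) (fun φ ψ h X _ hX _ => by
      have h1 : SatQ A ⟨∅, (φ.subst (trunc m), ψ.subst (trunc m))⟩ := by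
        intro w _
        simp only [eval_trunc]
        exact congrFun h fun i => w i
      intro v
      exact hX _ h1 v (by simp))
  have hlle' : l ≤ n ^ (n ^ n) := by
    refine hlle.trans ?_
    have hK : Fintype.card ((Fin m → A) → A) = n ^ (n ^ m) := by simp [hcard]
    rw [hK]
    exact Nat.pow_le_pow_right hn (Nat.pow_le_pow_right hn hmle)
  choose repC hrepC using hsC
  have hCev : ∀ (w : ℕ → Fin l) (φ : Fm), C.eval w φ = clC (φ.subst fun i => repC (w i)) := by
    intro w φ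
    rw [← fm_eval, hhC.eval]
    simp only [hrepC]
  have hCq : ∀ q : QId, (∀ (X : Type) [HeytingAlgebra X], InQ A X → (∀ q ∈ S, SatQ X q) →
      SatQ X q) → RSatQ C q := by
    intro q hq w hw
    rw [hCev, hCev, hclC]
    intro X _ hX hXS z
    simp only [Fm.eval_subst]
    refine hq X hX hXS _ fun p hp => ?_
    have h1 := hw p hp
    rw [hCev, hCev, hclC] at h1
    have h2 := h1 X hX hXS z
    simp only [Fm.eval_subst] at h2
    exact h2
  have hCA : ∀ q : QId, SatQ A q → RSatQ C q := fun q hq => hCq q fun X _ hX _ => hX q hq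
  have hgC : Good C := by
    refine ⟨fun x => ?_, fun x y h => ?_⟩
    · have h1 := hCA ⟨∅, (Fm.iff (Fm.var 0) (Fm.var 0), Fm.imp Fm.bot Fm.bot)⟩ (by
        intro w _
        simp [Fm.iff, Fm.eval]) (fun _ => x) (by simp)
      exact h1
    · have h1 := hCA ⟨{(Fm.iff (Fm.var 0) (Fm.var 1), Fm.imp Fm.bot Fm.bot)},
        (Fm.var 0, Fm.var 1)⟩ (by
        intro w hw
        have h2 := hw _ (Finset.mem_singleton_self _)
        simp only [Fm.iff, Fm.eval] at h2 ⊢
        exact (good_ofH A).eq _ _ h2) (fun i => if i = 0 then x else y) (by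
        intro p hp
        rw [Finset.mem_singleton.1 hp]
        exact h)
      exact h1
  have hSepCA : Sep C (ofH A) :=
    sep_of_diag C hgC (good_ofH A) fun x y h => hCA _ ((rsatQ_ofH _).1 h)
  -- the surjection
  let vB : ℕ → Fin m := fun j => if h : j < m then ⟨j, h⟩ else B.bot
  have hvB : ∀ φ : Fm, B.eval vB (φ.subst (trunc m)) = B.eval vB φ := by
    intro φ
    rw [eval_subst]
    congr 1
    funext i
    simp only [trunc, vB]
    split_ifs with h
    · simp [RA.eval, h]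
    · rfl
  have hBC : Sep B C := by
    refine hcrit m hmle l hlle' B C hBA hSepCA ?_
    have hwd : ∀ φ, B.eval vB (repC (clC φ)) = B.eval vB φ := by
      intro φ
      have h1 := hBE _ ((hclC (repC (clC φ)) φ).1 (hrepC _)) vB
      simp only [hvB] at h1
      exact h1
    have hhomv := isHom_eval B vB
    refine ⟨fun x => B.eval vB (repC x), fun j => ⟨clC (Fm.var j), ?_⟩, ⟨?_, ?_, ?_, ?_⟩⟩
    · simp only
      rw [hwd]
      simp [RA.eval, vB]
    · intro c d
      have h1 : C.inf c d = clC (fm.inf (repC c) (repC d)) := by rw [hhC.inf, hrepC, hrepC]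
      rw [h1, hwd]
      exact hhomv.inf _ _
    · intro c d
      have h1 : C.sup c d = clC (fm.sup (repC c) (repC d)) := by rw [hhC.sup, hrepC, hrepC]
      rw [h1, hwd]
      exact hhomv.sup _ _
    · intro c d
      have h1 : C.imp c d = clC (fm.imp (repC c) (repC d)) := by rw [hhC.imp, hrepC, hrepC]
      rw [h1, hwd]
      exact hhomv.imp _ _
    · have h1 : C.bot = clC fm.bot := by rw [hhC.bot]
      rw [h1, hwd]
      exact hhomv.bot
  have hBq : RSatQ B q := Sep.rsatQ hBC (hCq q fun X _ _ hXS => hXS q hq)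
  have key : ∀ φ : Fm, B.eval (fun i => clB (Fm.var i)) φ = clB φ := by
    intro φ
    have h1 := hhB.eval Fm.var φ
    rw [← h1, fm_eval, Fm.subst_var]
  have hfin := hBq (fun i => clB (Fm.var i)) (fun p hp => by
    rw [key, key, hclB]
    refine ha1 _ _ ?_
    rw [hv', ← eval_trunc, ← eval_trunc, hkp1 p hp, hkp2 p hp]
    exact hv p hp)
  rw [key, key, hclB] at hfin
  exact ha2 hfin

include e in
theorem primitive_iff_crit : Primitive A ↔ Crit2 A n (n ^ (n ^ n)) :=
  ⟨fun h => crit_of_primitive h _ _, fun h => primitive_of_crit e h⟩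

end

/-! ### The criterion as a bounded formula -/

/-- Separation of an algebra on `{0, …, m - 1}` by homomorphisms to the input algebra. -/
def SepA (x : List ℕ) (m : ℕ) (i s p : ℕ → ℕ → ℕ) (b : ℕ) : Prop :=
  SepN m i s p b (xn x) (xi x) (xs x) (xp x) (xb x)

/-- The arithmetical criterion. -/
def Crit2N (x : List ℕ) : Prop :=
  ∀ m < xn x + 1, ∀ l < xM x + 1,
  ∀ bi < m ^ (m * m), ∀ bs < m ^ (m * m), ∀ bp < m ^ (m * m), ∀ bb < m,
  ∀ ci < l ^ (l * l), ∀ cs < l ^ (l * l), ∀ cp < l ^ (l * l), ∀ cb < l,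
  SepN m (opc bi m) (opc bs m) (opc bp m) bb (xn x) (xi x) (xs x) (xp x) (xb x) →
  SepN l (opc ci l) (opc cs l) (opc cp l) cb (xn x) (xi x) (xs x) (xp x) (xb x) →
  (∃ g < m ^ l, (∀ j < m, ∃ k < l, dig g m k = j) ∧
    HomN l (opc ci l) (opc cs l) (opc cp l) cb (opc bi m) (opc bs m) (opc bp m) bb
      (fun a => dig g m a)) →
  SepN m (opc bi m) (opc bs m) (opc bp m) bb l (opc ci l) (opc cs l) (opc cp l) cb

/-- The bounded formula. -/
def crit2F : Bf :=
  Fo.all 0 (Tm.add Fo.n (Tm.c 1)) fun m => Fo.all 1 (Tm.add Fo.M (Tm.c 1)) fun l =>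
  Fo.all 2 (Tm.pow m (Tm.mul m m)) fun bi => Fo.all 3 (Tm.pow m (Tm.mul m m)) fun bs =>
  Fo.all 4 (Tm.pow m (Tm.mul m m)) fun bp => Fo.all 5 m fun bb =>
  Fo.all 6 (Tm.pow l (Tm.mul l l)) fun ci => Fo.all 7 (Tm.pow l (Tm.mul l l)) fun cs =>
  Fo.all 8 (Tm.pow l (Tm.mul l l)) fun cp => Fo.all 9 l fun cb =>
  Bf.imp (Fo.sep 10 m (Fo.opT bi m) (Fo.opT bs m) (Fo.opT bp m) bb Fo.n Fo.iT Fo.sT Fo.pT Fo.b0)
  (Bf.imp (Fo.sep 10 l (Fo.opT ci l) (Fo.opT cs l) (Fo.opT cp l) cb Fo.n Fo.iT Fo.sT Fo.pT Fo.b0)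
  (Bf.imp (Fo.ex 10 (Tm.pow m l) fun g => Bf.and
      (Fo.all 11 m fun j => Fo.ex 12 l fun k => Bf.eq (Fo.digT g m k) j)
      (Fo.hom 11 l (Fo.opT ci l) (Fo.opT cs l) (Fo.opT cp l) cb (Fo.opT bi m) (Fo.opT bs m)
        (Fo.opT bp m) bb (fun a => Fo.digT g m a)))
  (Fo.sep 10 m (Fo.opT bi m) (Fo.opT bs m) (Fo.opT bp m) bb l (Fo.opT ci l) (Fo.opT cs l)
    (Fo.opT cp l) cb)))

set_option maxRecDepth 100000 in
theorem crit2F_holds (x : List ℕ) : crit2F.holds x [] ↔ Crit2N x := by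
  simp only [crit2F, Fo.hom, Fo.sep, Fo.all, Fo.ex, Fo.opT, Fo.digT, Fo.n,
    Fo.b0, Fo.iT, Fo.sT, Fo.pT, Fo.P, Fo.M, Bf.holds, Tm.ev, List.nil_append, List.cons_append,
    List.getD_cons_zero, List.getD_cons_succ, Nat.reduceAdd]
  rfl

theorem crit2N_computable :
    ∃ f : List ℕ → Bool, Computable f ∧ ∀ x, (f x = true ↔ Crit2N x) := by
  obtain ⟨f, hf, h⟩ := crit2F.computable
  exact ⟨f, hf, fun x => (h x).trans (crit2F_holds x)⟩

section

variable {A : Type} [HeytingAlgebra A] {n : ℕ} (e : A ≃ Fin n)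

theorem sepA_iff {m : ℕ} {B : RA (Fin m)} {i s p : ℕ → ℕ → ℕ} {b : ℕ} (hB : Rep B i s p b) :
    SepN m i s p b (xn (tables e)) (xi (tables e)) (xs (tables e)) (xp (tables e))
      (xb (tables e)) ↔ Sep B (ofH A) := by
  rw [xn_tables, sepN_iff hB (rep_tables e)]
  constructor
  · intro h x y hxy
    obtain ⟨f, hf, hne⟩ := h x y hxy
    exact ⟨fun x => e.symm (f x), (isHom_toRA_symm e).comp hf, fun h' => hne (e.symm.injective h')⟩
  · intro h x y hxy
    obtain ⟨f, hf, hne⟩ := h x y hxy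
    exact ⟨fun x => e (f x), (isHom_toRA e).comp hf, fun h' => hne (e.injective h')⟩

theorem crit2N_iff : Crit2N (tables e) ↔ Crit2 A n (n ^ (n ^ n)) := by
  constructor
  · intro h m hm l hl B C hB hC ⟨g, gs, hg⟩
    obtain ⟨bi, hbi, bs, hbs, bp, hbp, bb, hbb, rB⟩ := rep_code B
    obtain ⟨ci, hci, cs, hcs, cp, hcp, cb, hcb, rC⟩ := rep_code C
    have h1 := h m (Nat.lt_succ_of_le hm) l (Nat.lt_succ_of_le hl) bi hbi bs hbs bp hbp bb hbb
      ci hci cs hcs cp hcp cb hcb ((sepA_iff e rB).2 hB) ((sepA_iff e rC).2 hC)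
    rw [sepN_iff rB rC] at h1
    apply h1
    have hm0 : 0 < m := lt_of_le_of_lt (Nat.zero_le _) hbb
    obtain ⟨c, hc, h3⟩ := exists_dig l m (fun a => if ha : a < l then g ⟨a, ha⟩ else 0)
      (fun i hi => by simp [hi])
    refine ⟨c, hc, fun j hj => ?_, (homN_iff rC rB g _ fun a => ?_).2 hg⟩
    · obtain ⟨k, hk⟩ := gs ⟨j, hj⟩
      refine ⟨k, k.2, ?_⟩
      rw [h3 k k.2, dif_pos k.2]
      exact congrArg Fin.val hk
    · rw [h3 a a.2]; simp
  · intro h m hm l hl bi hbi bs hbs bp hbp bb hbb ci hci cs hcs cp hcp cb hcb h1 h2 h3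
    obtain ⟨B, rB⟩ := rep_decode bi bs bp bb hbb
    obtain ⟨C, rC⟩ := rep_decode ci cs cp cb hcb
    rw [sepN_iff rB rC]
    refine h m (Nat.le_of_lt_succ hm) l (Nat.le_of_lt_succ hl) B C ((sepA_iff e rB).1 h1)
      ((sepA_iff e rC).1 h2) ?_
    obtain ⟨g, hg, hs, hh⟩ := h3
    have hm0 : 0 < m := lt_of_le_of_lt (Nat.zero_le _) hbb
    refine ⟨fun a => ⟨dig g m a, dig_lt hm0 _ _⟩, fun j => ?_,
      (homN_iff rC rB _ _ fun _ => rfl).1 hh⟩
    obtain ⟨k, hk, hkj⟩ := hs j j.2
    exact ⟨⟨k, hk⟩, Fin.ext hkj⟩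

/-- Primitivity of `Q(A)` is decidable. -/
theorem primitive_decidable :
    ∃ f : List ℕ → Bool, Computable f ∧
      ∀ (A : Type) [HeytingAlgebra A] (n : ℕ) (e : A ≃ Fin n),
        f (tables e) = true ↔ Primitive A := by
  obtain ⟨f, hf, h⟩ := crit2N_computable
  refine ⟨f, hf, fun A _ n e => ?_⟩
  rw [h, crit2N_iff e, ← primitive_iff_crit e]

end

end Pool.Agent.V11235.Prim
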