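import Mathlib

/-!
# A residually finite `Π`-group outside the group of computable permutations: the building blocks
-/

set_option autoImplicit false

namespace Pool.Agent.V11235.RF

open Equiv

/-- The set acted on. -/
abbrev Y (q : ℕ) (K : Type) := ZMod q × K × K

section ring

variable (q : ℕ) (K : Type) [CommRing K]

/-- The shift. -/
def tP (k : ZMod q) : Perm (Y q K) where
  toFun p := (p.1 + k, p.2)
  invFun p := (p.1 - k, p.2)
  left_inv p := by simp
  right_inv p := by simp

/-- `x ↦ x + k` on the fibre `r`. -/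
def aP (r : ZMod q) (k : K) : Perm (Y q K) where
  toFun p := if p.1 = r then (p.1, p.2.1 + k, p.2.2) else p
  invFun p := if p.1 = r then (p.1, p.2.1 - k, p.2.2) else p
  left_inv p := by
    obtain ⟨s, x, y⟩ := p
    by_cases h : s = r <;> simp [h]
  right_inv p := by
    obtain ⟨s, x, y⟩ := p
    by_cases h : s = r <;> simp [h]

/-- `y ↦ y + k x` on the fibre `r`. -/
def bP (r : ZMod q) (k : K) : Perm (Y q K) where
  toFun p := if p.1 = r then (p.1, p.2.1, p.2.2 + k * p.2.1) else p
  invFun p := if p.1 = r then (p.1, p.2.1, p.2.2 - k * p.2.1) else p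
  left_inv p := by
    obtain ⟨s, x, y⟩ := p
    by_cases h : s = r <;> simp [h]
  right_inv p := by
    obtain ⟨s, x, y⟩ := p
    by_cases h : s = r <;> simp [h]

/-- `y ↦ y + k` on the fibre `r`. -/
def cP (r : ZMod q) (k : K) : Perm (Y q K) where
  toFun p := if p.1 = r then (p.1, p.2.1, p.2.2 + k) else p
  invFun p := if p.1 = r then (p.1, p.2.1, p.2.2 - k) else p
  left_inv p := by
    obtain ⟨s, x, y⟩ := p
    by_cases h : s = r <;> simp [h]
  right_inv p := by
    obtain ⟨s, x, y⟩ := p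
    by_cases h : s = r <;> simp [h]

theorem tP_apply (k : ZMod q) (p : Y q K) : tP q K k p = (p.1 + k, p.2) := rfl

theorem aP_apply (r : ZMod q) (k : K) (p : Y q K) :
    aP q K r k p = if p.1 = r then (p.1, p.2.1 + k, p.2.2) else p := rfl

theorem bP_apply (r : ZMod q) (k : K) (p : Y q K) :
    bP q K r k p = if p.1 = r then (p.1, p.2.1, p.2.2 + k * p.2.1) else p := rfl

theorem cP_apply (r : ZMod q) (k : K) (p : Y q K) :
    cP q K r k p = if p.1 = r then (p.1, p.2.1, p.2.2 + k) else p := rfl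

theorem tP_inv (k : ZMod q) : (tP q K k)⁻¹ = tP q K (-k) := by
  ext1 p
  show (p.1 - k, p.2) = _
  rw [tP_apply, sub_eq_add_neg]

theorem aP_inv (r : ZMod q) (k : K) : (aP q K r k)⁻¹ = aP q K r (-k) := by
  ext1 p
  show (if p.1 = r then (p.1, p.2.1 - k, p.2.2) else p) = _
  rw [aP_apply, sub_eq_add_neg]

theorem bP_inv (r : ZMod q) (k : K) : (bP q K r k)⁻¹ = bP q K r (-k) := by
  ext1 p
  show (if p.1 = r then (p.1, p.2.1, p.2.2 - k * p.2.1) else p) = _
  rw [bP_apply, neg_mul, sub_eq_add_neg]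

/-- The generators. -/
def gen : Fin 3 → Perm (Y q K) := ![tP q K 1, aP q K 0 1, bP q K 0 1]

/-- The homomorphism. -/
def rho : FreeGroup (Fin 3) →* Perm (Y q K) := FreeGroup.lift (gen q K)

/-- The action of a letter. -/
def letter (l : Fin 3 × Bool) : Perm (Y q K) := cond l.2 (gen q K l.1) (gen q K l.1)⁻¹

theorem rho_mk (w : List (Fin 3 × Bool)) (p : Y q K) :
    rho q K (FreeGroup.mk w) p = w.foldr (fun l p => letter q K l p) p := by
  unfold rho
  rw [FreeGroup.lift_mk]
  induction w with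
  | nil => simp
  | cons l w ih =>
    rw [List.map_cons, List.prod_cons, Perm.mul_apply, ih]
    rfl

theorem letter_apply (l : Fin 3 × Bool) (p : Y q K) : letter q K l p =
    if l.1 = 0 then (p.1 + (if l.2 then 1 else -1), p.2)
    else if p.1 = 0 then
      (if l.1 = 1 then (p.1, p.2.1 + (if l.2 then 1 else -1), p.2.2)
        else (p.1, p.2.1, p.2.2 + (if l.2 then 1 else -1) * p.2.1))
    else p := by
  obtain ⟨i, b⟩ := l
  unfold letter gen
  fin_cases i <;> cases b <;>
    simp [tP_inv, aP_inv, bP_inv, tP_apply, aP_apply, bP_apply]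

end ring

/-- Reduction along a ring homomorphism. -/
def red (q : ℕ) {K L : Type} [CommRing K] [CommRing L] (φ : K →+* L) (p : Y q K) : Y q L :=
  (p.1, φ p.2.1, φ p.2.2)

theorem red_letter (q : ℕ) {K L : Type} [CommRing K] [CommRing L] (φ : K →+* L)
    (l : Fin 3 × Bool) (p : Y q K) :
    red q φ (letter q K l p) = letter q L l (red q φ p) := by
  rw [letter_apply, letter_apply]
  unfold red
  by_cases h0 : l.1 = 0
  · simp [h0]
  · by_cases h1 : p.1 = 0
    · by_cases h2 : l.1 = 1
      · cases h : l.2 <;> simp [h1, h2, sub_eq_add_neg]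
      · cases h : l.2 <;> simp [h0, h1, h2]
    · simp [h0, h1]

theorem red_rho (q : ℕ) {K L : Type} [CommRing K] [CommRing L] (φ : K →+* L)
    (w : List (Fin 3 × Bool)) (p : Y q K) :
    red q φ (rho q K (FreeGroup.mk w) p) = rho q L (FreeGroup.mk w) (red q φ p) := by
  rw [rho_mk, rho_mk]
  induction w with
  | nil => rfl
  | cons l w ih => rw [List.foldr_cons, List.foldr_cons, red_letter, ih]

/-- Integer trajectories move slowly. -/
theorem bound (q : ℕ) (w : List (Fin 3 × Bool)) (p : Y q ℤ) (hp : |p.2.1| ≤ 1) :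
    |(rho q ℤ (FreeGroup.mk w) p).2.1 - p.2.1| ≤ w.length ∧
    |(rho q ℤ (FreeGroup.mk w) p).2.2 - p.2.2| ≤ w.length * w.length := by
  rw [rho_mk]
  induction w with
  | nil => simp
  | cons l w ih =>
    rw [List.foldr_cons, letter_apply]
    set p' := w.foldr (fun l p => letter q ℤ l p) p with hp'
    obtain ⟨h1, h2⟩ := ih
    rw [List.length_cons]
    push_cast
    have hn : (0 : ℤ) ≤ (w.length : ℤ) := Int.natCast_nonneg _
    rw [abs_le] at h1 h2 hp
    have key : (w.length : ℤ) * w.length ≤ (w.length + 1) * (w.length + 1) := by nlinarith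
    split_ifs with a b c d e
    · constructor
      · show |p'.2.1 - p.2.1| ≤ _
        rw [abs_le]; constructor <;> linarith
      · show |p'.2.2 - p.2.2| ≤ _
        rw [abs_le]; constructor <;> nlinarith
    · constructor
      · show |p'.2.1 - p.2.1| ≤ _
        rw [abs_le]; constructor <;> linarith
      · show |p'.2.2 - p.2.2| ≤ _
        rw [abs_le]; constructor <;> nlinarith
    all_goals
      constructor
      · try simp only
        rw [abs_le]; constructor <;> linarith
      · try simp only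
        rw [abs_le]; constructor <;> nlinarith

/-- A word acting nontrivially modulo `2` acts nontrivially modulo large numbers. -/
theorem rho_ne_one_of_large (q : ℕ) (w : List (Fin 3 × Bool)) (m : ℕ)
    (hm : w.length * w.length < m) (h : rho q (ZMod 2) (FreeGroup.mk w) ≠ 1) :
    rho q (ZMod m) (FreeGroup.mk w) ≠ 1 := by
  intro h1
  apply h
  ext1 p
  rw [Perm.one_apply]
  -- lift
  obtain ⟨x, hx, hx1⟩ : ∃ x : ℤ, (x : ZMod 2) = p.2.1 ∧ |x| ≤ 1 := by
    have : ∀ z : ZMod 2, ∃ x : ℤ, (x : ZMod 2) = z ∧ |x| ≤ 1 := by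
      intro z
      have hz : ∀ z : ZMod 2, z = 0 ∨ z = 1 := by decide
      rcases hz z with rfl | rfl
      · exact ⟨0, by simp, by simp⟩
      · exact ⟨1, by simp, by simp⟩
    exact this _
  obtain ⟨y, hy⟩ : ∃ y : ℤ, (y : ZMod 2) = p.2.2 := ZMod.intCast_surjective _
  let P : Y q ℤ := (p.1, x, y)
  have hP : red q (Int.castRingHom (ZMod 2)) P = p := by
    unfold red
    simp only [P, Int.coe_castRingHom, hx, hy]
  have hb := bound q w P hx1
  have hr : red q (Int.castRingHom (ZMod m)) (rho q ℤ (FreeGroup.mk w) P) =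
      red q (Int.castRingHom (ZMod m)) P := by
    rw [red_rho, h1, Perm.one_apply]
  have hfix : rho q ℤ (FreeGroup.mk w) P = P := by
    set P' := rho q ℤ (FreeGroup.mk w) P with hP'
    unfold red at hr
    simp only [Int.coe_castRingHom, Prod.mk.injEq] at hr
    obtain ⟨e1, e2, e3⟩ := hr
    have hlen : (w.length : ℤ) < m := by
      have : w.length ≤ w.length * w.length := Nat.le_mul_self _
      exact_mod_cast lt_of_le_of_lt this hm
    have hlen2 : (w.length : ℤ) * w.length < m := by exact_mod_cast hm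
    have f2 : P'.2.1 = P.2.1 := by
      have hd := (ZMod.intCast_eq_intCast_iff_dvd_sub _ _ _).1 e2.symm
      have := Int.eq_zero_of_abs_lt_dvd hd (lt_of_le_of_lt hb.1 hlen)
      linarith
    have f3 : P'.2.2 = P.2.2 := by
      have hd := (ZMod.intCast_eq_intCast_iff_dvd_sub _ _ _).1 e3.symm
      have := Int.eq_zero_of_abs_lt_dvd hd (lt_of_le_of_lt hb.2 hlen2)
      linarith
    exact Prod.ext e1 (Prod.ext f2 f3)
  rw [← hP, ← red_rho, hfix]

/-! ### The commutators -/

section comm

variable (q : ℕ) (K : Type) [CommRing K]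

/-- `[a, t⁻ᵏ b tᵏ]`. -/
def cw (k : ℕ) : FreeGroup (Fin 3) :=
  FreeGroup.of 1 * ((FreeGroup.of 0)⁻¹ ^ k * FreeGroup.of 2 * FreeGroup.of 0 ^ k) *
    (FreeGroup.of 1)⁻¹ * ((FreeGroup.of 0)⁻¹ ^ k * (FreeGroup.of 2)⁻¹ * FreeGroup.of 0 ^ k)

theorem tP_pow (k : ℕ) : (tP q K 1) ^ k = tP q K k := by
  induction k with
  | zero => ext1 p; simp [tP_apply]
  | succ k ih =>
    ext1 p
    rw [pow_succ, ih, Perm.mul_apply, tP_apply, tP_apply, tP_apply]
    simp only [Nat.cast_add, Nat.cast_one, Prod.mk.injEq, and_true]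
    ring

theorem tP_neg_pow (k : ℕ) : (tP q K (-1)) ^ k = tP q K (-k) := by
  have : tP q K (-1) = (tP q K 1)⁻¹ := (tP_inv q K 1).symm
  rw [this, inv_pow, tP_pow, tP_inv]

theorem rho_cw (k : ℕ) : rho q K (cw k) =
    aP q K 0 1 * bP q K (-k) 1 * aP q K 0 (-1) * bP q K (-k) (-1) := by
  have hb : ∀ c : K, tP q K (-k) * bP q K 0 c * tP q K k = bP q K (-k) c := by
    intro c
    ext1 p
    rw [Perm.mul_apply, Perm.mul_apply, tP_apply, tP_apply, bP_apply, bP_apply]
    simp only
    by_cases h : p.1 + (k : ZMod q) = 0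
    · rw [if_pos h, if_pos (eq_neg_of_add_eq_zero_left h)]
      simp
    · rw [if_neg h, if_neg fun h' => h (by rw [h']; ring)]
      simp
  unfold cw rho
  simp only [map_mul, map_inv, map_pow, FreeGroup.lift_apply_of]
  have g0 : gen q K 0 = tP q K 1 := rfl
  have g1 : gen q K 1 = aP q K 0 1 := rfl
  have g2 : gen q K 2 = bP q K 0 1 := rfl
  rw [g0, g1, g2, tP_inv, aP_inv, bP_inv, tP_pow, tP_neg_pow, hb, hb]

theorem rho_cw_of_not_dvd (k : ℕ) (hk : ¬ q ∣ k) : rho q K (cw k) = 1 := by
  have h0 : (0 : ZMod q) ≠ -(k : ZMod q) := by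
    intro h
    have h1 : (k : ZMod q) = 0 := by
      have := neg_eq_zero.1 h.symm
      exact this
    exact hk ((ZMod.natCast_eq_zero_iff _ _).1 h1)
  rw [rho_cw]
  ext1 p
  simp only [Perm.mul_apply, Perm.one_apply, aP_apply, bP_apply]
  by_cases h1 : p.1 = 0
  · have h2 : p.1 ≠ -(k : ZMod q) := h1 ▸ h0
    simp [h1, h0]
    rw [← h1]
  · by_cases h2 : p.1 = -(k : ZMod q)
    · simp [h2, Ne.symm h0]
      rw [← h2]
    · simp [h1, h2]

theorem rho_cw_self : rho q K (cw q) = cP q K 0 (-1) := by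
  rw [rho_cw]
  ext1 p
  simp only [Perm.mul_apply, aP_apply, bP_apply, cP_apply, CharP.cast_eq_zero, neg_zero]
  by_cases h1 : p.1 = 0
  · simp only [h1, if_true, Prod.mk.injEq, true_and]
    constructor <;> ring
  · simp [h1]

theorem cP_pow (k : ℕ) : (cP q K 0 (-1)) ^ k = cP q K 0 (-k) := by
  induction k with
  | zero => ext1 p; simp [cP_apply]
  | succ k ih =>
    ext1 p
    rw [pow_succ, ih, Perm.mul_apply, cP_apply, cP_apply, cP_apply]
    by_cases h : p.1 = 0
    · simp only [h, if_true, Prod.mk.injEq, true_and]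
      push_cast
      ring
    · simp [h]

end comm

theorem cw_pow_eq_one (q m k : ℕ) (h : q = k ∨ ¬ q ∣ k) :
    (rho q (ZMod m) (cw k)) ^ m = 1 ∨ rho q (ZMod m) (cw k) = 1 := by
  rcases h with rfl | h
  · left
    rw [rho_cw_self, cP_pow]
    ext1 p
    rw [cP_apply]
    simp
  · right
    exact rho_cw_of_not_dvd q _ k h

theorem cw_ne_one (q m : ℕ) (hm : 2 ≤ m) : rho q (ZMod m) (cw q) ≠ 1 := by
  intro h
  rw [rho_cw_self] at h
  have h1 := congrArg (fun f : Perm (Y q (ZMod m)) => (f (0, 0, 0)).2.2) h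
  simp only [cP_apply, if_true, Perm.one_apply, zero_add] at h1
  have : Fact (1 < m) := ⟨hm⟩
  exact one_ne_zero (neg_eq_zero.1 h1)

end Pool.Agent.V11235.RF
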