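import Pool.Agent.V11235.RFGroup

/-!
# A residually finite `Π`-group outside the group of computable permutations
-/

set_option autoImplicit false

namespace Pool.Agent.V11235.RF

open Equiv Nat.Partrec Nat.Partrec.Code

/-- The code with number `e`. -/
def cd (e : ℕ) : Code := Denumerable.ofNat Code e

/-- `s` witnesses that the permutation computed by the `e`-th code has a 2-cycle. -/
def R (e s : ℕ) : Prop :=
  s.unpair.1 ≠ s.unpair.2.unpair.1 ∧
  evaln s.unpair.2.unpair.2 (cd e) (Nat.pair e s.unpair.1) = some s.unpair.2.unpair.1 ∧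
  evaln s.unpair.2.unpair.2 (cd e) (Nat.pair e s.unpair.2.unpair.1) = some s.unpair.1

theorem R_prim : PrimrecRel R := by
  have h1 : Primrec fun p : ℕ × ℕ => p.2.unpair.1 := Primrec.fst.comp (Primrec.unpair.comp Primrec.snd)
  have h2 : Primrec fun p : ℕ × ℕ => p.2.unpair.2.unpair.1 :=
    Primrec.fst.comp (Primrec.unpair.comp (Primrec.snd.comp (Primrec.unpair.comp Primrec.snd)))
  have h3 : Primrec fun p : ℕ × ℕ => p.2.unpair.2.unpair.2 :=
    Primrec.snd.comp (Primrec.unpair.comp (Primrec.snd.comp (Primrec.unpair.comp Primrec.snd)))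
  have hc : Primrec fun p : ℕ × ℕ => cd p.1 := (Primrec.ofNat Code).comp Primrec.fst
  have e1 : Primrec fun p : ℕ × ℕ =>
      evaln p.2.unpair.2.unpair.2 (cd p.1) (Nat.pair p.1 p.2.unpair.1) :=
    primrec_evaln.comp (Primrec.pair (Primrec.pair h3 hc) (Primrec₂.natPair.comp Primrec.fst h1))
  have e2 : Primrec fun p : ℕ × ℕ =>
      evaln p.2.unpair.2.unpair.2 (cd p.1) (Nat.pair p.1 p.2.unpair.2.unpair.1) :=
    primrec_evaln.comp (Primrec.pair (Primrec.pair h3 hc) (Primrec₂.natPair.comp Primrec.fst h2))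
  exact ((Primrec.eq.comp h1 h2).not).and
    ((Primrec.eq.comp e1 (Primrec.option_some.comp h2)).and
      (Primrec.eq.comp e2 (Primrec.option_some.comp h1)))

open Classical in
/-- The modulus of the `e`-th coordinate. -/
noncomputable def mo (e : ℕ) : ℕ := if h : ∃ s, R e s then 2 * Nat.find h + 3 else 2

/-- The size of the `e`-th cycle. -/
def qq (e : ℕ) : ℕ := 2 ^ 2 ^ e + 1

theorem mo_ge (e : ℕ) : 2 ≤ mo e := by
  unfold mo
  split_ifs <;> omega

theorem qq_pos (e : ℕ) : 0 < qq e := by unfold qq; positivity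

theorem qq_dvd (e e' : ℕ) : e' = e ∨ ¬ qq e' ∣ qq e := by
  by_cases h : e' = e
  · exact Or.inl h
  · right
    intro hd
    have h1 := Nat.coprime_fermatNumber_fermatNumber h
    have h2 : qq e' = 1 := Nat.eq_one_of_dvd_coprimes h1 dvd_rfl hd
    have h3 : 1 < qq e' := by
      unfold qq
      have : 0 < 2 ^ 2 ^ e' := by positivity
      omega
    omega

/-- The homomorphism defining the group. -/
noncomputable def Phi : FreeGroup (Fin 3) →* ∀ e : ℕ, Perm (Y (qq e) (ZMod (mo e))) :=
  MonoidHom.pi fun e => rho (qq e) (ZMod (mo e))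

theorem Phi_apply (w : FreeGroup (Fin 3)) (e : ℕ) : Phi w e = rho (qq e) (ZMod (mo e)) w := rfl

/-- The group. -/
noncomputable abbrev G := Phi.range

theorem G_fg : Group.FG G :=
  Group.fg_of_surjective (f := Phi.rangeRestrict) Phi.rangeRestrict_surjective

theorem G_rf (g : G) (hg : g ≠ 1) : ∃ H : Subgroup G, H.index ≠ 0 ∧ g ∉ H := by
  obtain ⟨e, he⟩ : ∃ e, (g : ∀ e : ℕ, Perm (Y (qq e) (ZMod (mo e)))) e ≠ 1 := by
    by_contra h
    push Not at h
    exact hg (Subtype.ext (funext h))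
  let ev : G →* Perm (Y (qq e) (ZMod (mo e))) :=
    (Pi.evalMonoidHom (fun e : ℕ => Perm (Y (qq e) (ZMod (mo e)))) e).comp Phi.range.subtype
  have : NeZero (qq e) := ⟨(qq_pos e).ne'⟩
  have : NeZero (mo e) := ⟨by have := mo_ge e; omega⟩
  refine ⟨ev.ker, ?_, fun h => he (MonoidHom.mem_ker.1 h)⟩
  rw [Subgroup.index_ker]
  exact Nat.card_pos.ne'

/-! ### The word problem -/

/-- The step on codes of points. -/
def nstep (q m : ℕ) (l : Fin 3 × Bool) (p : ℕ × ℕ × ℕ) : ℕ × ℕ × ℕ :=
  if l.1 = 0 then (p.1 + (if l.2 = true then 1 else q - 1), p.2)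
  else if p.1 % q = 0 then
    (if l.1 = 1 then (p.1, p.2.1 + (if l.2 = true then 1 else m - 1), p.2.2)
      else (p.1, p.2.1, p.2.2 + (if l.2 = true then 1 else m - 1) * p.2.1))
  else p

/-- The point coded by `p`. -/
def cst (q m : ℕ) (p : ℕ × ℕ × ℕ) : Y q (ZMod m) := (p.1, p.2.1, p.2.2)

theorem cst_nstep (q m : ℕ) (hq : 0 < q) (hm : 0 < m) (l : Fin 3 × Bool) (p : ℕ × ℕ × ℕ) :
    cst q m (nstep q m l p) = letter q (ZMod m) l (cst q m p) := by
  have h1 : ((q - 1 : ℕ) : ZMod q) = -1 := by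
    rw [Nat.cast_sub (by omega)]; simp
  have h2 : ((m - 1 : ℕ) : ZMod m) = -1 := by
    rw [Nat.cast_sub (by omega)]; simp
  rw [letter_apply]
  unfold nstep cst
  by_cases h0 : l.1 = 0
  · by_cases h3 : l.2 = true
    · simp [h0, h3]
    · simp [h0, h3, h1]
  · by_cases h4 : p.1 % q = 0
    · have h5 : (p.1 : ZMod q) = 0 := (ZMod.natCast_eq_zero_iff _ _).2 (Nat.dvd_of_mod_eq_zero h4)
      by_cases h6 : l.1 = 1
      · by_cases h3 : l.2 = true
        · simp [h4, h5, h6, h3]
        · simp [h4, h5, h6, h3, h2]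
      · by_cases h3 : l.2 = true
        · simp [h0, h4, h5, h6, h3]
        · simp [h0, h4, h5, h6, h3, h2]
    · have h5 : (p.1 : ZMod q) ≠ 0 := fun h =>
        h4 (Nat.mod_eq_zero_of_dvd ((ZMod.natCast_eq_zero_iff _ _).1 h))
      simp [h0, h4, h5]

/-- The word moves the point. -/
def Mv (q m : ℕ) (w : List (Fin 3 × Bool)) (p : ℕ × ℕ × ℕ) : Prop :=
  (w.foldr (nstep q m) p).1 % q ≠ p.1 % q ∨ (w.foldr (nstep q m) p).2.1 % m ≠ p.2.1 % m ∨
    (w.foldr (nstep q m) p).2.2 % m ≠ p.2.2 % m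

theorem Mv_iff (q m : ℕ) (hq : 0 < q) (hm : 0 < m) (w : List (Fin 3 × Bool)) (p : ℕ × ℕ × ℕ) :
    Mv q m w p ↔ rho q (ZMod m) (FreeGroup.mk w) (cst q m p) ≠ cst q m p := by
  have h1 : cst q m (w.foldr (nstep q m) p) = rho q (ZMod m) (FreeGroup.mk w) (cst q m p) := by
    rw [rho_mk]
    induction w with
    | nil => rfl
    | cons l w ih => rw [List.foldr_cons, List.foldr_cons, cst_nstep q m hq hm, ih]
  rw [← h1]
  unfold Mv cst
  simp only [ne_eq, Prod.mk.injEq, ZMod.natCast_eq_natCast_iff']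
  tauto

theorem exists_Mv_iff (q m : ℕ) (hq : 0 < q) (hm : 0 < m) (w : List (Fin 3 × Bool)) :
    (∃ p, Mv q m w p) ↔ rho q (ZMod m) (FreeGroup.mk w) ≠ 1 := by
  have : NeZero q := ⟨hq.ne'⟩
  have : NeZero m := ⟨hm.ne'⟩
  constructor
  · rintro ⟨p, hp⟩ h
    rw [Mv_iff q m hq hm, h] at hp
    exact hp rfl
  · intro h
    by_contra hno
    push Not at hno
    apply h
    ext1 p
    have h1 : cst q m (p.1.val, p.2.1.val, p.2.2.val) = p := by
      unfold cst
      simp
    have h2 := hno (p.1.val, p.2.1.val, p.2.2.val)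
    rw [Mv_iff q m hq hm, not_not, h1] at h2
    exact h2

/-- The decidable condition. -/
def D (w : List (Fin 3 × Bool)) (c : (ℕ × ℕ) × (ℕ × ℕ × ℕ)) : Prop :=
  (∀ s' < c.1.2, ¬ R c.1.1 s') ∧
  ((R c.1.1 c.1.2 ∧ Mv (qq c.1.1) (2 * c.1.2 + 3) w c.2) ∨
    (w.length * w.length < c.1.2 ∧ Mv (qq c.1.1) 2 w c.2))

theorem D_iff (w : List (Fin 3 × Bool)) :
    Phi.rangeRestrict (FreeGroup.mk w) ≠ 1 ↔ ∃ c, D w c := by
  have h0 : Phi.rangeRestrict (FreeGroup.mk w) ≠ 1 ↔
      ∃ e, rho (qq e) (ZMod (mo e)) (FreeGroup.mk w) ≠ 1 := by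
    constructor
    · intro h
      by_contra hno
      push Not at hno
      exact h (Subtype.ext (funext hno))
    · rintro ⟨e, he⟩ h
      apply he
      have h1 := congrArg (fun g : G => (g : ∀ e : ℕ, Perm (Y (qq e) (ZMod (mo e)))) e) h
      exact h1
  rw [h0]
  constructor
  · rintro ⟨e, he⟩
    obtain ⟨p, hp⟩ := (exists_Mv_iff (qq e) (mo e) (qq_pos e) (by have := mo_ge e; omega) w).2 he
    classical
    by_cases h : ∃ s, R e s
    · refine ⟨((e, Nat.find h), p), fun s' hs' => Nat.find_min h hs', Or.inl ⟨Nat.find_spec h, ?_⟩⟩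
      unfold mo at hp
      rw [dif_pos h] at hp
      convert! hp
    · refine ⟨((e, w.length * w.length + 1), p), fun s' _ hR => h ⟨s', hR⟩, Or.inr
        ⟨by simp, ?_⟩⟩
      unfold mo at hp
      rw [dif_neg h] at hp
      exact hp
  · rintro ⟨⟨⟨e, s⟩, p⟩, h1, h2⟩
    refine ⟨e, ?_⟩
    simp only at h1 h2
    classical
    rcases h2 with ⟨h2, h3⟩ | ⟨h2, h3⟩
    · have hex : ∃ s, R e s := ⟨s, h2⟩
      have hf : Nat.find hex = s := (Nat.find_eq_iff hex).2 ⟨h2, fun n hn => h1 n hn⟩
      have hmo : mo e = 2 * s + 3 := by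
        unfold mo
        rw [dif_pos hex]
        have : @Nat.find (fun s => R e s) (fun a => Classical.propDecidable _) hex = s := by
          rw [← hf]
        rw [this]
      rw [hmo]
      exact (exists_Mv_iff _ _ (qq_pos e) (by omega) w).1 ⟨p, h3⟩
    · have h4 := (exists_Mv_iff _ _ (qq_pos e) (by omega) w).1 ⟨p, h3⟩
      by_cases hex : ∃ s, R e s
      · have hmo : w.length * w.length < mo e := by
          unfold mo
          rw [dif_pos hex]
          have : s ≤ @Nat.find (fun s => R e s) (fun a => Classical.propDecidable _) hex := by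
            by_contra hlt
            push Not at hlt
            exact h1 _ hlt (@Nat.find_spec (fun s => R e s) (fun a => Classical.propDecidable _) hex)
          omega
        exact rho_ne_one_of_large _ w _ hmo h4
      · have hmo : mo e = 2 := by
          unfold mo
          rw [dif_neg hex]
        rw [hmo]
        exact h4


theorem nstep_prim : Primrec fun x : (ℕ × ℕ) × ((Fin 3 × Bool) × (ℕ × ℕ × ℕ)) =>
    nstep x.1.1 x.1.2 x.2.1 x.2.2 := by
  let α := (ℕ × ℕ) × ((Fin 3 × Bool) × (ℕ × ℕ × ℕ))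
  have hq : Primrec fun x : α => x.1.1 := Primrec.fst.comp Primrec.fst
  have hm : Primrec fun x : α => x.1.2 := Primrec.snd.comp Primrec.fst
  have hi : Primrec fun x : α => x.2.1.1 :=
    Primrec.fst.comp (Primrec.fst.comp Primrec.snd)
  have hb : Primrec fun x : α => x.2.1.2 :=
    Primrec.snd.comp (Primrec.fst.comp Primrec.snd)
  have hp : Primrec fun x : α => x.2.2 := Primrec.snd.comp Primrec.snd
  have hr : Primrec fun x : α => x.2.2.1 := Primrec.fst.comp hp
  have hxy : Primrec fun x : α => x.2.2.2 := Primrec.snd.comp hp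
  have hx : Primrec fun x : α => x.2.2.2.1 := Primrec.fst.comp hxy
  have hy : Primrec fun x : α => x.2.2.2.2 := Primrec.snd.comp hxy
  have kq : Primrec fun x : α => (if x.2.1.2 = true then 1 else x.1.1 - 1 : ℕ) :=
    Primrec.ite (Primrec.eq.comp hb (Primrec.const true)) (Primrec.const 1)
      (Primrec.nat_sub.comp hq (Primrec.const 1))
  have km : Primrec fun x : α => (if x.2.1.2 = true then 1 else x.1.2 - 1 : ℕ) :=
    Primrec.ite (Primrec.eq.comp hb (Primrec.const true)) (Primrec.const 1)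
      (Primrec.nat_sub.comp hm (Primrec.const 1))
  refine Primrec.ite (Primrec.eq.comp hi (Primrec.const 0))
    (Primrec.pair (Primrec.nat_add.comp hr kq) hxy) ?_
  refine Primrec.ite (Primrec.eq.comp (Primrec.nat_mod.comp hr hq) (Primrec.const 0)) ?_ hp
  refine Primrec.ite (Primrec.eq.comp hi (Primrec.const 1)) ?_ ?_
  · exact Primrec.pair hr (Primrec.pair (Primrec.nat_add.comp hx km) hy)
  · exact Primrec.pair hr (Primrec.pair hx (Primrec.nat_add.comp hy (Primrec.nat_mul.comp km hx)))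

theorem Mv_prim {α : Type} [Primcodable α] {Q M : α → ℕ} {W : α → List (Fin 3 × Bool)}
    {P : α → ℕ × ℕ × ℕ} (hQ : Primrec Q) (hM : Primrec M) (hW : Primrec W) (hP : Primrec P) :
    PrimrecPred fun a => Mv (Q a) (M a) (W a) (P a) := by
  have hf : Primrec fun a => (W a).foldr (nstep (Q a) (M a)) (P a) := by
    have h : Primrec₂ fun (a : α) (y : (Fin 3 × Bool) × (ℕ × ℕ × ℕ)) =>
        nstep (Q a) (M a) y.1 y.2 :=
      nstep_prim.comp (Primrec.pair (Primrec.pair (hQ.comp Primrec.fst) (hM.comp Primrec.fst))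
        Primrec.snd)
    exact Primrec.list_foldr hW hP h
  have f1 := Primrec.fst.comp hf
  have f2 := Primrec.fst.comp (Primrec.snd.comp hf)
  have f3 := Primrec.snd.comp (Primrec.snd.comp hf)
  have p1 := Primrec.fst.comp hP
  have p2 := Primrec.fst.comp (Primrec.snd.comp hP)
  have p3 := Primrec.snd.comp (Primrec.snd.comp hP)
  exact (Primrec.eq.comp (Primrec.nat_mod.comp f1 hQ) (Primrec.nat_mod.comp p1 hQ)).not.or
    ((Primrec.eq.comp (Primrec.nat_mod.comp f2 hM) (Primrec.nat_mod.comp p2 hM)).not.or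
      (Primrec.eq.comp (Primrec.nat_mod.comp f3 hM) (Primrec.nat_mod.comp p3 hM)).not)

theorem qq_prim : Primrec qq := by
  have hpow : Primrec₂ fun m n : ℕ => m ^ n := Primrec₂.unpaired'.1 Nat.Primrec.pow
  exact Primrec.succ.comp (hpow.comp (Primrec.const 2) (hpow.comp (Primrec.const 2) Primrec.id))

theorem D_prim : PrimrecRel D := by
  let α := List (Fin 3 × Bool) × ((ℕ × ℕ) × (ℕ × ℕ × ℕ))
  have hw : Primrec fun x : α => x.1 := Primrec.fst
  have he : Primrec fun x : α => x.2.1.1 := Primrec.fst.comp (Primrec.fst.comp Primrec.snd)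
  have hs : Primrec fun x : α => x.2.1.2 := Primrec.snd.comp (Primrec.fst.comp Primrec.snd)
  have hp : Primrec fun x : α => x.2.2 := Primrec.snd.comp Primrec.snd
  have hm : Primrec fun x : α => 2 * x.2.1.2 + 3 :=
    Primrec.nat_add.comp (Primrec.nat_mul.comp (Primrec.const 2) hs) (Primrec.const 3)
  have hR : PrimrecRel fun (n : ℕ) (e : ℕ) => ∀ s' < n, ¬ R e s' := by
    have h1 : PrimrecRel fun (s' e : ℕ) => ¬ R e s' :=
      (R_prim.comp Primrec.snd Primrec.fst).not
    exact h1.forall_lt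
  have hl : Primrec fun x : α => x.1.length * x.1.length :=
    Primrec.nat_mul.comp (Primrec.list_length.comp hw) (Primrec.list_length.comp hw)
  exact (hR.comp hs he).and
    (((R_prim.comp he hs).and (Mv_prim (qq_prim.comp he) hm hw hp)).or
      ((Primrec.nat_lt.comp hl hs).and (Mv_prim (qq_prim.comp he) (Primrec.const 2) hw hp)))

theorem re_exists {α β : Type} [Primcodable α] [Denumerable β] {P : α → β → Prop}
    (h : PrimrecRel P) : REPred fun a => ∃ b, P a b := by
  classical
  have h1 : Computable₂ fun (a : α) (n : ℕ) => decide (P a (Denumerable.ofNat β n)) :=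
    (h.comp Primrec.fst ((Primrec.ofNat β).comp Primrec.snd)).decide.to_comp
  have h2 : Partrec fun a : α => Nat.rfind fun n =>
      Part.some (decide (P a (Denumerable.ofNat β n))) := Partrec.rfind h1.partrec₂
  refine h2.dom_re.of_eq fun a => ?_
  rw [Nat.rfind_dom]
  constructor
  · rintro ⟨n, hn, -⟩
    simp only [Part.mem_some_iff] at hn
    exact ⟨_, of_decide_eq_true hn.symm⟩
  · rintro ⟨b, hb⟩
    refine ⟨Encodable.encode b, ?_, fun _ => trivial⟩
    simp [hb]

theorem G_re : REPred fun w : List (Fin 3 × Bool) =>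
    Phi.rangeRestrict (FreeGroup.mk w) ≠ 1 :=
  (re_exists D_prim).of_eq fun w => (D_iff w).symm

/-! ### No embedding -/

/-- The commutators in the group. -/
noncomputable def cc (e : ℕ) : G := Phi.rangeRestrict (cw (qq e))

theorem cc_pow (e : ℕ) : (cc e) ^ mo e = 1 ∧ cc e ≠ 1 := by
  constructor
  · apply Subtype.ext
    funext e'
    show (rho (qq e') (ZMod (mo e')) (cw (qq e))) ^ mo e = 1
    rcases qq_dvd e e' with rfl | h
    · rcases cw_pow_eq_one (qq e') (mo e') (qq e') (Or.inl rfl) with h | h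
      · exact h
      · rw [h, one_pow]
    · rw [rho_cw_of_not_dvd _ _ _ h, one_pow]
  · intro h
    have h1 := congrArg (fun g : G => (g : ∀ e : ℕ, Perm (Y (qq e) (ZMod (mo e)))) e) h
    exact cw_ne_one (qq e) (mo e) (mo_ge e) h1

theorem iterate_comp {α : Type} [Primcodable α] {t : ℕ → ℕ} (ht : Computable t) {K : α → ℕ}
    {g : α → ℕ} (hK : Computable K) (hg : Computable g) :
    Computable fun a => t^[K a] (g a) := by
  have h : Computable₂ fun (_ : α) (y : ℕ × ℕ) => t y.2 := ht.comp (Computable.snd.comp Computable.snd)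
  refine (Computable.nat_rec hK hg h).of_eq fun a => ?_
  induction K a with
  | zero => rfl
  | succ n ih => rw [Function.iterate_succ_apply', ← ih]

theorem not_embed : ¬ ∃ f : G →* Perm ℕ, Function.Injective f ∧
    ∀ g : G, Computable (⇑(f g) : ℕ → ℕ) := by
  rintro ⟨f, hinj, hf⟩
  let F : ℕ → ℕ := fun x => f (cc x.unpair.1) x.unpair.2
  have hF : Computable F := by
    let T : G := Phi.rangeRestrict (FreeGroup.of 0)
    let A : G := Phi.rangeRestrict (FreeGroup.of 1)
    let B : G := Phi.rangeRestrict (FreeGroup.of 2)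
    have hK : Computable fun x : ℕ => qq x.unpair.1 :=
      (qq_prim.comp (Primrec.fst.comp Primrec.unpair)).to_comp
    have h0 : Computable fun x : ℕ => x.unpair.2 := (Primrec.snd.comp Primrec.unpair).to_comp
    have h1 := iterate_comp (hf T) hK h0
    have h2 := (hf B⁻¹).comp h1
    have h3 := iterate_comp (hf T⁻¹) hK h2
    have h4 := (hf A⁻¹).comp h3
    have h5 := iterate_comp (hf T) hK h4
    have h6 := (hf B).comp h5
    have h7 := iterate_comp (hf T⁻¹) hK h6
    have h8 := (hf A).comp h7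
    refine h8.of_eq fun x => ?_
    have e1 : cc x.unpair.1 = A * (T⁻¹ ^ qq x.unpair.1 * B * T ^ qq x.unpair.1) * A⁻¹ *
        (T⁻¹ ^ qq x.unpair.1 * B⁻¹ * T ^ qq x.unpair.1) := by
      simp only [cc, cw, T, A, B, map_mul, map_inv, map_pow]
    simp only [F, e1, map_mul, map_pow, Perm.mul_apply, ← Perm.iterate_eq_pow]
  obtain ⟨c, hc⟩ := exists_code.1 (Partrec.nat_iff.1 hF)
  let e := Encodable.encode c
  have hcd : cd e = c := Denumerable.ofNat_encode c
  have sound : ∀ k x y, evaln k (cd e) x = some y → y = F x := by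
    intro k x y h
    rw [hcd] at h
    have h1 : y ∈ eval c x := evaln_sound h
    rw [hc] at h1
    exact Part.mem_some_iff.1 h1
  have complete : ∀ x, ∃ k, evaln k (cd e) x = some (F x) := by
    intro x
    rw [hcd]
    have h1 : F x ∈ eval c x := by rw [hc]; exact Part.mem_some _
    exact evaln_complete.1 h1
  set γ := f (cc e) with hγ
  have hFe : ∀ n, F (Nat.pair e n) = γ n := by intro n; simp [F, hγ]
  have hpow : γ ^ mo e = 1 := by rw [hγ, ← map_pow, (cc_pow e).1, map_one]
  have hne : γ ≠ 1 := fun h => (cc_pow e).2 (hinj (by rw [map_one]; exact h))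
  classical
  by_cases hex : ∃ s, R e s
  · obtain ⟨s, hs⟩ := id hex
    obtain ⟨h1, h2, h3⟩ := hs
    set n := s.unpair.1
    set n' := s.unpair.2.unpair.1
    have e1 : n' = γ n := by rw [← hFe]; exact sound _ _ _ h2
    have e2 : n = γ n' := by rw [← hFe]; exact sound _ _ _ h3
    have hmo : ∃ j, mo e = 2 * j + 1 := by
      unfold mo
      rw [dif_pos hex]
      exact ⟨@Nat.find (fun s => R e s) (fun a => Classical.propDecidable _) hex + 1, by ring⟩
    obtain ⟨j, hj⟩ := hmo
    have h4 : (γ ^ 2) n = n := by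
      rw [pow_two, Perm.mul_apply, ← e1, ← e2]
    have h5 : ∀ j : ℕ, ((γ ^ 2) ^ j) n = n := by
      intro j
      induction j with
      | zero => rfl
      | succ j ih => rw [pow_succ, Perm.mul_apply, h4, ih]
    have h6 : (γ ^ mo e) n = n' := by
      rw [hj, pow_succ', pow_mul, Perm.mul_apply, h5, ← e1]
    rw [hpow, Perm.one_apply] at h6
    exact h1 h6
  · have hmo : mo e = 2 := by
      unfold mo
      rw [dif_neg hex]
    rw [hmo] at hpow
    obtain ⟨n, hn⟩ : ∃ n, γ n ≠ n := by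
      by_contra h
      push Not at h
      exact hne (Perm.ext h)
    have h2 : γ (γ n) = n := by
      rw [← Perm.mul_apply, ← pow_two, hpow, Perm.one_apply]
    obtain ⟨k1, hk1⟩ := complete (Nat.pair e n)
    obtain ⟨k2, hk2⟩ := complete (Nat.pair e (γ n))
    rw [hFe] at hk1 hk2
    rw [h2] at hk2
    apply hex
    refine ⟨Nat.pair n (Nat.pair (γ n) (max k1 k2)), ?_⟩
    unfold R
    simp only [Nat.unpair_pair]
    exact ⟨hn.symm, evaln_mono (le_max_left _ _) hk1, evaln_mono (le_max_right _ _) hk2⟩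

theorem main :
    ∃ (G : Type) (_ : Group G),
      Group.FG G ∧
      (∀ g : G, g ≠ 1 → ∃ H : Subgroup G, H.index ≠ 0 ∧ g ∉ H) ∧
      (∃ (n : ℕ) (π : FreeGroup (Fin n) →* G), Function.Surjective π ∧
        REPred (fun w : List (Fin n × Bool) => π (FreeGroup.mk w) ≠ 1)) ∧
      ¬ ∃ f : G →* Equiv.Perm ℕ, Function.Injective f ∧
          ∀ g : G, Computable (⇑(f g) : ℕ → ℕ) :=
  ⟨G, inferInstance, G_fg, G_rf, ⟨3, Phi.rangeRestrict, Phi.rangeRestrict_surjective, G_re⟩,
    not_embed⟩

end Pool.Agent.V11235.RF
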