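import Pool.Agent.V11235.TruthTree

/-!
An equivalent description of good truth-trees: nodes carry the sets of left and right critical
nodes in their traces.
-/

namespace Pool.Agent.V11235.TruthTree

/-- Annotated formulae: the label together with the left and right critical halves used. -/
abbrev Item := Fm × Set ℕ × Set ℕ

/-- Good trees over annotated formulae. -/
inductive GD (S : Set Fm) : Set Item → ℕ → Prop
  | crash {Γ : Set Item} {n : ℕ} {ζ : Fm} {L R L' R' : Set ℕ} : (ζ, L, R) ∈ Γ →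
      (Fm.neg ζ, L', R') ∈ Γ → L ∪ L' = R ∪ R' → GD S Γ n
  | conj {Γ : Set Item} {n : ℕ} {a b : Fm} {L R : Set ℕ} : (Fm.and a b, L, R) ∈ Γ →
      GD S (insert (a, L, R) (insert (b, L, R) Γ)) n → GD S Γ n
  | nor {Γ : Set Item} {n : ℕ} {a b : Fm} {L R : Set ℕ} : (Fm.neg (.or a b), L, R) ∈ Γ →
      GD S (insert (.neg a, L, R) (insert (.neg b, L, R) Γ)) n → GD S Γ n
  | dneg {Γ : Set Item} {n : ℕ} {a : Fm} {L R : Set ℕ} : (Fm.neg (.neg a), L, R) ∈ Γ →
      GD S (insert (a, L, R) Γ) n → GD S Γ n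
  | nand {Γ : Set Item} {n : ℕ} {a b : Fm} {L R : Set ℕ} : (Fm.neg (.and a b), L, R) ∈ Γ →
      GD S (insert (.neg a, L, R) Γ) n → GD S (insert (.neg b, L, R) Γ) n → GD S Γ n
  | disj {Γ : Set Item} {n : ℕ} {a b : Fm} {L R : Set ℕ} : (Fm.or a b, L, R) ∈ Γ →
      GD S (insert (a, L, R) Γ) n → GD S (insert (b, L, R) Γ) n → GD S Γ n
  | mp {Γ : Set Item} {n : ℕ} {a b : Fm} {L R L' R' : Set ℕ} : (a, L, R) ∈ Γ →
      (Fm.imp a b, L', R') ∈ Γ → GD S (insert (b, L ∪ L', R ∪ R') Γ) n → GD S Γ n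
  | cc {Γ : Set Item} {n : ℕ} {a b : Fm} {L R : Set ℕ} (m : ℕ) : n ≤ m →
      (Fm.neg (.imp a b), L, R) ∈ Γ →
      GD S (insert (a, insert m L, R) (insert (.neg b, L, insert m R) Γ)) (m + 1) → GD S Γ n
  | recr {Γ : Set Item} {n : ℕ} {a b : Fm} {L R : Set ℕ} : (a, L, R) ∈ Γ → Fm.imp a b ∈ S →
      GD S (insert (b, L, R) Γ) n → GD S Γ n

theorem GD.mono {S S' : Set Fm} (hS : S ⊆ S') {Γ : Set Item} {n : ℕ} (h : GD S Γ n) :
    ∀ {Γ' : Set Item} {n' : ℕ}, Γ ⊆ Γ' → n' ≤ n → GD S' Γ' n' := by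
  induction h with
  | crash h1 h2 h3 =>
    intro Γ' n' hG hn
    exact .crash (hG h1) (hG h2) h3
  | conj h1 _ ih =>
    intro Γ' n' hG hn
    exact .conj (hG h1) (ih (Set.insert_subset_insert (Set.insert_subset_insert hG)) hn)
  | nor h1 _ ih =>
    intro Γ' n' hG hn
    exact .nor (hG h1) (ih (Set.insert_subset_insert (Set.insert_subset_insert hG)) hn)
  | dneg h1 _ ih =>
    intro Γ' n' hG hn
    exact .dneg (hG h1) (ih (Set.insert_subset_insert hG) hn)
  | nand h1 _ _ ih ih' =>
    intro Γ' n' hG hn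
    exact .nand (hG h1) (ih (Set.insert_subset_insert hG) hn) (ih' (Set.insert_subset_insert hG) hn)
  | disj h1 _ _ ih ih' =>
    intro Γ' n' hG hn
    exact .disj (hG h1) (ih (Set.insert_subset_insert hG) hn) (ih' (Set.insert_subset_insert hG) hn)
  | mp h1 h2 _ ih =>
    intro Γ' n' hG hn
    exact .mp (hG h1) (hG h2) (ih (Set.insert_subset_insert hG) hn)
  | cc m hm h1 _ ih =>
    intro Γ' n' hG hn
    exact .cc m (hn.trans hm) (hG h1)
      (ih (Set.insert_subset_insert (Set.insert_subset_insert hG)) le_rfl)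
  | recr h1 h2 _ ih =>
    intro Γ' n' hG hn
    exact .recr (hG h1) (hS h2) (ih (Set.insert_subset_insert hG) hn)

/-! ### Traces in extended branches -/

/-- Inputs come earlier. -/
def Inp (B : Branch) : Prop := ∀ (j : ℕ) (n : Node), B[j]? = some n → ∀ i ∈ n.inputs, i < j

theorem Inp.snoc {B : Branch} (h : Inp B) (x : Node) (hx : ∀ i ∈ x.inputs, i < B.length) :
    Inp (B ++ [x]) := by
  intro j n hj i hi
  rcases getElem?_snoc hj with hj | ⟨rfl, rfl⟩
  · exact h j n hj i hi
  · exact hx i hi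

theorem get_snoc_lt {B : Branch} {x n : Node} {j : ℕ} (h : B[j]? = some n) :
    (B ++ [x])[j]? = some n := by
  rw [List.getElem?_append_left (lt_of_get h)]
  exact h

theorem get_snoc_eq (B : Branch) (x : Node) : (B ++ [x])[B.length]? = some x := by
  simp

theorem trace_lt {B : Branch} (h : Inp B) {i k : ℕ} (hi : i < B.length)
    (ht : Trace B {i} k) : k < B.length := by
  induction ht with
  | base h => rw [Set.mem_singleton_iff] at h; subst h; exact hi
  | step _ hn hin _ => exact (h _ _ hn _ hin).trans (lt_of_get hn)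

theorem trace_snoc_lt {B : Branch} (h : Inp B) (x : Node) {i : ℕ} (hi : i < B.length) (k : ℕ) :
    Trace (B ++ [x]) {i} k ↔ Trace B {i} k := by
  constructor
  · intro ht
    have key : Trace B {i} k ∧ k < B.length := by
      induction ht with
      | base h =>
        have h' := h
        rw [Set.mem_singleton_iff] at h'
        subst h'
        exact ⟨.base h, hi⟩
      | @step a c n _ hn hin ih =>
        obtain ⟨ih1, ih2⟩ := ih
        rcases getElem?_snoc hn with hn | ⟨h1, -⟩
        · exact ⟨.step ih1 hn hin, (h _ _ hn _ hin).trans ih2⟩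
        · omega
    exact key.1
  · intro ht
    induction ht with
    | base h => exact .base h
    | step _ hn hin ih => exact .step ih (get_snoc_lt hn) hin

theorem trace_trans {B : Branch} {i j k : ℕ} (h1 : Trace B {i} j) (h2 : Trace B {j} k) :
    Trace B {i} k := by
  induction h2 with
  | base h => rw [Set.mem_singleton_iff] at h; subst h; exact h1
  | step _ hn hin ih => exact .step ih hn hin

theorem trace_snoc_new {B : Branch} (h : Inp B) (x : Node) (hx : ∀ i ∈ x.inputs, i < B.length)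
    (k : ℕ) : Trace (B ++ [x]) {B.length} k ↔ k = B.length ∨ ∃ i ∈ x.inputs, Trace B {i} k := by
  constructor
  · intro ht
    induction ht with
    | base h => exact Or.inl h
    | @step a c n _ hn hin ih =>
      right
      rcases getElem?_snoc hn with hn | ⟨rfl, rfl⟩
      · have hlt := lt_of_get hn
        rcases ih with ih | ⟨i, hi, ht⟩
        · omega
        · exact ⟨i, hi, .step ht hn hin⟩
      · exact ⟨c, hin, .base rfl⟩
  · rintro (rfl | ⟨i, hi, ht⟩)
    · exact .base rfl
    · have h1 : Trace (B ++ [x]) {B.length} i := .step (.base rfl) (get_snoc_eq B x) hi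
      exact trace_trans h1 ((trace_snoc_lt h x (hx i hi) k).2 ht)

theorem trace_pair {B : Branch} {i j k : ℕ} :
    Trace B {i, j} k ↔ Trace B {i} k ∨ Trace B {j} k := by
  constructor
  · intro ht
    induction ht with
    | base h =>
      rcases h with h | h
      · exact Or.inl (.base h)
      · exact Or.inr (.base h)
    | step _ hn hin ih =>
      rcases ih with ih | ih
      · exact Or.inl (.step ih hn hin)
      · exact Or.inr (.step ih hn hin)
  · rintro (ht | ht)
    · induction ht with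
      | base h => exact .base (Or.inl h)
      | step _ hn hin ih => exact .step ih hn hin
    · induction ht with
      | base h => exact .base (Or.inr h)
      | step _ hn hin ih => exact .step ih hn hin

/-! ### Left and right critical nodes -/

/-- Position `k` is a left critical node. -/
def crL (B : Branch) (k : ℕ) : Prop := ∃ n : Node, B[k]? = some n ∧ n.partner = some (k + 1)

/-- Position `k + 1` is a right critical node. -/
def crR (B : Branch) (k : ℕ) : Prop := ∃ n : Node, B[k + 1]? = some n ∧ n.partner = some k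

/-- Critical nodes come in adjacent pairs. -/
def WFP (B : Branch) : Prop := ∀ (c : ℕ) (n : Node) (p : ℕ), B[c]? = some n →
  n.partner = some p → (p = c + 1 ∧ crR B c) ∨ (c = p + 1 ∧ crL B p)

/-- The left critical nodes in the trace of `i`. -/
def lB (B : Branch) (i : ℕ) : Set ℕ := {k | Trace B {i} k ∧ crL B k}

/-- The right critical nodes in the trace of `i` (by the positions of their partners). -/
def rB (B : Branch) (i : ℕ) : Set ℕ := {k | Trace B {i} (k + 1) ∧ crR B k}

theorem crL_snoc {B : Branch} (x : Node) {k : ℕ} (hk : k < B.length) :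
    crL (B ++ [x]) k ↔ crL B k := by
  unfold crL
  rw [List.getElem?_append_left hk]

theorem crR_snoc {B : Branch} (x : Node) {k : ℕ} (hk : k + 1 < B.length) :
    crR (B ++ [x]) k ↔ crR B k := by
  unfold crR
  rw [List.getElem?_append_left hk]

theorem lB_snoc_lt {B : Branch} (h : Inp B) (x : Node) {i : ℕ} (hi : i < B.length) :
    lB (B ++ [x]) i = lB B i := by
  ext k
  show _ ∧ _ ↔ _ ∧ _
  rw [trace_snoc_lt h x hi]
  constructor
  · rintro ⟨h1, h2⟩
    exact ⟨h1, (crL_snoc x (trace_lt h hi h1)).1 h2⟩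
  · rintro ⟨h1, h2⟩
    exact ⟨h1, (crL_snoc x (trace_lt h hi h1)).2 h2⟩

theorem rB_snoc_lt {B : Branch} (h : Inp B) (x : Node) {i : ℕ} (hi : i < B.length) :
    rB (B ++ [x]) i = rB B i := by
  ext k
  show _ ∧ _ ↔ _ ∧ _
  rw [trace_snoc_lt h x hi]
  constructor
  · rintro ⟨h1, h2⟩
    exact ⟨h1, (crR_snoc x (trace_lt h hi h1)).1 h2⟩
  · rintro ⟨h1, h2⟩
    exact ⟨h1, (crR_snoc x (trace_lt h hi h1)).2 h2⟩

theorem lB_snoc_new {B : Branch} (h : Inp B) (x : Node) (hx : ∀ i ∈ x.inputs, i < B.length) :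
    lB (B ++ [x]) B.length =
      {k | (k = B.length ∧ x.partner = some (B.length + 1)) ∨ ∃ i ∈ x.inputs, k ∈ lB B i} := by
  ext k
  show _ ∧ _ ↔ _ ∨ _
  rw [trace_snoc_new h x hx]
  constructor
  · rintro ⟨rfl | ⟨i, hi, ht⟩, h2⟩
    · left
      obtain ⟨n, hn, hp⟩ := h2
      rw [get_snoc_eq] at hn
      cases hn
      exact ⟨rfl, hp⟩
    · right
      exact ⟨i, hi, ht, (crL_snoc x (trace_lt h (hx i hi) ht)).1 h2⟩
  · rintro (⟨rfl, hp⟩ | ⟨i, hi, ht, h2⟩)
    · exact ⟨Or.inl rfl, x, get_snoc_eq B x, hp⟩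
    · exact ⟨Or.inr ⟨i, hi, ht⟩, (crL_snoc x (trace_lt h (hx i hi) ht)).2 h2⟩

theorem rB_snoc_new {B : Branch} (h : Inp B) (x : Node) (hx : ∀ i ∈ x.inputs, i < B.length) :
    rB (B ++ [x]) B.length =
      {k | (k + 1 = B.length ∧ x.partner = some k) ∨ ∃ i ∈ x.inputs, k ∈ rB B i} := by
  ext k
  show _ ∧ _ ↔ _ ∨ _
  rw [trace_snoc_new h x hx]
  constructor
  · rintro ⟨h1 | ⟨i, hi, ht⟩, h2⟩
    · left
      obtain ⟨n, hn, hp⟩ := h2
      rw [h1, get_snoc_eq] at hn
      cases hn
      exact ⟨h1, hp⟩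
    · right
      exact ⟨i, hi, ht, (crR_snoc x (trace_lt h (hx i hi) ht)).1 h2⟩
  · rintro (⟨h1, hp⟩ | ⟨i, hi, ht, h2⟩)
    · exact ⟨Or.inl h1, x, by rw [h1]; exact get_snoc_eq B x, hp⟩
    · exact ⟨Or.inr ⟨i, hi, ht⟩, (crR_snoc x (trace_lt h (hx i hi) ht)).2 h2⟩

theorem lB_one {B : Branch} (h : Inp B) (a : Fm) {i : ℕ} (hi : i < B.length) :
    lB (B ++ [⟨a, [i], none⟩]) B.length = lB B i := by
  rw [lB_snoc_new h _ (by simpa using hi)]
  ext k
  simp

theorem rB_one {B : Branch} (h : Inp B) (a : Fm) {i : ℕ} (hi : i < B.length) :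
    rB (B ++ [⟨a, [i], none⟩]) B.length = rB B i := by
  rw [rB_snoc_new h _ (by simpa using hi)]
  ext k
  simp

theorem lB_two {B : Branch} (h : Inp B) (a : Fm) {i j : ℕ} (hi : i < B.length)
    (hj : j < B.length) : lB (B ++ [⟨a, [i, j], none⟩]) B.length = lB B i ∪ lB B j := by
  rw [lB_snoc_new h _ (by simp [hi, hj])]
  ext k
  simp

theorem rB_two {B : Branch} (h : Inp B) (a : Fm) {i j : ℕ} (hi : i < B.length)
    (hj : j < B.length) : rB (B ++ [⟨a, [i, j], none⟩]) B.length = rB B i ∪ rB B j := by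
  rw [rB_snoc_new h _ (by simp [hi, hj])]
  ext k
  simp

theorem WFP.snoc {B : Branch} (h : WFP B) (x : Node) (hx : x.partner = none) :
    WFP (B ++ [x]) := by
  intro c n p hc hp
  rcases getElem?_snoc hc with hc | ⟨rfl, rfl⟩
  · rcases h c n p hc hp with ⟨h1, h2⟩ | ⟨h1, h2⟩
    · left
      refine ⟨h1, ?_⟩
      obtain ⟨m, hm, _⟩ := id h2
      exact (crR_snoc x (lt_of_get hm)).2 h2
    · right
      refine ⟨h1, ?_⟩
      obtain ⟨m, hm, _⟩ := id h2
      exact (crL_snoc x (lt_of_get hm)).2 h2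
  · rw [hx] at hp
    cases hp

theorem wfp_pair {B : Branch} (h : WFP B) (a b : Fm) (i : ℕ) :
    WFP (B ++ [⟨a, [i], some (B.length + 1)⟩, ⟨b, [i], some B.length⟩]) := by
  have e1 : (B ++ [(⟨a, [i], some (B.length + 1)⟩ : Node), ⟨b, [i], some B.length⟩])[B.length]? =
      some ⟨a, [i], some (B.length + 1)⟩ := by simp
  have e2 : (B ++ [(⟨a, [i], some (B.length + 1)⟩ : Node),
      ⟨b, [i], some B.length⟩])[B.length + 1]? = some ⟨b, [i], some B.length⟩ := by
    rw [List.getElem?_append_right (by omega)]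
    simp
  have up : ∀ (k : ℕ) (m : Node), B[k]? = some m →
      (B ++ [(⟨a, [i], some (B.length + 1)⟩ : Node), ⟨b, [i], some B.length⟩])[k]? = some m := by
    intro k m hm
    rw [List.getElem?_append_left (lt_of_get hm)]
    exact hm
  intro c n p hc hp
  rcases getElem?_snoc2 hc with hc | ⟨rfl, rfl⟩ | ⟨rfl, rfl⟩
  · rcases h c n p hc hp with ⟨h1, m, h2, h3⟩ | ⟨h1, m, h2, h3⟩
    · exact Or.inl ⟨h1, m, up _ _ h2, h3⟩
    · exact Or.inr ⟨h1, m, up _ _ h2, h3⟩
  · left
    cases hp
    exact ⟨rfl, _, e2, rfl⟩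
  · right
    cases hp
    exact ⟨rfl, _, e1, rfl⟩

theorem snoc_assoc (B : Branch) (x y : Node) : B ++ [x, y] = (B ++ [x]) ++ [y] := by simp

/-- Parity in terms of the sets `lB`, `rB`. -/
theorem parity_iff {B : Branch} (h : WFP B) (i j : ℕ) :
    (∀ (c : ℕ) (n : Node) (p : ℕ), B[c]? = some n → n.partner = some p →
      (Trace B {i, j} c ↔ Trace B {i, j} p)) ↔ lB B i ∪ lB B j = rB B i ∪ rB B j := by
  have hl : ∀ k, k ∈ lB B i ∪ lB B j ↔ Trace B {i, j} k ∧ crL B k := by
    intro k
    rw [trace_pair]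
    show (_ ∧ _) ∨ (_ ∧ _) ↔ _
    tauto
  have hr : ∀ k, k ∈ rB B i ∪ rB B j ↔ Trace B {i, j} (k + 1) ∧ crR B k := by
    intro k
    rw [trace_pair]
    show (_ ∧ _) ∨ (_ ∧ _) ↔ _
    tauto
  constructor
  · intro hp
    ext k
    rw [hl, hr]
    constructor
    · rintro ⟨h1, n, hn, hpn⟩
      have := (hp k n (k + 1) hn hpn).1 h1
      rcases h k n (k + 1) hn hpn with ⟨-, h2⟩ | ⟨h2, -⟩
      · exact ⟨this, h2⟩
      · omega
    · rintro ⟨h1, n, hn, hpn⟩
      have := (hp (k + 1) n k hn hpn).1 h1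
      rcases h (k + 1) n k hn hpn with ⟨h2, -⟩ | ⟨-, h2⟩
      · omega
      · exact ⟨this, h2⟩
  · intro he c n p hc hp
    rcases h c n p hc hp with ⟨rfl, h2⟩ | ⟨rfl, h2⟩
    · have hcl : crL B c := ⟨n, hc, hp⟩
      have := Set.ext_iff.1 he c
      rw [hl, hr] at this
      tauto
    · have hcr : crR B p := ⟨n, hc, hp⟩
      have := Set.ext_iff.1 he p
      rw [hl, hr] at this
      tauto

/-! ### From trees to annotated trees -/

/-- The annotated formulae on a branch. -/
def items (B : Branch) : Set Item := {t | ∃ i, Has B i t.1 ∧ t.2.1 = lB B i ∧ t.2.2 = rB B i}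

theorem mem_items {B : Branch} {i : ℕ} {a : Fm} (h : Has B i a) :
    (a, lB B i, rB B i) ∈ items B := ⟨i, h, rfl, rfl⟩

theorem items_snoc {B : Branch} (h : Inp B) (x : Node) :
    items (B ++ [x]) ⊆ insert (x.label, lB (B ++ [x]) B.length, rB (B ++ [x]) B.length)
      (items B) := by
  rintro ⟨a, L, R⟩ ⟨i, ⟨n, hn, hl⟩, h1, h2⟩
  simp only at hl h1 h2
  rcases getElem?_snoc hn with hn | ⟨rfl, rfl⟩
  · right
    have hi := lt_of_get hn
    rw [lB_snoc_lt h x hi] at h1
    rw [rB_snoc_lt h x hi] at h2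
    exact ⟨i, ⟨n, hn, hl⟩, h1, h2⟩
  · left
    rw [h1, h2, hl]

theorem gd_of_good {S : Set Fm} {B : Branch} (h : Good Crashes S B) :
    Inp B → WFP B → GD S (items B) B.length := by
  have one : ∀ (B : Branch) (a : Fm) (i : ℕ), Inp B → WFP B → i < B.length →
      (Inp (B ++ [⟨a, [i], none⟩]) → WFP (B ++ [⟨a, [i], none⟩]) →
        GD S (items (B ++ [⟨a, [i], none⟩])) (B ++ [(⟨a, [i], none⟩ : Node)]).length) →
      GD S (insert (a, lB B i, rB B i) (items B)) B.length := by
    intro B a i hB hW hi ih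
    have := ih (hB.snoc _ (by simpa using hi)) (hW.snoc _ rfl)
    refine this.mono subset_rfl ?_ (by simp)
    have h2 := items_snoc hB ⟨a, [i], none⟩
    rw [lB_one hB a hi, rB_one hB a hi] at h2
    exact h2
  have two : ∀ (B : Branch) (a b : Fm) (i : ℕ), Inp B → WFP B → i < B.length →
      (Inp (B ++ [⟨a, [i], none⟩, ⟨b, [i], none⟩]) →
        WFP (B ++ [⟨a, [i], none⟩, ⟨b, [i], none⟩]) →
        GD S (items (B ++ [⟨a, [i], none⟩, ⟨b, [i], none⟩]))
          (B ++ [(⟨a, [i], none⟩ : Node), ⟨b, [i], none⟩]).length) →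
      GD S (insert (a, lB B i, rB B i) (insert (b, lB B i, rB B i) (items B))) B.length := by
    intro B a b i hB hW hi ih
    rw [snoc_assoc] at ih
    have hB' : Inp (B ++ [⟨a, [i], none⟩]) := hB.snoc _ (by simpa using hi)
    have hi' : i < (B ++ [(⟨a, [i], none⟩ : Node)]).length := by simp; omega
    have := ih (hB'.snoc _ (by simpa using hi')) ((hW.snoc _ rfl).snoc _ rfl)
    refine this.mono subset_rfl ?_ (by simp)
    have h2 := items_snoc hB ⟨a, [i], none⟩
    rw [lB_one hB a hi, rB_one hB a hi] at h2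
    have h3 := items_snoc hB' ⟨b, [i], none⟩
    rw [lB_one hB' b hi', rB_one hB' b hi', lB_snoc_lt hB _ hi, rB_snoc_lt hB _ hi] at h3
    refine h3.trans ((Set.insert_subset_insert h2).trans ?_)
    rw [Set.insert_comm]
  induction h with
  | @leaf B h =>
    intro hB hW
    obtain ⟨i, j, ζ, h1, h2, h3⟩ := h
    exact .crash (mem_items h1) (mem_items h2) ((parity_iff hW i j).1 h3)
  | @conj B i a b h _ ih =>
    intro hB hW
    obtain ⟨n, hn, _⟩ := id h
    exact .conj (mem_items h) (two B a b i hB hW (lt_of_get hn) ih)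
  | @nor B i a b h _ ih =>
    intro hB hW
    obtain ⟨n, hn, _⟩ := id h
    exact .nor (mem_items h) (two B (.neg a) (.neg b) i hB hW (lt_of_get hn) ih)
  | @dneg B i a h _ ih =>
    intro hB hW
    obtain ⟨n, hn, _⟩ := id h
    exact .dneg (mem_items h) (one B a i hB hW (lt_of_get hn) ih)
  | @nand B i a b h _ _ ih ih' =>
    intro hB hW
    obtain ⟨n, hn, _⟩ := id h
    exact .nand (mem_items h) (one B (.neg a) i hB hW (lt_of_get hn) ih)
      (one B (.neg b) i hB hW (lt_of_get hn) ih')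
  | @disj B i a b h _ _ ih ih' =>
    intro hB hW
    obtain ⟨n, hn, _⟩ := id h
    exact .disj (mem_items h) (one B a i hB hW (lt_of_get hn) ih)
      (one B b i hB hW (lt_of_get hn) ih')
  | @mp B i j a b h h' _ ih =>
    intro hB hW
    obtain ⟨n, hn, _⟩ := id h
    obtain ⟨n', hn', _⟩ := id h'
    have hi := lt_of_get hn
    have hj := lt_of_get hn'
    refine .mp (mem_items h) (mem_items h') ?_
    have := ih (hB.snoc _ (by simp [hi, hj])) (hW.snoc _ rfl)
    refine this.mono subset_rfl ?_ (by simp)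
    have h2 := items_snoc hB ⟨b, [i, j], none⟩
    rw [lB_two hB b hi hj, rB_two hB b hi hj] at h2
    exact h2
  | @cc B i a b h _ ih =>
    intro hB hW
    obtain ⟨n, hn, _⟩ := id h
    have hi := lt_of_get hn
    refine .cc B.length le_rfl (mem_items h) ?_
    have hB' : Inp (B ++ [⟨a, [i], some (B.length + 1)⟩]) := hB.snoc _ (by simpa using hi)
    have hi' : i < (B ++ [(⟨a, [i], some (B.length + 1)⟩ : Node)]).length := by simp; omega
    have hW' := wfp_pair hW a (.neg b) i
    rw [snoc_assoc] at ih hW'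
    have := ih (hB'.snoc _ (by simpa using hi')) hW'
    refine this.mono subset_rfl ?_ (by simp)
    have h2 := items_snoc hB ⟨a, [i], some (B.length + 1)⟩
    have e1 : lB (B ++ [⟨a, [i], some (B.length + 1)⟩]) B.length = insert B.length (lB B i) := by
      rw [lB_snoc_new hB _ (by simpa using hi)]
      ext k
      simp
    have e2 : rB (B ++ [⟨a, [i], some (B.length + 1)⟩]) B.length = rB B i := by
      rw [rB_snoc_new hB _ (by simpa using hi)]
      ext k
      simp only [Option.some.injEq, List.mem_singleton, exists_eq_left, Set.mem_ofPred_eq,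
        or_iff_right_iff_imp, and_imp]
      omega
    rw [e1, e2] at h2
    have h3 := items_snoc hB' ⟨.neg b, [i], some B.length⟩
    have e3 : lB (B ++ [⟨a, [i], some (B.length + 1)⟩] ++ [⟨.neg b, [i], some B.length⟩])
        (B ++ [(⟨a, [i], some (B.length + 1)⟩ : Node)]).length = lB B i := by
      rw [lB_snoc_new hB' _ (by simpa using hi')]
      ext k
      simp only [Option.some.injEq, List.mem_singleton, exists_eq_left, Set.mem_ofPred_eq,
        List.length_append, List.length_cons, List.length_nil, lB_snoc_lt hB _ hi]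
      constructor
      · rintro (⟨_, h⟩ | h)
        · omega
        · exact h
      · exact Or.inr
    have e4 : rB (B ++ [⟨a, [i], some (B.length + 1)⟩] ++ [⟨.neg b, [i], some B.length⟩])
        (B ++ [(⟨a, [i], some (B.length + 1)⟩ : Node)]).length = insert B.length (rB B i) := by
      rw [rB_snoc_new hB' _ (by simpa using hi')]
      ext k
      simp only [Option.some.injEq, List.mem_singleton, exists_eq_left, Set.mem_ofPred_eq,
        List.length_append, List.length_cons, List.length_nil, rB_snoc_lt hB _ hi,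
        Set.mem_insert_iff]
      constructor
      · rintro (⟨h, _⟩ | h)
        · left; omega
        · exact Or.inr h
      · rintro (rfl | h)
        · left; omega
        · exact Or.inr h
    rw [e3, e4] at h3
    refine h3.trans ((Set.insert_subset_insert h2).trans ?_)
    rw [Set.insert_comm]
  | @recr B i a b h hs _ ih =>
    intro hB hW
    obtain ⟨n, hn, _⟩ := id h
    exact .recr (mem_items h) hs (one B b i hB hW (lt_of_get hn) ih)

/-! ### From annotated trees to trees -/

/-- `B` realises the annotated formulae in `Γ`, the halves being renamed by `e`. -/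
def Real (Γ : Set Item) (n : ℕ) (B : Branch) (e : ℕ → ℕ) : Prop :=
  ∀ t ∈ Γ, (∀ k ∈ t.2.1, k < n) ∧ (∀ k ∈ t.2.2, k < n) ∧
    ∃ i, Has B i t.1 ∧ lB B i = e '' t.2.1 ∧ rB B i = e '' t.2.2

theorem Real.snoc {Γ : Set Item} {n : ℕ} {B : Branch} {e : ℕ → ℕ} (h : Real Γ n B e)
    (hB : Inp B) (x : Node) (t : Item) (ht1 : ∀ k ∈ t.2.1, k < n) (ht2 : ∀ k ∈ t.2.2, k < n)
    (ht : x.label = t.1) (hl : lB (B ++ [x]) B.length = e '' t.2.1)
    (hr : rB (B ++ [x]) B.length = e '' t.2.2) : Real (insert t Γ) n (B ++ [x]) e := by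
  intro t' ht'
  rcases ht' with rfl | ht'
  · exact ⟨ht1, ht2, B.length, ⟨x, get_snoc_eq B x, ht⟩, hl, hr⟩
  · obtain ⟨h1, h2, i, ⟨m, hm, hml⟩, h3, h4⟩ := h t' ht'
    refine ⟨h1, h2, i, ⟨m, get_snoc_lt hm, hml⟩, ?_, ?_⟩
    · rw [lB_snoc_lt hB x (lt_of_get hm)]; exact h3
    · rw [rB_snoc_lt hB x (lt_of_get hm)]; exact h4

theorem good_of_gd {S : Set Fm} {Γ : Set Item} {n : ℕ} (h : GD S Γ n) :
    ∀ (B : Branch) (e : ℕ → ℕ), Inp B → WFP B → Real Γ n B e → Good Crashes S B := by
  have one : ∀ (Γ : Set Item) (n : ℕ) (B : Branch) (e : ℕ → ℕ) (a b : Fm) (L R : Set ℕ),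
      Inp B → WFP B → Real Γ n B e → (a, L, R) ∈ Γ →
      (∀ (B : Branch) (e : ℕ → ℕ), Inp B → WFP B → Real (insert (b, L, R) Γ) n B e →
        Good Crashes S B) →
      ∃ i, Has B i a ∧ Good Crashes S (B ++ [⟨b, [i], none⟩]) := by
    intro Γ n B e a b L R hB hW hr ha ih
    obtain ⟨h1, h2, i, hi, h3, h4⟩ := hr _ ha
    obtain ⟨m, hm, _⟩ := id hi
    have hil := lt_of_get hm
    refine ⟨i, hi, ih _ e (hB.snoc _ (by simpa using hil)) (hW.snoc _ rfl) ?_⟩
    refine hr.snoc hB _ _ h1 h2 rfl ?_ ?_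
    · rw [lB_one hB b hil]; exact h3
    · rw [rB_one hB b hil]; exact h4
  have two : ∀ (Γ : Set Item) (n : ℕ) (B : Branch) (e : ℕ → ℕ) (a b c : Fm) (L R : Set ℕ),
      Inp B → WFP B → Real Γ n B e → (a, L, R) ∈ Γ →
      (∀ (B : Branch) (e : ℕ → ℕ), Inp B → WFP B →
        Real (insert (b, L, R) (insert (c, L, R) Γ)) n B e → Good Crashes S B) →
      ∃ i, Has B i a ∧ Good Crashes S (B ++ [⟨b, [i], none⟩, ⟨c, [i], none⟩]) := by
    intro Γ n B e a b c L R hB hW hr ha ih
    obtain ⟨h1, h2, i, hi, h3, h4⟩ := hr _ ha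
    obtain ⟨m, hm, _⟩ := id hi
    have hil := lt_of_get hm
    have hB' : Inp (B ++ [⟨b, [i], none⟩]) := hB.snoc _ (by simpa using hil)
    have hi' : i < (B ++ [(⟨b, [i], none⟩ : Node)]).length := by simp; omega
    refine ⟨i, hi, ?_⟩
    rw [snoc_assoc]
    refine ih _ e (hB'.snoc _ (by simpa using hi')) ((hW.snoc _ rfl).snoc _ rfl) ?_
    rw [Set.insert_comm]
    refine Real.snoc ?_ hB' _ _ h1 h2 rfl ?_ ?_
    · refine hr.snoc hB _ _ h1 h2 rfl ?_ ?_
      · rw [lB_one hB b hil]; exact h3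
      · rw [rB_one hB b hil]; exact h4
    · rw [lB_one hB' c hi', lB_snoc_lt hB _ hil]; exact h3
    · rw [rB_one hB' c hi', rB_snoc_lt hB _ hil]; exact h4
  induction h with
  | @crash Γ n ζ L R L' R' h1 h2 h3 =>
    intro B e hB hW hr
    obtain ⟨_, _, i, hi, hl, hr1⟩ := hr _ h1
    obtain ⟨_, _, j, hj, hl', hr1'⟩ := hr _ h2
    refine .leaf ⟨i, j, ζ, hi, hj, (parity_iff hW i j).2 ?_⟩
    rw [hl, hl', hr1, hr1', ← Set.image_union, ← Set.image_union]
    simp only
    rw [h3]
  | conj h _ ih =>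
    intro B e hB hW hr
    obtain ⟨i, hi, hg⟩ := two _ _ B e _ _ _ _ _ hB hW hr h ih
    exact .conj hi hg
  | nor h _ ih =>
    intro B e hB hW hr
    obtain ⟨i, hi, hg⟩ := two _ _ B e _ _ _ _ _ hB hW hr h ih
    exact .nor hi hg
  | dneg h _ ih =>
    intro B e hB hW hr
    obtain ⟨i, hi, hg⟩ := one _ _ B e _ _ _ _ hB hW hr h ih
    exact .dneg hi hg
  | @nand Γ n a b L R h _ _ ih ih' =>
    intro B e hB hW hr
    obtain ⟨h1, h2, i, hi, h3, h4⟩ := hr _ h
    obtain ⟨m, hm, _⟩ := id hi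
    have hil := lt_of_get hm
    refine .nand hi (ih _ e (hB.snoc _ (by simpa using hil)) (hW.snoc _ rfl) ?_)
      (ih' _ e (hB.snoc _ (by simpa using hil)) (hW.snoc _ rfl) ?_)
    · refine hr.snoc hB _ _ h1 h2 rfl ?_ ?_
      · rw [lB_one hB _ hil]; exact h3
      · rw [rB_one hB _ hil]; exact h4
    · refine hr.snoc hB _ _ h1 h2 rfl ?_ ?_
      · rw [lB_one hB _ hil]; exact h3
      · rw [rB_one hB _ hil]; exact h4
  | @disj Γ n a b L R h _ _ ih ih' =>
    intro B e hB hW hr
    obtain ⟨h1, h2, i, hi, h3, h4⟩ := hr _ h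
    obtain ⟨m, hm, _⟩ := id hi
    have hil := lt_of_get hm
    refine .disj hi (ih _ e (hB.snoc _ (by simpa using hil)) (hW.snoc _ rfl) ?_)
      (ih' _ e (hB.snoc _ (by simpa using hil)) (hW.snoc _ rfl) ?_)
    · refine hr.snoc hB _ _ h1 h2 rfl ?_ ?_
      · rw [lB_one hB _ hil]; exact h3
      · rw [rB_one hB _ hil]; exact h4
    · refine hr.snoc hB _ _ h1 h2 rfl ?_ ?_
      · rw [lB_one hB _ hil]; exact h3
      · rw [rB_one hB _ hil]; exact h4
  | @mp Γ n a b L R L' R' h h' _ ih =>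
    intro B e hB hW hr
    obtain ⟨h1, h2, i, hi, h3, h4⟩ := hr _ h
    obtain ⟨h1', h2', j, hj, h3', h4'⟩ := hr _ h'
    obtain ⟨m, hm, _⟩ := id hi
    obtain ⟨m', hm', _⟩ := id hj
    have hil := lt_of_get hm
    have hjl := lt_of_get hm'
    refine .mp hi hj (ih _ e (hB.snoc _ (by simp [hil, hjl])) (hW.snoc _ rfl) ?_)
    refine hr.snoc hB _ _ ?_ ?_ rfl ?_ ?_
    · rintro k (hk | hk)
      · exact h1 k hk
      · exact h1' k hk
    · rintro k (hk | hk)
      · exact h2 k hk
      · exact h2' k hk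
    · rw [lB_two hB b hil hjl, h3, h3']; exact (Set.image_union _ _ _).symm
    · rw [rB_two hB b hil hjl, h4, h4']; exact (Set.image_union _ _ _).symm
  | @cc Γ n a b L R m hnm h _ ih =>
    intro B e hB hW hr
    obtain ⟨h1, h2, i, hi, h3, h4⟩ := hr _ h
    obtain ⟨nd, hm, _⟩ := id hi
    have hil := lt_of_get hm
    have hB' : Inp (B ++ [⟨a, [i], some (B.length + 1)⟩]) := hB.snoc _ (by simpa using hil)
    have hi' : i < (B ++ [(⟨a, [i], some (B.length + 1)⟩ : Node)]).length := by simp; omega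
    have hW' := wfp_pair hW a (.neg b) i
    refine .cc hi ?_
    rw [snoc_assoc] at hW' ⊢
    have hup : ∀ X : Set ℕ, (∀ k ∈ X, k < n) → Function.update e m B.length '' X = e '' X := by
      intro X hX
      refine Set.image_congr fun k hk => ?_
      exact Function.update_of_ne (by have := hX k hk; omega) _ _
    have hins : ∀ X : Set ℕ, (∀ k ∈ X, k < n) →
        Function.update e m B.length '' (insert m X) = insert B.length (e '' X) := by
      intro X hX
      rw [Set.image_insert_eq, Function.update_self, hup X hX]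
    refine ih _ (Function.update e m B.length) (hB'.snoc _ (by simpa using hi')) hW' ?_
    simp only at h1 h2 h3 h4
    have hlt : ∀ X : Set ℕ, (∀ k ∈ X, k < n) → ∀ k ∈ X, k < m + 1 := fun X hX k hk => by
      have := hX k hk
      omega
    have hlti : ∀ X : Set ℕ, (∀ k ∈ X, k < n) → ∀ k ∈ insert m X, k < m + 1 := by
      rintro X hX k (rfl | hk)
      · omega
      · exact hlt X hX k hk
    rw [Set.insert_comm]
    refine Real.snoc ?_ hB' _ _ ?_ ?_ rfl ?_ ?_
    · refine Real.snoc ?_ hB _ _ ?_ ?_ rfl ?_ ?_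
      · intro t ht
        obtain ⟨g1, g2, j, hj, g3, g4⟩ := hr t ht
        refine ⟨hlt _ g1, hlt _ g2, j, hj, ?_, ?_⟩
        · rw [hup _ g1]; exact g3
        · rw [hup _ g2]; exact g4
      · exact hlti _ h1
      · exact hlt _ h2
      · simp only
        rw [hins _ h1, lB_snoc_new hB _ (by simpa using hil), ← h3]
        ext k
        simp
      · simp only
        rw [hup _ h2, rB_snoc_new hB _ (by simpa using hil), ← h4]
        ext k
        simp only [Option.some.injEq, List.mem_singleton, exists_eq_left, Set.mem_ofPred_eq,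
          or_iff_right_iff_imp, and_imp]
        omega
    · exact hlt _ h1
    · exact hlti _ h2
    · simp only
      rw [hup _ h1, lB_snoc_new hB' _ (by simpa using hi'), ← h3]
      ext k
      simp only [Option.some.injEq, List.mem_singleton, exists_eq_left, Set.mem_ofPred_eq,
        List.length_append, List.length_cons, List.length_nil, lB_snoc_lt hB _ hil]
      constructor
      · rintro (⟨_, h⟩ | h)
        · omega
        · exact h
      · exact Or.inr
    · simp only
      rw [hins _ h2, rB_snoc_new hB' _ (by simpa using hi'), ← h4]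
      ext k
      simp only [Option.some.injEq, List.mem_singleton, exists_eq_left, Set.mem_ofPred_eq,
        List.length_append, List.length_cons, List.length_nil, rB_snoc_lt hB _ hil,
        Set.mem_insert_iff]
      constructor
      · rintro (⟨h, _⟩ | h)
        · left; omega
        · exact Or.inr h
      · rintro (rfl | h)
        · left; omega
        · exact Or.inr h
  | recr h hs _ ih =>
    intro B e hB hW hr
    obtain ⟨i, hi, hg⟩ := one _ _ B e _ _ _ _ hB hW hr h ih
    exact .recr hi hs hg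

theorem inp_root (φ : Fm) : Inp (root φ) := (shape_root φ).inp

theorem get_root {φ : Fm} {i : ℕ} {n : Node} (h : (root φ)[i]? = some n) :
    i = 0 ∧ n = ⟨.neg φ, [], none⟩ := by
  rcases i with _ | i
  · simp [root] at h
    exact ⟨rfl, h.symm⟩
  · simp [root] at h

theorem wfp_root (φ : Fm) : WFP (root φ) := by
  intro c n p hc hp
  obtain ⟨_, rfl⟩ := get_root hc
  simp at hp

theorem lB_root (φ : Fm) (i : ℕ) : lB (root φ) i = ∅ := by
  ext k
  simp only [lB, Set.mem_ofPred_eq, Set.mem_empty_iff_false, iff_false]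
  rintro ⟨_, n, hn, hp⟩
  obtain ⟨_, rfl⟩ := get_root hn
  simp at hp

theorem rB_root (φ : Fm) (i : ℕ) : rB (root φ) i = ∅ := by
  ext k
  simp only [rB, Set.mem_ofPred_eq, Set.mem_empty_iff_false, iff_false]
  rintro ⟨_, n, hn, hp⟩
  obtain ⟨h, _⟩ := get_root hn
  omega

theorem good_root_iff {S : Set Fm} {φ : Fm} :
    Good Crashes S (root φ) ↔ GD S {(.neg φ, ∅, ∅)} 0 := by
  constructor
  · intro h
    have := gd_of_good h (inp_root φ) (wfp_root φ)
    refine this.mono subset_rfl ?_ (Nat.zero_le _)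
    rintro ⟨a, L, R⟩ ⟨i, ⟨n, hn, hl⟩, h1, h2⟩
    obtain ⟨rfl, rfl⟩ := get_root hn
    simp only at hl h1 h2
    rw [lB_root] at h1
    rw [rB_root] at h2
    rw [h1, h2, ← hl]
    rfl
  · intro h
    refine good_of_gd h (root φ) id (inp_root φ) (wfp_root φ) ?_
    rintro t ht
    rw [Set.mem_singleton_iff] at ht
    subst ht
    refine ⟨by simp, by simp, 0, ⟨_, rfl, rfl⟩, ?_, ?_⟩
    · rw [lB_root]; simp
    · rw [rB_root]; simp

/-- The set of acceptable formulae. -/
abbrev AA : Set Fm := Acceptable Crashes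

theorem mem_AA_iff {φ : Fm} : φ ∈ AA ↔ GD AA {(.neg φ, ∅, ∅)} 0 := by
  rw [← good_root_iff]
  constructor
  · intro h
    have hsub : {φ | Good Crashes AA (root φ)} ⊆ AA := fun φ hφ => acceptable_closed hφ
    have : AA ⊆ {φ | Good Crashes AA (root φ)} := by
      refine acceptable_le fun ψ hψ => ?_
      exact hψ.mono (fun _ h => h) hsub
    exact this h
  · exact acceptable_closed

end Pool.Agent.V11235.TruthTree
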