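import Pool.Agent.V11235.TreeSets

/-!
A translation of acceptable formulae in which a set `Q` of letters is replaced by a pair
(top, bottom).
-/

namespace Pool.Agent.V11235.TruthTree

/-! ### Some acceptable implications -/

theorem imp_of {a b : Fm} (h : GD AA {(a, {0}, ∅), (.neg b, ∅, {0})} 1) : Fm.imp a b ∈ AA := by
  rw [mem_AA_iff]
  refine .cc 0 le_rfl (a := a) (b := b) (L := ∅) (R := ∅) rfl ?_
  refine h.mono subset_rfl ?_ le_rfl
  intro t ht
  rcases ht with rfl | ht
  · left; simp
  · rw [Set.mem_singleton_iff] at ht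
    subst ht
    right; left; simp

theorem imp_id (a : Fm) : Fm.imp a a ∈ AA := by
  refine imp_of (.crash (ζ := a) (L := {0}) (R := ∅) (L' := ∅) (R' := {0}) (by simp) (by simp) ?_)
  simp

theorem imp_trans {a b c : Fm} (h1 : Fm.imp a b ∈ AA) (h2 : Fm.imp b c ∈ AA) :
    Fm.imp a c ∈ AA := by
  refine imp_of (.recr (a := a) (b := b) (L := {0}) (R := ∅) (by simp) h1 ?_)
  refine .recr (a := b) (b := c) (L := {0}) (R := ∅) (by simp) h2 ?_
  exact .crash (ζ := c) (L := {0}) (R := ∅) (L' := ∅) (R' := {0}) (by simp) (by simp) (by simp)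

theorem contrapos {a b : Fm} (h : Fm.imp a b ∈ AA) : Fm.imp (.neg b) (.neg a) ∈ AA := by
  refine imp_of (.dneg (a := a) (L := ∅) (R := {0}) (by simp) ?_)
  refine .recr (a := a) (b := b) (L := ∅) (R := {0}) (by simp) h ?_
  exact .crash (ζ := b) (L := ∅) (R := {0}) (L' := {0}) (R' := ∅) (by simp) (by simp) (by simp)

theorem and_left (a b : Fm) : Fm.imp (.and a b) a ∈ AA := by
  refine imp_of (.conj (a := a) (b := b) (L := {0}) (R := ∅) (by simp) ?_)
  exact .crash (ζ := a) (L := {0}) (R := ∅) (L' := ∅) (R' := {0}) (by simp) (by simp) (by simp)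

theorem and_right (a b : Fm) : Fm.imp (.and a b) b ∈ AA := by
  refine imp_of (.conj (a := a) (b := b) (L := {0}) (R := ∅) (by simp) ?_)
  exact .crash (ζ := b) (L := {0}) (R := ∅) (L' := ∅) (R' := {0}) (by simp) (by simp) (by simp)

theorem imp_and {a b c : Fm} (h1 : Fm.imp c a ∈ AA) (h2 : Fm.imp c b ∈ AA) :
    Fm.imp c (.and a b) ∈ AA := by
  refine imp_of (.nand (a := a) (b := b) (L := ∅) (R := {0}) (by simp) ?_ ?_)
  · refine .recr (a := c) (b := a) (L := {0}) (R := ∅) (by simp) h1 ?_
    exact .crash (ζ := a) (L := {0}) (R := ∅) (L' := ∅) (R' := {0}) (by simp) (by simp) (by simp)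
  · refine .recr (a := c) (b := b) (L := {0}) (R := ∅) (by simp) h2 ?_
    exact .crash (ζ := b) (L := {0}) (R := ∅) (L' := ∅) (R' := {0}) (by simp) (by simp) (by simp)

theorem or_left (a b : Fm) : Fm.imp a (.or a b) ∈ AA := by
  refine imp_of (.nor (a := a) (b := b) (L := ∅) (R := {0}) (by simp) ?_)
  exact .crash (ζ := a) (L := {0}) (R := ∅) (L' := ∅) (R' := {0}) (by simp) (by simp) (by simp)

theorem or_right (a b : Fm) : Fm.imp b (.or a b) ∈ AA := by
  refine imp_of (.nor (a := a) (b := b) (L := ∅) (R := {0}) (by simp) ?_)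
  exact .crash (ζ := b) (L := {0}) (R := ∅) (L' := ∅) (R' := {0}) (by simp) (by simp) (by simp)

theorem or_imp' {a b c : Fm} (h1 : Fm.imp a c ∈ AA) (h2 : Fm.imp b c ∈ AA) :
    Fm.imp (.or a b) c ∈ AA := by
  refine imp_of (.disj (a := a) (b := b) (L := {0}) (R := ∅) (by simp) ?_ ?_)
  · refine .recr (a := a) (b := c) (L := {0}) (R := ∅) (by simp) h1 ?_
    exact .crash (ζ := c) (L := {0}) (R := ∅) (L' := ∅) (R' := {0}) (by simp) (by simp) (by simp)
  · refine .recr (a := b) (b := c) (L := {0}) (R := ∅) (by simp) h2 ?_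
    exact .crash (ζ := c) (L := {0}) (R := ∅) (L' := ∅) (R' := {0}) (by simp) (by simp) (by simp)

theorem imp_mono' {a b a' b' : Fm} (h1 : Fm.imp a' a ∈ AA) (h2 : Fm.imp b b' ∈ AA) :
    Fm.imp (.imp a b) (.imp a' b') ∈ AA := by
  refine imp_of (.cc 1 le_rfl (a := a') (b := b') (L := ∅) (R := {0}) (by simp) ?_)
  refine .recr (a := a') (b := a) (L := insert 1 ∅) (R := {0}) (by simp) h1 ?_
  refine .mp (a := a) (b := b) (L := insert 1 ∅) (R := {0}) (L' := {0}) (R' := ∅) (by simp)
    (by simp) ?_
  refine .recr (a := b) (b := b') (L := insert 1 ∅ ∪ {0}) (R := {0} ∪ ∅) (by simp) h2 ?_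
  refine .crash (ζ := b') (L := insert 1 ∅ ∪ {0}) (R := {0} ∪ ∅) (L' := ∅) (R' := insert 1 {0})
    (by simp) (by simp) ?_
  ext k
  simp
  tauto

theorem detach {a b : Fm} (h1 : a ∈ AA) (h2 : Fm.imp a b ∈ AA) : b ∈ AA := by
  rw [mem_AA_iff] at h1 ⊢
  refine .recr (a := .neg b) (b := .neg a) (L := ∅) (R := ∅) rfl (contrapos h2) ?_
  exact h1.mono subset_rfl (by simp) le_rfl

/-! ### Values -/

/-- Formulae extended by a top and a bottom. -/
inductive V
  | bot
  | top
  | re (a : Fm)

/-- Negation. -/
def V.neg : V → V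
  | .bot => .top
  | .top => .bot
  | .re a => .re (.neg a)

/-- Conjunction. -/
def V.and : V → V → V
  | .bot, _ => .bot
  | .top, y => y
  | .re _, .bot => .bot
  | .re a, .top => .re a
  | .re a, .re b => .re (.and a b)

/-- Disjunction. -/
def V.or : V → V → V
  | .bot, y => y
  | .top, _ => .top
  | .re a, .bot => .re a
  | .re _, .top => .top
  | .re a, .re b => .re (.or a b)

/-- Implication. -/
def V.imp : V → V → V
  | .bot, _ => .top
  | .top, .top => .top
  | .top, .bot => .bot
  | .top, .re _ => .bot
  | .re _, .bot => .bot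
  | .re _, .top => .top
  | .re a, .re b => .re (.imp a b)

/-- Order. -/
def V.le : V → V → Prop
  | .bot, _ => True
  | .top, .top => True
  | .top, .bot => False
  | .top, .re _ => False
  | .re _, .bot => False
  | .re _, .top => True
  | .re a, .re b => Fm.imp a b ∈ AA

/-- Being acceptable. -/
def V.ok : V → Prop
  | .bot => False
  | .top => True
  | .re a => a ∈ AA

theorem V.le_refl (x : V) : V.le x x := by
  cases x with
  | bot => trivial
  | top => trivial
  | re a => exact imp_id a

theorem V.neg_le {x y : V} (h : V.le x y) : V.le (V.neg y) (V.neg x) := by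
  cases x <;> cases y <;> simp_all [V.le, V.neg]
  exact contrapos h

theorem V.and_le {x y x' y' : V} (h : V.le x x') (h' : V.le y y') :
    V.le (V.and x y) (V.and x' y') := by
  cases x <;> cases x' <;> cases y <;> cases y' <;> simp_all [V.le, V.and]
  · exact imp_trans (and_right _ _) h'
  · exact imp_trans (and_left _ _) h
  · exact imp_and (imp_trans (and_left _ _) h) (imp_trans (and_right _ _) h')

theorem V.or_le {x y x' y' : V} (h : V.le x x') (h' : V.le y y') :
    V.le (V.or x y) (V.or x' y') := by
  cases x <;> cases x' <;> cases y <;> cases y' <;> simp_all [V.le, V.or]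
  · exact imp_trans h' (or_right _ _)
  · exact imp_trans h (or_left _ _)
  · exact or_imp' (imp_trans h (or_left _ _)) (imp_trans h' (or_right _ _))

theorem V.le_and {x y z : V} (h : V.le z x) (h' : V.le z y) : V.le z (V.and x y) := by
  cases x <;> cases y <;> cases z <;> simp_all [V.le, V.and]
  exact imp_and h h'

theorem V.imp_le {x y x' y' : V} (h : V.le x' x) (h' : V.le y y') :
    V.le (V.imp x y) (V.imp x' y') := by
  cases x <;> cases x' <;> cases y <;> cases y' <;> simp_all [V.le, V.imp]
  exact imp_mono' h h'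

theorem V.le_of_imp_ok {x y : V} (h : V.ok (V.imp x y)) : V.le x y := by
  cases x <;> cases y <;> simp_all [V.ok, V.imp, V.le]

theorem V.ok_and {x y : V} (h : V.ok (V.and x y)) : V.ok x ∧ V.ok y := by
  cases x <;> cases y <;> simp_all [V.ok, V.and]
  exact ⟨detach h (and_left _ _), detach h (and_right _ _)⟩

open Classical in
/-- The two translations; letters in `Q` become (top, bottom). -/
noncomputable def val (Q : Set ℕ) : Bool → Fm → V
  | u, .var n => if n ∈ Q then (if u then .bot else .top) else .re (.var n)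
  | u, .neg a => V.neg (val Q (!u) a)
  | u, .and a b => V.and (val Q u a) (val Q u b)
  | u, .or a b => V.or (val Q u a) (val Q u b)
  | true, .imp a b => V.imp (val Q false a) (val Q true b)
  | false, .imp a b =>
    V.and (V.imp (val Q false a) (val Q false b)) (V.imp (val Q true a) (val Q true b))

theorem val_neg (Q : Set ℕ) (u : Bool) (a : Fm) : val Q u (.neg a) = V.neg (val Q (!u) a) := by
  simp [val]

theorem val_and (Q : Set ℕ) (u : Bool) (a b : Fm) :
    val Q u (.and a b) = V.and (val Q u a) (val Q u b) := by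
  simp [val]

theorem val_or (Q : Set ℕ) (u : Bool) (a b : Fm) :
    val Q u (.or a b) = V.or (val Q u a) (val Q u b) := by
  simp [val]

theorem val_imp_true (Q : Set ℕ) (a b : Fm) :
    val Q true (.imp a b) = V.imp (val Q false a) (val Q true b) := by
  simp [val]

theorem val_imp_false (Q : Set ℕ) (a b : Fm) : val Q false (.imp a b) =
    V.and (V.imp (val Q false a) (val Q false b)) (V.imp (val Q true a) (val Q true b)) := by
  simp [val]

theorem val_le (Q : Set ℕ) (a : Fm) : V.le (val Q true a) (val Q false a) := by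
  induction a with
  | var n =>
    by_cases h : n ∈ Q
    · simp [val, h, V.le]
    · simp [val, h]
      exact V.le_refl _
  | neg a ih =>
    rw [val_neg, val_neg]
    exact V.neg_le ih
  | and a b iha ihb =>
    rw [val_and, val_and]
    exact V.and_le iha ihb
  | or a b iha ihb =>
    rw [val_or, val_or]
    exact V.or_le iha ihb
  | imp a b iha ihb =>
    rw [val_imp_true, val_imp_false]
    exact V.le_and (V.imp_le (V.le_refl _) ihb) (V.imp_le iha (V.le_refl _))

/-! ### Adding items with values -/

/-- The item with a given value, if it is a formula. -/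
def itm (av : Bool) (x : V) (L R : Set ℕ) : Set Item := {t | av = true ∧ x = .re t.1 ∧ t.2 = (L, R)}

/-- The item with value `x` is there, if `x` is a formula. -/
def Avail (Γ : Set Item) (av : Bool) (x : V) (L R : Set ℕ) : Prop :=
  av = true → ∀ a, x = .re a → (a, L, R) ∈ Γ

theorem avail_iff {Γ : Set Item} {av : Bool} {x : V} {L R : Set ℕ} :
    Avail Γ av x L R ↔ itm av x L R ⊆ Γ := by
  constructor
  · rintro h ⟨a, L', R'⟩ ⟨h1, h2, h3⟩
    simp only [Prod.mk.injEq] at h3
    rw [h3.1, h3.2]
    exact h h1 a h2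
  · intro h h1 a h2
    exact h ⟨h1, h2, rfl⟩

theorem itm_false (x : V) (L R : Set ℕ) : itm false x L R = ∅ := by
  ext t
  simp [itm]

theorem itm_bot (av : Bool) (L R : Set ℕ) : itm av .bot L R = ∅ := by
  ext t
  simp [itm]

theorem itm_top (av : Bool) (L R : Set ℕ) : itm av .top L R = ∅ := by
  ext t
  simp [itm]

theorem itm_re (a : Fm) (L R : Set ℕ) : itm true (.re a) L R = {(a, L, R)} := by
  ext ⟨b, L', R'⟩
  simp only [itm, Set.mem_ofPred_eq, V.re.injEq, true_and, Set.mem_singleton_iff, Prod.mk.injEq]
  constructor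
  · rintro ⟨rfl, h1, h2⟩
    exact ⟨rfl, h1, h2⟩
  · rintro ⟨rfl, h1, h2⟩
    exact ⟨rfl, h1, h2⟩

theorem step_and {Γ : Set Item} {n : ℕ} {av : Bool} {x y : V} {L R : Set ℕ}
    (ha : Avail Γ av (V.and x y) L R) (hne : V.and x y ≠ .bot)
    (h : GD AA (itm av x L R ∪ (itm av y L R ∪ Γ)) n) : GD AA Γ n := by
  cases av with
  | false => simpa [itm_false] using h
  | true =>
    cases x <;> cases y <;> simp_all [V.and, itm_bot, itm_top, itm_re, Avail]
    exact .conj ha (by rwa [Set.insert_comm])

theorem step_nor {Γ : Set Item} {n : ℕ} {av : Bool} {x y : V} {L R : Set ℕ}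
    (ha : Avail Γ av (V.neg (V.or x y)) L R) (hne : V.neg (V.or x y) ≠ .bot)
    (h : GD AA (itm av (V.neg x) L R ∪ (itm av (V.neg y) L R ∪ Γ)) n) : GD AA Γ n := by
  cases av with
  | false => simpa [itm_false] using h
  | true =>
    cases x <;> cases y <;> simp_all [V.or, V.neg, itm_bot, itm_top, itm_re, Avail]
    exact .nor ha (by rwa [Set.insert_comm])

theorem step_dneg {Γ : Set Item} {n : ℕ} {av : Bool} {x : V} {L R : Set ℕ}
    (ha : Avail Γ av (V.neg (V.neg x)) L R)
    (h : GD AA (itm av x L R ∪ Γ) n) : GD AA Γ n := by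
  cases av with
  | false => simpa [itm_false] using h
  | true =>
    cases x <;> simp_all [V.neg, itm_bot, itm_top, itm_re, Avail]
    exact .dneg ha h

theorem step_or {Γ : Set Item} {n : ℕ} {av : Bool} {x y : V} {L R : Set ℕ}
    (ha : Avail Γ av (V.or x y) L R) (hne : V.or x y ≠ .bot)
    (h : x ≠ .bot → (x ≠ .top → V.or x y ≠ .top) → GD AA (itm av x L R ∪ Γ) n)
    (h' : y ≠ .bot → (y ≠ .top → V.or x y ≠ .top) → GD AA (itm av y L R ∪ Γ) n) :
    GD AA Γ n := by
  cases av with
  | false =>
    simp only [itm_false, Set.empty_union] at h h'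
    cases x <;> cases y <;> simp_all [V.or]
  | true =>
    cases x <;> cases y <;> simp_all [V.or, itm_bot, itm_top, itm_re, Avail]
    exact .disj ha h h'

theorem step_nand {Γ : Set Item} {n : ℕ} {av : Bool} {x y : V} {L R : Set ℕ}
    (ha : Avail Γ av (V.neg (V.and x y)) L R) (hne : V.neg (V.and x y) ≠ .bot)
    (h : V.neg x ≠ .bot → (V.neg x ≠ .top → V.neg (V.and x y) ≠ .top) →
      GD AA (itm av (V.neg x) L R ∪ Γ) n)
    (h' : V.neg y ≠ .bot → (V.neg y ≠ .top → V.neg (V.and x y) ≠ .top) →
      GD AA (itm av (V.neg y) L R ∪ Γ) n) :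
    GD AA Γ n := by
  cases av with
  | false =>
    simp only [itm_false, Set.empty_union] at h h'
    cases x <;> cases y <;> simp_all [V.and, V.neg]
  | true =>
    cases x <;> cases y <;> simp_all [V.and, V.neg, itm_bot, itm_top, itm_re, Avail]
    exact .nand ha h h'

theorem step_le {Γ : Set Item} {n : ℕ} {av : Bool} {x y : V} {L R : Set ℕ}
    (ha : Avail Γ av x L R) (hne : x ≠ .bot) (hle : V.le x y)
    (h : GD AA (itm av y L R ∪ Γ) n) : GD AA Γ n := by
  cases av with
  | false => simpa [itm_false] using h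
  | true =>
    cases x <;> cases y <;> simp_all [V.le, itm_bot, itm_top, itm_re, Avail]
    exact .recr ha hle h

theorem step_mp {Γ : Set Item} {n : ℕ} {av av' : Bool} {x y : V} {L R L' R' : Set ℕ}
    (ha : Avail Γ av x L R) (hne : x ≠ .bot) (ha' : Avail Γ av' (V.imp x y) L' R')
    (hne' : V.imp x y ≠ .bot)
    (h : GD AA (itm (av && av') y (L ∪ L') (R ∪ R') ∪ Γ) n) : GD AA Γ n := by
  cases av with
  | false => simpa [itm_false] using h
  | true =>
    cases av' with
    | false => simpa [itm_false] using h
    | true =>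
      cases x <;> cases y <;> simp_all [V.imp, itm_bot, itm_top, itm_re, Avail]
      exact .mp ha ha' h

theorem step_cc {Γ : Set Item} {n m : ℕ} (hm : n ≤ m) {av : Bool} {x y : V} {L R : Set ℕ}
    (ha : Avail Γ av (V.neg (V.imp x y)) L R) (hne : V.neg (V.imp x y) ≠ .bot) {av' : Bool}
    (hav : V.neg (V.imp x y) = .top → av' = false) (hav' : av = false → av' = false)
    (h : GD AA (itm av' x (insert m L) R ∪ (itm av' (V.neg y) L (insert m R) ∪ Γ)) (m + 1)) :
    GD AA Γ n := by
  cases av' with
  | false =>
    simp only [itm_false, Set.empty_union] at h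
    exact h.mono subset_rfl subset_rfl (by omega)
  | true =>
    cases av with
    | false => simp at hav'
    | true =>
      cases x <;> cases y <;> simp_all [V.imp, V.neg, itm_bot, itm_top, itm_re, Avail]
      exact .cc m hm ha (by rwa [Set.insert_comm])

/-! ### Simulation -/

/-- An entry: a formula with its two sets, a mark, and a flag telling whether its translation is
available. -/
structure Ent where
  fm : Fm
  L : Set ℕ
  R : Set ℕ
  u : Bool
  av : Bool

/-- Union of the left sets. -/
def UL (N : Set Ent) : Set ℕ := {k | ∃ e ∈ N, k ∈ e.L}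

/-- Union of the right sets. -/
def UR (N : Set Ent) : Set ℕ := {k | ∃ e ∈ N, k ∈ e.R}

/-- The value of an entry. -/
noncomputable def Ent.val (Q : Set ℕ) (e : Ent) : V := TruthTree.val Q e.u e.fm

/-- The simulation invariant. -/
structure Sim (Q : Set ℕ) (Γ : Set Item) (M : Set Ent) (Γ' : Set Item) (n : ℕ) : Prop where
  cov : ∀ t ∈ Γ, ∃ u av, (⟨t.1, t.2.1, t.2.2, u, av⟩ : Ent) ∈ M
  nb : ∀ e ∈ M, e.val Q ≠ .bot
  avl : ∀ e ∈ M, Avail Γ' e.av (e.val Q) e.L e.R
  i1 : ∀ N ⊆ M, N.Nonempty → (∀ e ∈ N, e.u = false) → UL N ≠ UR N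
  i2 : ∀ N ⊆ M, N.Nonempty → (∀ e ∈ N, e.val Q ≠ .top) → UL N = UR N → ∀ e ∈ N, e.av = true
  ltL : ∀ e ∈ M, ∀ k ∈ e.L, k < n
  ltR : ∀ e ∈ M, ∀ k ∈ e.R, k < n

/-- Adding a non-critical entry with inputs `x`, `x'`. -/
theorem Sim.add {Q : Set ℕ} {Γ : Set Item} {M : Set Ent} {Γ' : Set Item} {n : ℕ}
    (h : Sim Q Γ M Γ' n) {x x' y : Ent} (hx : x ∈ M) (hx' : x' ∈ M) (hL : y.L = x.L ∪ x'.L)
    (hR : y.R = x.R ∪ x'.R) (hu : y.u = false → x.u = false ∧ x'.u = false)
    (hav : x.av = true → x'.av = true → y.av = true) (hnb : y.val Q ≠ .bot)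
    (hnt : y.val Q ≠ .top → x.val Q ≠ .top ∧ x'.val Q ≠ .top) :
    Sim Q (insert (y.fm, y.L, y.R) Γ) (insert y M) (itm y.av (y.val Q) y.L y.R ∪ Γ') n := by
  have key : ∀ N ⊆ insert y M, y ∈ N →
      UL ((N \ {y}) ∪ {x, x'}) = UL N ∧ UR ((N \ {y}) ∪ {x, x'}) = UR N := by
    intro N hN hy
    constructor
    · ext k
      constructor
      · rintro ⟨e, (⟨he, _⟩ | rfl | he), hk⟩
        · exact ⟨e, he, hk⟩
        · exact ⟨y, hy, by rw [hL]; exact Or.inl hk⟩
        · rw [Set.mem_singleton_iff] at he
          subst he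
          exact ⟨y, hy, by rw [hL]; exact Or.inr hk⟩
      · rintro ⟨e, he, hk⟩
        by_cases hey : e = y
        · subst hey
          rw [hL] at hk
          rcases hk with hk | hk
          · exact ⟨x, Or.inr (Or.inl rfl), hk⟩
          · exact ⟨x', Or.inr (Or.inr rfl), hk⟩
        · exact ⟨e, Or.inl ⟨he, hey⟩, hk⟩
    · ext k
      constructor
      · rintro ⟨e, (⟨he, _⟩ | rfl | he), hk⟩
        · exact ⟨e, he, hk⟩
        · exact ⟨y, hy, by rw [hR]; exact Or.inl hk⟩
        · rw [Set.mem_singleton_iff] at he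
          subst he
          exact ⟨y, hy, by rw [hR]; exact Or.inr hk⟩
      · rintro ⟨e, he, hk⟩
        by_cases hey : e = y
        · subst hey
          rw [hR] at hk
          rcases hk with hk | hk
          · exact ⟨x, Or.inr (Or.inl rfl), hk⟩
          · exact ⟨x', Or.inr (Or.inr rfl), hk⟩
        · exact ⟨e, Or.inl ⟨he, hey⟩, hk⟩
  have sub : ∀ N ⊆ insert y M, (N \ {y}) ∪ {x, x'} ⊆ M := by
    rintro N hN e (⟨he, hey⟩ | rfl | he)
    · rcases hN he with h1 | h1
      · exact absurd h1 hey
      · exact h1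
    · exact hx
    · rw [Set.mem_singleton_iff] at he
      subst he
      exact hx'
  refine ⟨?_, ?_, ?_, ?_, ?_, ?_, ?_⟩
  · rintro t (rfl | ht)
    · exact ⟨y.u, y.av, Or.inl rfl⟩
    · obtain ⟨u, av, h1⟩ := h.cov t ht
      exact ⟨u, av, Or.inr h1⟩
  · rintro e (rfl | he)
    · exact hnb
    · exact h.nb e he
  · rintro e (rfl | he)
    · rw [avail_iff]
      exact Set.subset_union_left
    · have := h.avl e he
      rw [avail_iff] at this ⊢
      exact this.trans Set.subset_union_right
  · intro N hN hne hall hcl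
    by_cases hy : y ∈ N
    · obtain ⟨k1, k2⟩ := key N hN hy
      refine h.i1 _ (sub N hN) ⟨x, Or.inr (Or.inl rfl)⟩ ?_ (by rw [k1, k2, hcl])
      have := hu (hall y hy)
      rintro e (⟨he, _⟩ | rfl | he)
      · exact hall e he
      · exact this.1
      · rw [Set.mem_singleton_iff] at he
        subst he
        exact this.2
    · refine h.i1 N ?_ hne hall hcl
      intro e he
      rcases hN he with rfl | h1
      · exact absurd he hy
      · exact h1
  · intro N hN hne hall hcl
    by_cases hy : y ∈ N
    · obtain ⟨k1, k2⟩ := key N hN hy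
      have h2 := hnt (hall y hy)
      have h3 := h.i2 _ (sub N hN) ⟨x, Or.inr (Or.inl rfl)⟩ (by
        rintro e (⟨he, _⟩ | rfl | he)
        · exact hall e he
        · exact h2.1
        · rw [Set.mem_singleton_iff] at he
          subst he
          exact h2.2) (by rw [k1, k2, hcl])
      intro e he
      by_cases hey : e = y
      · subst hey
        exact hav (h3 x (Or.inr (Or.inl rfl))) (h3 x' (Or.inr (Or.inr rfl)))
      · exact h3 e (Or.inl ⟨he, hey⟩)
    · refine h.i2 N ?_ hne hall hcl
      intro e he
      rcases hN he with rfl | h1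
      · exact absurd he hy
      · exact h1
  · rintro e (rfl | he) k hk
    · rw [hL] at hk
      rcases hk with hk | hk
      · exact h.ltL x hx k hk
      · exact h.ltL x' hx' k hk
    · exact h.ltL e he k hk
  · rintro e (rfl | he) k hk
    · rw [hR] at hk
      rcases hk with hk | hk
      · exact h.ltR x hx k hk
      · exact h.ltR x' hx' k hk
    · exact h.ltR e he k hk

theorem Sim.monoΓ' {Q : Set ℕ} {Γ : Set Item} {M : Set Ent} {Γ' Γ'' : Set Item} {n : ℕ}
    (h : Sim Q Γ M Γ' n) (hG : Γ' ⊆ Γ'') : Sim Q Γ M Γ'' n := by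
  refine ⟨h.cov, h.nb, ?_, h.i1, h.i2, h.ltL, h.ltR⟩
  intro e he
  have := h.avl e he
  rw [avail_iff] at this ⊢
  exact this.trans hG

/-- Adding a critical pair. -/
theorem Sim.addPair {Q : Set ℕ} {Γ : Set Item} {M : Set Ent} {Γ' : Set Item} {n m : ℕ}
    (hm : n ≤ m) (h : Sim Q Γ M Γ' n) {x y y' : Ent} (hx : x ∈ M)
    (hL : y.L = insert m x.L) (hR : y.R = x.R) (hL' : y'.L = x.L) (hR' : y'.R = insert m x.R)
    (hu : y.u = false → y'.u = false → x.u = false)
    (hav : x.av = true → x.val Q ≠ .top → y.av = true ∧ y'.av = true) (hnb : y.val Q ≠ .bot)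
    (hnb' : y'.val Q ≠ .bot)
    (hnt : y.val Q ≠ .top → y'.val Q ≠ .top → x.val Q ≠ .top) :
    Sim Q (insert (y.fm, y.L, y.R) (insert (y'.fm, y'.L, y'.R) Γ)) (insert y (insert y' M))
      (itm y.av (y.val Q) y.L y.R ∪ (itm y'.av (y'.val Q) y'.L y'.R ∪ Γ')) (m + 1) := by
  have hmL : ∀ e ∈ M, m ∉ e.L := fun e he hk => by have := h.ltL e he m hk; omega
  have hmR : ∀ e ∈ M, m ∉ e.R := fun e he hk => by have := h.ltR e he m hk; omega
  have hyM : y ∉ M := fun hy => hmL y hy (by rw [hL]; exact Or.inl rfl)
  have hyM' : y' ∉ M := fun hy => hmR y' hy (by rw [hR']; exact Or.inl rfl)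
  have hyy : y ≠ y' := by
    intro e
    have : m ∈ y'.L := by rw [← e, hL]; exact Or.inl rfl
    rw [hL'] at this
    exact hmL x hx this
  -- closed sets contain both or none
  have both : ∀ N ⊆ insert y (insert y' M), UL N = UR N → (y ∈ N ↔ y' ∈ N) := by
    intro N hN hcl
    constructor
    · intro hy
      have : m ∈ UL N := ⟨y, hy, by rw [hL]; exact Or.inl rfl⟩
      rw [hcl] at this
      obtain ⟨e, he, hk⟩ := this
      rcases hN he with rfl | rfl | h1
      · rw [hR] at hk
        exact absurd hk (hmR x hx)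
      · exact he
      · exact absurd hk (hmR e h1)
    · intro hy
      have : m ∈ UR N := ⟨y', hy, by rw [hR']; exact Or.inl rfl⟩
      rw [← hcl] at this
      obtain ⟨e, he, hk⟩ := this
      rcases hN he with rfl | rfl | h1
      · exact he
      · rw [hL'] at hk
        exact absurd hk (hmL x hx)
      · exact absurd hk (hmL e h1)
  have sub : ∀ N ⊆ insert y (insert y' M), insert x (N \ {y, y'}) ⊆ M := by
    rintro N hN e (rfl | ⟨he, hey⟩)
    · exact hx
    · rcases hN he with h1 | h1 | h1
      · exact absurd (Or.inl h1) hey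
      · exact absurd (Or.inr h1) hey
      · exact h1
  have key : ∀ N ⊆ insert y (insert y' M), UL N = UR N → y ∈ N →
      UL (insert x (N \ {y, y'})) = UR (insert x (N \ {y, y'})) := by
    intro N hN hcl hy
    have hy' := (both N hN hcl).1 hy
    have a1 : ∀ k, k ∈ UL (insert x (N \ {y, y'})) ↔ (k ∈ UL N ∧ k ≠ m) := by
      intro k
      constructor
      · rintro ⟨e, he, hk⟩
        have heM := sub N hN he
        refine ⟨?_, fun hkm => hmL e heM (hkm ▸ hk)⟩
        rcases he with rfl | ⟨he, _⟩
        · exact ⟨y', hy', by rw [hL']; exact hk⟩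
        · exact ⟨e, he, hk⟩
      · rintro ⟨⟨e, he, hk⟩, hkm⟩
        by_cases h1 : e = y
        · subst h1
          rw [hL] at hk
          rcases hk with hk | hk
          · exact absurd hk hkm
          · exact ⟨x, Or.inl rfl, hk⟩
        · by_cases h2 : e = y'
          · subst h2
            rw [hL'] at hk
            exact ⟨x, Or.inl rfl, hk⟩
          · refine ⟨e, Or.inr ⟨he, ?_⟩, hk⟩
            rintro (h3 | h3)
            · exact h1 h3
            · exact h2 h3
    have a2 : ∀ k, k ∈ UR (insert x (N \ {y, y'})) ↔ (k ∈ UR N ∧ k ≠ m) := by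
      intro k
      constructor
      · rintro ⟨e, he, hk⟩
        have heM := sub N hN he
        refine ⟨?_, fun hkm => hmR e heM (hkm ▸ hk)⟩
        rcases he with rfl | ⟨he, _⟩
        · exact ⟨y, hy, by rw [hR]; exact hk⟩
        · exact ⟨e, he, hk⟩
      · rintro ⟨⟨e, he, hk⟩, hkm⟩
        by_cases h1 : e = y
        · subst h1
          rw [hR] at hk
          exact ⟨x, Or.inl rfl, hk⟩
        · by_cases h2 : e = y'
          · subst h2
            rw [hR'] at hk
            rcases hk with hk | hk
            · exact absurd hk hkm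
            · exact ⟨x, Or.inl rfl, hk⟩
          · refine ⟨e, Or.inr ⟨he, ?_⟩, hk⟩
            rintro (h3 | h3)
            · exact h1 h3
            · exact h2 h3
    ext k
    rw [a1, a2, hcl]
  have small : ∀ N ⊆ insert y (insert y' M), y ∉ N → y' ∉ N → N ⊆ M := by
    intro N hN h1 h2 e he
    rcases hN he with rfl | rfl | h3
    · exact absurd he h1
    · exact absurd he h2
    · exact h3
  refine ⟨?_, ?_, ?_, ?_, ?_, ?_, ?_⟩
  · rintro t (rfl | rfl | ht)
    · exact ⟨y.u, y.av, Or.inl rfl⟩
    · exact ⟨y'.u, y'.av, Or.inr (Or.inl rfl)⟩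
    · obtain ⟨u, av, h1⟩ := h.cov t ht
      exact ⟨u, av, Or.inr (Or.inr h1)⟩
  · rintro e (rfl | rfl | he)
    · exact hnb
    · exact hnb'
    · exact h.nb e he
  · rintro e (rfl | rfl | he)
    · rw [avail_iff]
      exact Set.subset_union_left
    · rw [avail_iff]
      exact Set.subset_union_left.trans Set.subset_union_right
    · have := h.avl e he
      rw [avail_iff] at this ⊢
      exact this.trans (Set.subset_union_right.trans Set.subset_union_right)
  · intro N hN hne hall hcl
    by_cases hy : y ∈ N
    · have hy' := (both N hN hcl).1 hy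
      refine h.i1 _ (sub N hN) ⟨x, Or.inl rfl⟩ ?_ (key N hN hcl hy)
      rintro e (rfl | ⟨he, _⟩)
      · exact hu (hall y hy) (hall y' hy')
      · exact hall e he
    · have hy' : y' ∉ N := fun h1 => hy ((both N hN hcl).2 h1)
      exact h.i1 N (small N hN hy hy') hne hall hcl
  · intro N hN hne hall hcl
    by_cases hy : y ∈ N
    · have hy' := (both N hN hcl).1 hy
      have hxt := hnt (hall y hy) (hall y' hy')
      have h3 := h.i2 _ (sub N hN) ⟨x, Or.inl rfl⟩ (by
        rintro e (rfl | ⟨he, _⟩)
        · exact hxt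
        · exact hall e he) (key N hN hcl hy)
      have h4 := hav (h3 x (Or.inl rfl)) hxt
      intro e he
      by_cases h1 : e = y
      · subst h1; exact h4.1
      · by_cases h2 : e = y'
        · subst h2; exact h4.2
        · refine h3 e (Or.inr ⟨he, ?_⟩)
          rintro (h5 | h5)
          · exact h1 h5
          · exact h2 h5
    · have hy' : y' ∉ N := fun h1 => hy ((both N hN hcl).2 h1)
      exact h.i2 N (small N hN hy hy') hne hall hcl
  · rintro e (rfl | rfl | he) k hk
    · rw [hL] at hk
      rcases hk with rfl | hk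
      · omega
      · have := h.ltL x hx k hk; omega
    · rw [hL'] at hk
      have := h.ltL x hx k hk
      omega
    · have := h.ltL e he k hk
      omega
  · rintro e (rfl | rfl | he) k hk
    · rw [hR] at hk
      have := h.ltR x hx k hk
      omega
    · rw [hR'] at hk
      rcases hk with rfl | hk
      · omega
      · have := h.ltR x hx k hk; omega
    · have := h.ltR e he k hk
      omega

/-! ### The main induction -/

/-- Formulae whose translation is acceptable (or the top). -/
def S₀ (Q : Set ℕ) : Set Fm := {φ | V.ok (val Q false φ)}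

theorem V.ne_bot_of_le {x y : V} (h : V.le x y) (hx : x ≠ .bot) : y ≠ .bot := by
  cases x <;> cases y <;> simp_all [V.le]

theorem V.top_of_le {x y : V} (h : V.le x y) (hx : x = .top) : y = .top := by
  cases x <;> cases y <;> simp_all [V.le]

theorem V.and_ne_bot {p q : V} (h : V.and p q ≠ .bot) : p ≠ .bot ∧ q ≠ .bot := by
  cases p <;> cases q <;> simp_all [V.and]

theorem V.and_eq_top {p q : V} (h : V.and p q = .top) : p = .top ∧ q = .top := by
  cases p <;> cases q <;> simp_all [V.and]

theorem V.nor_ne_bot {p q : V} (h : V.neg (V.or p q) ≠ .bot) : V.neg p ≠ .bot ∧ V.neg q ≠ .bot := by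
  cases p <;> cases q <;> simp_all [V.or, V.neg]

theorem V.nor_eq_top {p q : V} (h : V.neg (V.or p q) = .top) : V.neg p = .top ∧ V.neg q = .top := by
  cases p <;> cases q <;> simp_all [V.or, V.neg]

theorem V.dneg_ne_bot {p : V} (h : V.neg (V.neg p) ≠ .bot) : p ≠ .bot := by
  cases p <;> simp_all [V.neg]

theorem V.dneg_eq_top {p : V} (h : V.neg (V.neg p) = .top) : p = .top := by
  cases p <;> simp_all [V.neg]

theorem V.neg_eq_top {p : V} (h : V.neg p = .top) : p = .bot := by
  cases p <;> simp_all [V.neg]

theorem V.nand_eq_top_left {p q : V} (h : V.neg p = .top) : V.neg (V.and p q) = .top := by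
  cases p <;> cases q <;> simp_all [V.and, V.neg]

theorem V.nand_eq_top_right {p q : V} (h : V.neg q = .top) : V.neg (V.and p q) = .top := by
  cases p <;> cases q <;> simp_all [V.and, V.neg]

theorem V.imp_ne_bot {p q : V} (hp : p ≠ .bot) (h : V.imp p q ≠ .bot) : q ≠ .bot ∧
    (q ≠ .top → p ≠ .top ∧ V.imp p q ≠ .top) := by
  cases p <;> cases q <;> simp_all [V.imp]

theorem V.cc_left {p q : V} (h : V.neg (V.imp p q) ≠ .bot) : p ≠ .bot := by
  cases p <;> cases q <;> simp_all [V.neg, V.imp]

theorem V.cc_right {p q : V} (h : V.neg (V.imp p q) ≠ .bot) : V.neg q ≠ .bot := by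
  cases p <;> cases q <;> simp_all [V.neg, V.imp]

theorem V.cc_top {p q : V} (h : V.neg (V.imp p q) ≠ .bot) (h1 : p ≠ .top) (h2 : V.neg q ≠ .top) :
    V.neg (V.imp p q) ≠ .top := by
  cases p <;> cases q <;> simp_all [V.neg, V.imp]

theorem gd_empty {S : Set Fm} {Γ : Set Item} {n : ℕ} (h : GD S Γ n) : Γ ≠ ∅ := by
  rintro rfl
  cases h with
  | crash h => exact h
  | conj h => exact h
  | nor h => exact h
  | dneg h => exact h
  | nand h => exact h
  | disj h => exact h
  | mp h => exact h
  | cc m hm h => exact h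
  | recr h => exact h

theorem sim_gd (Q : Set ℕ) {Γ : Set Item} {n : ℕ} (h : GD (S₀ Q) Γ n) :
    ∀ (M : Set Ent) (Γ' : Set Item), Sim Q Γ M Γ' n → GD AA Γ' n := by
  -- adding an entry with one input and the same annotation
  have one : ∀ {Γ : Set Item} {M : Set Ent} {Γ' : Set Item} {n : ℕ} {a b : Fm} {L R : Set ℕ}
      {u av : Bool}, Sim Q Γ M Γ' n → (⟨a, L, R, u, av⟩ : Ent) ∈ M → val Q u b ≠ .bot →
      (val Q u a = .top → val Q u b = .top) →
      Sim Q (insert (b, L, R) Γ) (insert ⟨b, L, R, u, av⟩ M)
        (itm av (val Q u b) L R ∪ Γ') n := by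
    intro Γ M Γ' n a b L R u av hs hx hb ht
    exact hs.add (x := ⟨a, L, R, u, av⟩) (x' := ⟨a, L, R, u, av⟩) (y := ⟨b, L, R, u, av⟩) hx hx
      (by simp) (by simp) (by simp) (by simp) hb
      (fun h => ⟨fun h' => h (ht h'), fun h' => h (ht h')⟩)
  induction h with
  | @crash Γ n ζ L R L' R' h1 h2 hcl =>
    intro M Γ' hs
    obtain ⟨u, av, hx⟩ := hs.cov _ h1
    obtain ⟨u', av', hx'⟩ := hs.cov _ h2
    simp only at hx hx'
    have hUL : UL {(⟨ζ, L, R, u, av⟩ : Ent), ⟨.neg ζ, L', R', u', av'⟩} = L ∪ L' := by
      ext k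
      simp [UL]
    have hUR : UR {(⟨ζ, L, R, u, av⟩ : Ent), ⟨.neg ζ, L', R', u', av'⟩} = R ∪ R' := by
      ext k
      simp [UR]
    have hsub : ({(⟨ζ, L, R, u, av⟩ : Ent), ⟨.neg ζ, L', R', u', av'⟩} : Set Ent) ⊆ M := by
      rintro e (rfl | he)
      · exact hx
      · rw [Set.mem_singleton_iff] at he
        subst he
        exact hx'
    have nb1 := hs.nb _ hx
    have nb2 := hs.nb _ hx'
    simp only [Ent.val, val_neg] at nb1 nb2
    have hu : ¬ (u = false ∧ u' = false) := by
      rintro ⟨rfl, rfl⟩
      refine hs.i1 _ hsub ⟨_, Or.inl rfl⟩ ?_ (by rw [hUL, hUR, hcl])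
      rintro e (rfl | he)
      · rfl
      · rw [Set.mem_singleton_iff] at he
        subst he
        rfl
    have hle : V.le (val Q u ζ) (val Q (!u') ζ) := by
      cases u <;> cases u' <;> simp at hu ⊢
      · exact V.le_refl _
      · exact V.le_refl _
      · exact val_le Q ζ
    have ht : val Q u ζ ≠ .top ∧ val Q (!u') ζ ≠ .bot ∧ val Q (!u') ζ ≠ .top := by
      refine ⟨?_, V.ne_bot_of_le hle nb1, ?_⟩
      · intro h
        have := V.top_of_le hle h
        rw [this] at nb2
        exact nb2 rfl
      · intro h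
        rw [h] at nb2
        exact nb2 rfl
    have hav := hs.i2 _ hsub ⟨_, Or.inl rfl⟩ (by
      rintro e (rfl | he)
      · exact ht.1
      · rw [Set.mem_singleton_iff] at he
        subst he
        simp only [Ent.val, val_neg]
        intro h
        exact ht.2.1 (V.neg_eq_top h)) (by rw [hUL, hUR, hcl])
    have e1 : av = true := hav _ (Or.inl rfl)
    have e2 : av' = true := hav _ (Or.inr rfl)
    subst e1 e2
    have a1 := hs.avl _ hx
    have a2 := hs.avl _ hx'
    simp only [Ent.val, val_neg] at a1 a2
    refine step_le a1 nb1 hle ?_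
    obtain ⟨ht1, ht2, ht3⟩ := ht
    generalize val Q (!u') ζ = z at *
    cases z with
    | bot => exact absurd rfl ht2
    | top => exact absurd rfl ht3
    | re c =>
      rw [itm_re]
      refine .crash (ζ := c) (L := L) (R := R) (L' := L') (R' := R') (Or.inl rfl) (Or.inr ?_) hcl
      exact a2 rfl _ rfl
  | @conj Γ n a b L R h _ ih =>
    intro M Γ' hs
    obtain ⟨u, av, hx⟩ := hs.cov _ h
    simp only at hx
    have nb := hs.nb _ hx
    have a1 := hs.avl _ hx
    simp only [Ent.val, val_and] at nb a1
    have k1 := V.and_ne_bot nb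
    have k2 : V.and (val Q u a) (val Q u b) = .top → val Q u a = .top ∧ val Q u b = .top :=
      V.and_eq_top
    refine step_and a1 nb ?_
    have s1 := one (b := b) hs hx k1.2 (by rw [val_and]; exact fun h => (k2 h).2)
    have s2 := one (b := a) s1 (Or.inr hx) k1.1 (by rw [val_and]; exact fun h => (k2 h).1)
    exact ih _ _ s2
  | @nor Γ n a b L R h _ ih =>
    intro M Γ' hs
    obtain ⟨u, av, hx⟩ := hs.cov _ h
    simp only at hx
    have nb := hs.nb _ hx
    have a1 := hs.avl _ hx
    simp only [Ent.val, val_neg, val_or] at nb a1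
    have k1 := V.nor_ne_bot nb
    have k2 : V.neg (V.or (val Q (!u) a) (val Q (!u) b)) = .top →
        V.neg (val Q (!u) a) = .top ∧ V.neg (val Q (!u) b) = .top := V.nor_eq_top
    refine step_nor a1 nb ?_
    have s1 := one (b := .neg b) hs hx (by rw [val_neg]; exact k1.2)
      (by rw [val_neg, val_or, val_neg]; exact fun h => (k2 h).2)
    have s2 := one (b := .neg a) s1 (Or.inr hx) (by rw [val_neg]; exact k1.1)
      (by rw [val_neg, val_or, val_neg]; exact fun h => (k2 h).1)
    rw [val_neg, val_neg] at s2
    exact ih _ _ s2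
  | @dneg Γ n a L R h _ ih =>
    intro M Γ' hs
    obtain ⟨u, av, hx⟩ := hs.cov _ h
    simp only at hx
    have nb := hs.nb _ hx
    have a1 := hs.avl _ hx
    simp only [Ent.val, val_neg, Bool.not_not] at nb a1
    have k1 := V.dneg_ne_bot nb
    have k2 : V.neg (V.neg (val Q u a)) = .top → val Q u a = .top := V.dneg_eq_top
    refine step_dneg a1 ?_
    exact ih _ _ (one (b := a) hs hx k1 (by rw [val_neg, val_neg, Bool.not_not]; exact k2))
  | @nand Γ n a b L R h _ _ ih ih' =>
    intro M Γ' hs
    obtain ⟨u, av, hx⟩ := hs.cov _ h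
    simp only at hx
    have nb := hs.nb _ hx
    have a1 := hs.avl _ hx
    simp only [Ent.val, val_neg, val_and] at nb a1
    refine step_nand a1 nb (fun h1 h2 => ?_) (fun h1 h2 => ?_)
    · have s1 := one (b := .neg a) hs hx (by rw [val_neg]; exact h1)
        (by rw [val_neg, val_neg, val_and]; intro h3; by_contra h4; exact h2 h4 h3)
      rw [val_neg] at s1
      exact ih _ _ s1
    · have s1 := one (b := .neg b) hs hx (by rw [val_neg]; exact h1)
        (by rw [val_neg, val_neg, val_and]; intro h3; by_contra h4; exact h2 h4 h3)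
      rw [val_neg] at s1
      exact ih' _ _ s1
  | @disj Γ n a b L R h _ _ ih ih' =>
    intro M Γ' hs
    obtain ⟨u, av, hx⟩ := hs.cov _ h
    simp only at hx
    have nb := hs.nb _ hx
    have a1 := hs.avl _ hx
    simp only [Ent.val, val_or] at nb a1
    refine step_or a1 nb (fun h1 h2 => ?_) (fun h1 h2 => ?_)
    · exact ih _ _ (one (b := a) hs hx h1
        (by rw [val_or]; intro h3; by_contra h4; exact h2 h4 h3))
    · exact ih' _ _ (one (b := b) hs hx h1
        (by rw [val_or]; intro h3; by_contra h4; exact h2 h4 h3))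
  | @mp Γ n a b L R L' R' h h' _ ih =>
    intro M Γ' hs
    obtain ⟨u, av, hx⟩ := hs.cov _ h
    obtain ⟨u', av', hx'⟩ := hs.cov _ h'
    simp only at hx hx'
    have nb := hs.nb _ hx
    have a1 := hs.avl _ hx
    have nb' := hs.nb _ hx'
    have a1' := hs.avl _ hx'
    simp only [Ent.val] at nb a1 nb' a1'
    have hle := val_le Q a
    -- values of the new entry
    have k : val Q (u || u') b ≠ .bot ∧ (val Q (u || u') b ≠ .top →
        val Q u a ≠ .top ∧ val Q u' (.imp a b) ≠ .top) := by
      cases u' with
      | true =>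
        rw [val_imp_true] at nb' ⊢
        rw [Bool.or_true]
        have h0 : val Q false a ≠ .bot := by
          cases u with
          | true => exact V.ne_bot_of_le hle nb
          | false => exact nb
        have h1 : val Q u a = .top → val Q false a = .top := by
          cases u with
          | true => exact V.top_of_le hle
          | false => exact id
        have h2 := V.imp_ne_bot h0 nb'
        exact ⟨h2.1, fun h3 => ⟨fun h4 => (h2.2 h3).1 (h1 h4), (h2.2 h3).2⟩⟩
      | false =>
        rw [val_imp_false] at nb' ⊢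
        rw [Bool.or_false]
        have h1 := V.and_ne_bot nb'
        cases u with
        | true =>
          have h2 := V.imp_ne_bot nb h1.2
          exact ⟨h2.1, fun h3 => ⟨(h2.2 h3).1, fun h4 => (h2.2 h3).2 (V.and_eq_top h4).2⟩⟩
        | false =>
          have h2 := V.imp_ne_bot nb h1.1
          exact ⟨h2.1, fun h3 => ⟨(h2.2 h3).1, fun h4 => (h2.2 h3).2 (V.and_eq_top h4).1⟩⟩
    have s1 := hs.add (x := ⟨a, L, R, u, av⟩) (x' := ⟨.imp a b, L', R', u', av'⟩)
      (y := ⟨b, L ∪ L', R ∪ R', u || u', av && av'⟩) hx hx' rfl rfl (by simp)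
      (by simp only; intro h1 h2; rw [h1, h2]; rfl) k.1 k.2
    simp only [Ent.val] at s1
    have hfin := ih _ _ s1
    cases u' with
    | true =>
      rw [Bool.or_true] at hfin
      rw [val_imp_true] at a1' nb'
      have h0 : val Q false a ≠ .bot := by
        cases u with
        | true => exact V.ne_bot_of_le hle nb
        | false => exact nb
      have hle' : V.le (val Q u a) (val Q false a) := by
        cases u with
        | true => exact hle
        | false => exact V.le_refl _
      refine step_le a1 nb hle' ?_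
      refine step_mp (av := av) (av' := av') (x := val Q false a) (y := val Q true b)
        (L := L) (R := R) (L' := L') (R' := R') ?_ h0 ?_ nb' ?_
      · rw [avail_iff]
        exact Set.subset_union_left
      · rw [avail_iff] at a1' ⊢
        exact a1'.trans Set.subset_union_right
      · refine hfin.mono subset_rfl ?_ le_rfl
        exact Set.union_subset_union_right _ Set.subset_union_right
    | false =>
      rw [Bool.or_false] at hfin
      rw [val_imp_false] at a1' nb'
      refine step_and a1' nb' ?_
      have hz : V.imp (val Q u a) (val Q u b) ≠ .bot := by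
        have h1 := V.and_ne_bot nb'
        cases u with
        | true => exact h1.2
        | false => exact h1.1
      refine step_mp (av := av) (av' := av') (x := val Q u a) (y := val Q u b)
        (L := L) (R := R) (L' := L') (R' := R') ?_ nb ?_ hz ?_
      · rw [avail_iff] at a1 ⊢
        exact a1.trans (Set.subset_union_right.trans Set.subset_union_right)
      · rw [avail_iff]
        cases u with
        | true => exact Set.subset_union_left.trans Set.subset_union_right
        | false => exact Set.subset_union_left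
      · refine hfin.mono subset_rfl ?_ le_rfl
        exact Set.union_subset_union_right _
          (Set.subset_union_right.trans Set.subset_union_right)
  | @cc Γ n a b L R m hm h _ ih =>
    intro M Γ' hs
    obtain ⟨u, av, hx⟩ := hs.cov _ h
    simp only at hx
    have nb := hs.nb _ hx
    have a1 := hs.avl _ hx
    simp only [Ent.val] at nb a1
    -- the common part
    classical
    have main : ∀ (Γ'' : Set Item) (i : Bool) (w : Bool), Γ' ⊆ Γ'' →
        Avail Γ'' av (V.neg (V.imp (val Q i a) (val Q w b))) L R →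
        V.neg (V.imp (val Q i a) (val Q w b)) ≠ .bot →
        (V.neg (V.imp (val Q i a) (val Q w b)) ≠ .top → val Q u (.neg (.imp a b)) ≠ .top) →
        (V.neg (V.imp (val Q i a) (val Q w b)) = .top → val Q u (.neg (.imp a b)) = .top) →
        (i = false → (!w) = false → u = false) → GD AA Γ'' n := by
      intro Γ'' i w hG hA hne htop htop' hu
      set z := V.neg (V.imp (val Q i a) (val Q w b)) with hz
      set av₁ : Bool := av && decide (val Q u (.neg (.imp a b)) ≠ .top) with hav₁
      have hs' := hs.monoΓ' hG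
      have s1 := hs'.addPair (m := m) hm (x := ⟨.neg (.imp a b), L, R, u, av⟩)
        (y := ⟨a, insert m L, R, i, av₁⟩) (y' := ⟨.neg b, L, insert m R, !w, av₁⟩) hx rfl rfl rfl
        rfl hu (by
          simp only [Ent.val]
          intro h1 h2
          rw [hav₁, h1]
          simp [h2]) (by
          simp only [Ent.val]
          exact V.cc_left hne) (by
          simp only [Ent.val, val_neg, Bool.not_not]
          exact V.cc_right hne) (by
          simp only [Ent.val]
          rw [val_neg, Bool.not_not]
          intro h1 h2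
          exact htop (V.cc_top hne h1 h2))
      simp only [Ent.val] at s1
      rw [val_neg, Bool.not_not] at s1
      have hfin := ih _ _ s1
      by_cases hzt : z = .top
      · have hxt := htop' hzt
        have : av₁ = false := by rw [hav₁]; simp [hxt]
        rw [this, itm_false, itm_false, Set.empty_union, Set.empty_union] at hfin
        exact hfin.mono subset_rfl subset_rfl (by omega)
      · refine step_cc hm hA hne (fun h => absurd h hzt) ?_ hfin
        intro h1
        rw [hav₁, h1]
        rfl
    cases u with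
    | false =>
      rw [val_neg, Bool.not_false, val_imp_true] at nb a1
      refine main Γ' false true subset_rfl a1 nb ?_ ?_ (fun _ _ => rfl)
      · rw [val_neg, Bool.not_false, val_imp_true]
        exact id
      · rw [val_neg, Bool.not_false, val_imp_true]
        exact id
    | true =>
      rw [val_neg, Bool.not_true, val_imp_false] at nb a1
      refine step_nand a1 nb (fun h1 h2 => ?_) (fun h1 h2 => ?_)
      · refine main _ false false Set.subset_union_right ?_ h1 ?_ ?_ (by simp)
        · rw [avail_iff]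
          exact Set.subset_union_left
        · rw [val_neg, Bool.not_true, val_imp_false]
          exact h2
        · rw [val_neg, Bool.not_true, val_imp_false]
          exact V.nand_eq_top_left
      · refine main _ true true Set.subset_union_right ?_ h1 ?_ ?_ (by simp)
        · rw [avail_iff]
          exact Set.subset_union_left
        · rw [val_neg, Bool.not_true, val_imp_false]
          exact h2
        · rw [val_neg, Bool.not_true, val_imp_false]
          exact V.nand_eq_top_right
  | @recr Γ n a b L R h hS _ ih =>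
    intro M Γ' hs
    obtain ⟨u, av, hx⟩ := hs.cov _ h
    simp only at hx
    have nb := hs.nb _ hx
    have a1 := hs.avl _ hx
    simp only [Ent.val] at nb a1
    have hok : V.ok (val Q false (.imp a b)) := hS
    rw [val_imp_false] at hok
    have hok' := V.ok_and hok
    have hle : V.le (val Q u a) (val Q u b) := by
      cases u with
      | false => exact V.le_of_imp_ok hok'.1
      | true => exact V.le_of_imp_ok hok'.2
    refine step_le a1 nb hle ?_
    exact ih _ _ (one (b := b) hs hx (V.ne_bot_of_le hle nb) (V.top_of_le hle))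

/-- Acceptable formulae have acceptable translations. -/
theorem AA_sub (Q : Set ℕ) : AA ⊆ S₀ Q := by
  refine acceptable_le fun φ hφ => ?_
  rw [good_root_iff] at hφ
  have hs : Sim Q {(.neg φ, ∅, ∅)} {⟨.neg φ, ∅, ∅, true, true⟩}
      (itm true (V.neg (val Q false φ)) ∅ ∅) 0 ∨ V.neg (val Q false φ) = .bot := by
    by_cases hb : V.neg (val Q false φ) = .bot
    · exact Or.inr hb
    · left
      refine ⟨?_, ?_, ?_, ?_, ?_, ?_, ?_⟩
      · intro t ht
        rw [Set.mem_singleton_iff] at ht
        subst ht
        exact ⟨true, true, rfl⟩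
      · intro e he
        rw [Set.mem_singleton_iff] at he
        subst he
        simp only [Ent.val, val_neg, Bool.not_true]
        exact hb
      · intro e he
        rw [Set.mem_singleton_iff] at he
        subst he
        rw [avail_iff]
        simp only [Ent.val, val_neg, Bool.not_true]
        exact subset_rfl
      · intro N hN hne hall
        obtain ⟨e, he⟩ := hne
        have h1 := hall e he
        have h2 := hN he
        rw [Set.mem_singleton_iff] at h2
        subst h2
        cases h1
      · intro N hN _ _ _ e he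
        have h2 := hN he
        rw [Set.mem_singleton_iff] at h2
        subst h2
        rfl
      · intro e he k hk
        rw [Set.mem_singleton_iff] at he
        subst he
        exact absurd hk (Set.notMem_empty _)
      · intro e he k hk
        rw [Set.mem_singleton_iff] at he
        subst he
        exact absurd hk (Set.notMem_empty _)
  show V.ok (val Q false φ)
  rcases hs with hs | hb
  · have hg := sim_gd Q hφ _ _ hs
    generalize val Q false φ = z at hg
    cases z with
    | bot =>
      rw [V.neg, itm_top] at hg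
      exact absurd rfl (gd_empty hg)
    | top => trivial
    | re a =>
      rw [V.neg, itm_re] at hg
      exact mem_AA_iff.2 hg
  · generalize val Q false φ = z at hb
    cases z with
    | bot => cases hb
    | top => trivial
    | re a => cases hb

/-- The sentence letters of a formula. -/
def letters : Fm → Set ℕ
  | .var n => {n}
  | .neg a => letters a
  | .and a b => letters a ∪ letters b
  | .or a b => letters a ∪ letters b
  | .imp a b => letters a ∪ letters b

theorem val_of_sub {Q : Set ℕ} {a : Fm} (h : letters a ⊆ Q) :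
    val Q false a = .top ∧ val Q true a = .bot := by
  induction a with
  | var n =>
    have : n ∈ Q := h rfl
    simp [val, this]
  | neg a ih =>
    have := ih h
    rw [val_neg, val_neg, Bool.not_false, Bool.not_true, this.1, this.2]
    exact ⟨rfl, rfl⟩
  | and a b iha ihb =>
    have h1 := iha (Set.subset_union_left.trans h)
    have h2 := ihb (Set.subset_union_right.trans h)
    rw [val_and, val_and, h1.1, h1.2, h2.1, h2.2]
    exact ⟨rfl, rfl⟩
  | or a b iha ihb =>
    have h1 := iha (Set.subset_union_left.trans h)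
    have h2 := ihb (Set.subset_union_right.trans h)
    rw [val_or, val_or, h1.1, h1.2, h2.1, h2.2]
    exact ⟨rfl, rfl⟩
  | imp a b iha ihb =>
    have h1 := iha (Set.subset_union_left.trans h)
    have h2 := ihb (Set.subset_union_right.trans h)
    rw [val_imp_false, val_imp_true, h1.1, h1.2, h2.1, h2.2]
    exact ⟨rfl, rfl⟩

theorem val_of_disj {Q : Set ℕ} {a : Fm} (h : ∀ n ∈ letters a, n ∉ Q) (u : Bool) :
    ∃ a', val Q u a = .re a' ∧ Fm.imp a' a ∈ AA ∧ Fm.imp a a' ∈ AA := by
  induction a generalizing u with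
  | var n =>
    have : n ∉ Q := h n rfl
    exact ⟨.var n, by simp [val, this], imp_id _, imp_id _⟩
  | neg a ih =>
    obtain ⟨a', h1, h2, h3⟩ := ih h (!u)
    refine ⟨.neg a', by rw [val_neg, h1]; rfl, contrapos h3, contrapos h2⟩
  | and a b iha ihb =>
    obtain ⟨a', h1, h2, h3⟩ := iha (fun n hn => h n (Or.inl hn)) u
    obtain ⟨b', g1, g2, g3⟩ := ihb (fun n hn => h n (Or.inr hn)) u
    refine ⟨.and a' b', by rw [val_and, h1, g1]; rfl, ?_, ?_⟩
    · exact imp_and (imp_trans (and_left _ _) h2) (imp_trans (and_right _ _) g2)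
    · exact imp_and (imp_trans (and_left _ _) h3) (imp_trans (and_right _ _) g3)
  | or a b iha ihb =>
    obtain ⟨a', h1, h2, h3⟩ := iha (fun n hn => h n (Or.inl hn)) u
    obtain ⟨b', g1, g2, g3⟩ := ihb (fun n hn => h n (Or.inr hn)) u
    refine ⟨.or a' b', by rw [val_or, h1, g1]; rfl, ?_, ?_⟩
    · exact or_imp' (imp_trans h2 (or_left _ _)) (imp_trans g2 (or_right _ _))
    · exact or_imp' (imp_trans h3 (or_left _ _)) (imp_trans g3 (or_right _ _))
  | imp a b iha ihb =>
    obtain ⟨a0, h1, h2, h3⟩ := iha (fun n hn => h n (Or.inl hn)) false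
    obtain ⟨b0, g1, g2, g3⟩ := ihb (fun n hn => h n (Or.inr hn)) false
    obtain ⟨a1, h1', h2', h3'⟩ := iha (fun n hn => h n (Or.inl hn)) true
    obtain ⟨b1, g1', g2', g3'⟩ := ihb (fun n hn => h n (Or.inr hn)) true
    cases u with
    | true =>
      refine ⟨.imp a0 b1, by rw [val_imp_true, h1, g1']; rfl, imp_mono' h3 g2', imp_mono' h2 g3'⟩
    | false =>
      refine ⟨.and (.imp a0 b0) (.imp a1 b1), by rw [val_imp_false, h1, g1, h1', g1']; rfl, ?_, ?_⟩
      · exact imp_trans (and_left _ _) (imp_mono' h3 g2)
      · exact imp_and (imp_mono' h2 g3) (imp_mono' h2' g3')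

/-- Omissibility for acceptable formulae. -/
theorem omissible (α β γ : Fm) (hα : ∀ n ∈ letters β, n ∉ letters α)
    (hγ : ∀ n ∈ letters β, n ∉ letters γ)
    (h : Fm.imp (.and α β) γ ∈ AA ∨ Fm.imp α (.or β γ) ∈ AA) : Fm.imp α γ ∈ AA := by
  obtain ⟨b1, b2⟩ := val_of_sub (Q := letters β) (a := β) subset_rfl
  have hα' : ∀ n ∈ letters α, n ∉ letters β := fun n hn hb => hα n hb hn
  have hγ' : ∀ n ∈ letters γ, n ∉ letters β := fun n hn hb => hγ n hb hn
  obtain ⟨a0, h1, h2, h3⟩ := val_of_disj hα' false
  obtain ⟨a1, h1', h2', h3'⟩ := val_of_disj hα' true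
  obtain ⟨c0, g1, g2, g3⟩ := val_of_disj hγ' false
  obtain ⟨c1, g1', g2', g3'⟩ := val_of_disj hγ' true
  rcases h with h | h
  · have := AA_sub (letters β) h
    have hok : V.ok (val (letters β) false (.imp (.and α β) γ)) := this
    rw [val_imp_false, val_and, val_and, b1, b2, h1, h1', g1, g1'] at hok
    have : Fm.imp a0 c0 ∈ AA := hok
    exact imp_trans h3 (imp_trans this g2)
  · have := AA_sub (letters β) h
    have hok : V.ok (val (letters β) false (.imp α (.or β γ))) := this
    rw [val_imp_false, val_or, val_or, b1, b2, h1, h1', g1, g1'] at hok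
    have : Fm.imp a1 c1 ∈ AA := hok
    exact imp_trans h3' (imp_trans this g2')

end Pool.Agent.V11235.TruthTree
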