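import Mathlib

/-!
Relevance-sensitive truth-trees with parity, and acceptable formulae.
-/

namespace Pool.Agent.V11235.TruthTree

/-- Formulae built from sentence letters (indexed by `ℕ`) with `¬, ∧, ∨, →`. -/
inductive Fm
  | var (n : ℕ)
  | neg (a : Fm)
  | and (a b : Fm)
  | or (a b : Fm)
  | imp (a b : Fm)

/-- A node on a branch: its label, the positions on the branch of the nodes it was obtained from
and, for a critical node, the position of its partner. -/
structure Node where
  label : Fm
  inputs : List ℕ
  partner : Option ℕ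

/-- A branch, from the root on; the node at position `i` is `B[i]?`. -/
abbrev Branch := List Node

/-- The node at position `i` is labelled `a`. -/
def Has (B : Branch) (i : ℕ) (a : Fm) : Prop := ∃ n, B[i]? = some n ∧ n.label = a

/-- The trace `T(Z)`: the least set of nodes containing `Z` and the inputs of each of its members. -/
inductive Trace (B : Branch) (Z : Set ℕ) : ℕ → Prop
  | base {i : ℕ} : i ∈ Z → Trace B Z i
  | step {i j : ℕ} {n : Node} : Trace B Z i → B[i]? = some n → j ∈ n.inputs → Trace B Z j

/-- Finite truth-trees hanging from the branch `B` (the part of the tree above and including the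
last node of `B` being `B` itself) all of whose complete branches satisfy `leaf`; the recursive
rule may be used for implications in `S`. -/
inductive Good (leaf : Branch → Prop) (S : Set Fm) : Branch → Prop
  | leaf {B : Branch} : leaf B → Good leaf S B
  | conj {B : Branch} {i : ℕ} {a b : Fm} : Has B i (.and a b) →
      Good leaf S (B ++ [⟨a, [i], none⟩, ⟨b, [i], none⟩]) → Good leaf S B
  | nor {B : Branch} {i : ℕ} {a b : Fm} : Has B i (.neg (.or a b)) →
      Good leaf S (B ++ [⟨.neg a, [i], none⟩, ⟨.neg b, [i], none⟩]) → Good leaf S B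
  | dneg {B : Branch} {i : ℕ} {a : Fm} : Has B i (.neg (.neg a)) →
      Good leaf S (B ++ [⟨a, [i], none⟩]) → Good leaf S B
  | nand {B : Branch} {i : ℕ} {a b : Fm} : Has B i (.neg (.and a b)) →
      Good leaf S (B ++ [⟨.neg a, [i], none⟩]) → Good leaf S (B ++ [⟨.neg b, [i], none⟩]) →
      Good leaf S B
  | disj {B : Branch} {i : ℕ} {a b : Fm} : Has B i (.or a b) →
      Good leaf S (B ++ [⟨a, [i], none⟩]) → Good leaf S (B ++ [⟨b, [i], none⟩]) → Good leaf S B
  | mp {B : Branch} {i j : ℕ} {a b : Fm} : Has B i a → Has B j (.imp a b) →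
      Good leaf S (B ++ [⟨b, [i, j], none⟩]) → Good leaf S B
  | cc {B : Branch} {i : ℕ} {a b : Fm} : Has B i (.neg (.imp a b)) →
      Good leaf S (B ++ [⟨a, [i], some (B.length + 1)⟩, ⟨.neg b, [i], some B.length⟩]) →
      Good leaf S B
  | recr {B : Branch} {i : ℕ} {a b : Fm} : Has B i a → Fm.imp a b ∈ S →
      Good leaf S (B ++ [⟨b, [i], none⟩]) → Good leaf S B

/-- The tree consisting of the root of a truth-tree for `φ`. -/
def root (φ : Fm) : Branch := [⟨.neg φ, [], none⟩]

/-- The branch `B` crashes with parity: it has a crash-pair `Z` such that every critical node `c`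
on `B` is in `T(Z)` exactly when its partner is. -/
def Crashes (B : Branch) : Prop :=
  ∃ i j ζ, Has B i ζ ∧ Has B j (.neg ζ) ∧
    ∀ (c : ℕ) (n : Node) (p : ℕ), B[c]? = some n → n.partner = some p →
      (Trace B {i, j} c ↔ Trace B {i, j} p)

/-- One-way form of parity: the branch has a crash-pair `Z` such that the partner of every critical
node in `T(Z)` is in `T(Z)`. -/
def CrashesOneWay (B : Branch) : Prop :=
  ∃ i j ζ, Has B i ζ ∧ Has B j (.neg ζ) ∧
    ∀ (c : ℕ) (n : Node) (p : ℕ), B[c]? = some n → n.partner = some p →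
      Trace B {i, j} c → Trace B {i, j} p

/-- Strengthened parity: the branch has a crash-pair `Z` such that every critical node on `B`,
together with its partner, is in `T(Z)`. -/
def CrashesStrongly (B : Branch) : Prop :=
  ∃ i j ζ, Has B i ζ ∧ Has B j (.neg ζ) ∧
    ∀ (c : ℕ) (n : Node) (p : ℕ), B[c]? = some n → n.partner = some p →
      Trace B {i, j} c ∧ Trace B {i, j} p

/-- Directly acceptable formulae: some truth-tree without recursive steps has all its branches
satisfying `leaf`. -/
def DirectlyAcceptable (leaf : Branch → Prop) : Set Fm := {φ | Good leaf ∅ (root φ)}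

/-- Acceptable formulae: the least set containing every formula that has a truth-tree all of whose
branches satisfy `leaf` and whose recursive steps use implications in the set. -/
def Acceptable (leaf : Branch → Prop) : Set Fm :=
  ⋂₀ {S | ∀ ψ, Good leaf S (root ψ) → ψ ∈ S}

theorem Good.mono {leaf leaf' : Branch → Prop} {S S' : Set Fm} (hl : ∀ B, leaf B → leaf' B)
    (h : S ⊆ S') {B : Branch} (hB : Good leaf S B) : Good leaf' S' B := by
  induction hB with
  | leaf h => exact .leaf (hl _ h)
  | conj h _ ih => exact .conj h ih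
  | nor h _ ih => exact .nor h ih
  | dneg h _ ih => exact .dneg h ih
  | nand h _ _ ih ih' => exact .nand h ih ih'
  | disj h _ _ ih ih' => exact .disj h ih ih'
  | mp h h' _ ih => exact .mp h h' ih
  | cc h _ ih => exact .cc h ih
  | recr h hs _ ih => exact .recr h (by tauto) ih

theorem acceptable_closed {leaf : Branch → Prop} {φ : Fm}
    (h : Good leaf (Acceptable leaf) (root φ)) : φ ∈ Acceptable leaf := by
  rw [Acceptable, Set.mem_sInter]
  intro S hS
  exact hS φ (h.mono (fun _ h => h) fun x hx => Set.mem_sInter.1 hx S hS)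

theorem acceptable_le {leaf : Branch → Prop} {S : Set Fm}
    (hS : ∀ ψ, Good leaf S (root ψ) → ψ ∈ S) : Acceptable leaf ⊆ S :=
  Set.sInter_subset_of_mem hS

theorem oneWay_of_crashes {B : Branch} (h : Crashes B) : CrashesOneWay B := by
  obtain ⟨i, j, ζ, h1, h2, h3⟩ := h
  exact ⟨i, j, ζ, h1, h2, fun c n p hc hp ht => (h3 c n p hc hp).1 ht⟩

/-! ### Branches: structure -/

/-- Structural invariant of branches. -/
structure Shape (B : Branch) : Prop where
  pos : 0 < B.length
  inp : ∀ (j : ℕ) (n : Node), B[j]? = some n → ∀ i ∈ n.inputs, i < j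
  ne : ∀ (j : ℕ) (n : Node), B[j]? = some n → 0 < j → n.inputs ≠ []
  par : ∀ (j : ℕ) (n : Node), B[j]? = some n → ∀ p, n.partner = some p →
    p < B.length ∧ ∀ i ∈ n.inputs, i < p

/-- Mark propagation along inputs. -/
structure Marks (B : Branch) (w : ℕ → Bool) : Prop where
  zero : w 0 = true
  next : ∀ (j : ℕ) (n : Node), B[j]? = some n → ∀ i ∈ n.inputs, w i = true →
    w j = true ∨ ∃ p, n.partner = some p ∧ w p = true

theorem getElem?_snoc {B : Branch} {x n : Node} {j : ℕ} (h : (B ++ [x])[j]? = some n) :
    B[j]? = some n ∨ (j = B.length ∧ n = x) := by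
  rcases lt_trichotomy j B.length with hj | hj | hj
  · left
    rwa [List.getElem?_append_left hj] at h
  · right
    subst hj
    rw [List.getElem?_append_right le_rfl] at h
    simp at h
    exact ⟨rfl, h.symm⟩
  · rw [List.getElem?_append_right hj.le] at h
    obtain ⟨k, hk⟩ : ∃ k, j - B.length = k + 1 := ⟨j - B.length - 1, by omega⟩
    rw [hk] at h
    simp at h

theorem lt_of_get {B : Branch} {n : Node} {j : ℕ} (h : B[j]? = some n) : j < B.length := by
  by_contra hj
  rw [List.getElem?_eq_none (not_lt.1 hj)] at h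
  cases h

theorem shape_root (φ : Fm) : Shape (root φ) := by
  refine ⟨by simp [TruthTree.root], ?_, ?_, ?_⟩
  · intro j n h
    rcases j with _ | j
    · simp [TruthTree.root] at h
      subst h
      simp
    · simp [TruthTree.root] at h
  · intro j n h hj
    rcases j with _ | j
    · omega
    · simp [TruthTree.root] at h
  · intro j n h
    rcases j with _ | j
    · simp [TruthTree.root] at h
      subst h
      simp
    · simp [TruthTree.root] at h

theorem marks_root (φ : Fm) : Marks (root φ) fun _ => true :=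
  ⟨rfl, fun _ _ _ _ _ _ => Or.inl rfl⟩

theorem Shape.snoc {B : Branch} (h : Shape B) (x : Node) (hi : ∀ i ∈ x.inputs, i < B.length)
    (hne : x.inputs ≠ []) (hp : x.partner = none) : Shape (B ++ [x]) := by
  refine ⟨by simp, ?_, ?_, ?_⟩
  · intro j n hj i hin
    rcases getElem?_snoc hj with hj | ⟨rfl, rfl⟩
    · exact h.inp j n hj i hin
    · exact hi i hin
  · intro j n hj hj0
    rcases getElem?_snoc hj with hj | ⟨rfl, rfl⟩
    · exact h.ne j n hj hj0
    · exact hne
  · intro j n hj p hpp
    rcases getElem?_snoc hj with hj | ⟨rfl, rfl⟩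
    · have := h.par j n hj p hpp
      refine ⟨?_, this.2⟩
      rw [List.length_append]
      omega
    · rw [hp] at hpp
      cases hpp

theorem Marks.snoc {B : Branch} {w : ℕ → Bool} (hB : Shape B) (h : Marks B w) (x : Node)
    (hi : ∀ i ∈ x.inputs, i < B.length) (b : Bool)
    (hb : ∀ i ∈ x.inputs, w i = true → b = true) :
    Marks (B ++ [x]) (Function.update w B.length b) := by
  have hlt : ∀ i, i < B.length → Function.update w B.length b i = w i := fun i hi =>
    Function.update_of_ne hi.ne _ _
  refine ⟨by rw [hlt 0 hB.pos]; exact h.zero, ?_⟩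
  intro j n hj i hin hw
  rcases getElem?_snoc hj with hj | ⟨rfl, rfl⟩
  · have hjl := lt_of_get hj
    have hil := (hB.inp j n hj i hin).trans hjl
    rw [hlt i hil] at hw
    rcases h.next j n hj i hin hw with h1 | ⟨p, hp, hwp⟩
    · left; rw [hlt j hjl]; exact h1
    · right
      refine ⟨p, hp, ?_⟩
      rw [hlt p (hB.par j n hj p hp).1]
      exact hwp
  · left
    have hil := hi i hin
    rw [hlt i hil] at hw
    rw [Function.update_self]
    exact hb i hin hw

theorem getElem?_snoc2 {B : Branch} {x y n : Node} {j : ℕ} (h : (B ++ [x, y])[j]? = some n) :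
    B[j]? = some n ∨ (j = B.length ∧ n = x) ∨ (j = B.length + 1 ∧ n = y) := by
  have e : B ++ [x, y] = (B ++ [x]) ++ [y] := by simp
  rw [e] at h
  rcases getElem?_snoc h with h | ⟨rfl, rfl⟩
  · rcases getElem?_snoc h with h | h
    · exact Or.inl h
    · exact Or.inr (Or.inl h)
  · right; right
    simp

theorem Shape.pair {B : Branch} (h : Shape B) (a b : Fm) (i : ℕ) (hi : i < B.length) :
    Shape (B ++ [⟨a, [i], some (B.length + 1)⟩, ⟨b, [i], some B.length⟩]) := by
  refine ⟨by simp, ?_, ?_, ?_⟩
  · intro j n hj k hin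
    rcases getElem?_snoc2 hj with hj | ⟨rfl, rfl⟩ | ⟨rfl, rfl⟩
    · exact h.inp j n hj k hin
    · simp at hin; omega
    · simp at hin; omega
  · intro j n hj hj0
    rcases getElem?_snoc2 hj with hj | ⟨rfl, rfl⟩ | ⟨rfl, rfl⟩
    · exact h.ne j n hj hj0
    · simp
    · simp
  · intro j n hj p hpp
    rcases getElem?_snoc2 hj with hj | ⟨rfl, rfl⟩ | ⟨rfl, rfl⟩
    · have := h.par j n hj p hpp
      refine ⟨?_, this.2⟩
      rw [List.length_append]
      omega
    · simp at hpp
      subst hpp
      simp
      omega
    · simp at hpp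
      subst hpp
      simp
      omega

theorem Marks.pair {B : Branch} {w : ℕ → Bool} (hB : Shape B) (h : Marks B w) (a b : Fm) (i : ℕ)
    (hi : i < B.length) (c d : Bool) (hb : w i = true → c = true ∨ d = true) :
    Marks (B ++ [⟨a, [i], some (B.length + 1)⟩, ⟨b, [i], some B.length⟩])
      (Function.update (Function.update w B.length c) (B.length + 1) d) := by
  set w' := Function.update (Function.update w B.length c) (B.length + 1) d with hw'
  have hlt : ∀ i, i < B.length → w' i = w i := fun i hi => by
    rw [hw', Function.update_of_ne (by omega), Function.update_of_ne (by omega)]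
  have h1 : w' B.length = c := by
    rw [hw', Function.update_of_ne (by omega), Function.update_self]
  have h2 : w' (B.length + 1) = d := by
    rw [hw', Function.update_self]
  refine ⟨by rw [hlt 0 hB.pos]; exact h.zero, ?_⟩
  intro j n hj k hin hw
  rcases getElem?_snoc2 hj with hj | ⟨rfl, rfl⟩ | ⟨rfl, rfl⟩
  · have hjl := lt_of_get hj
    have hil := (hB.inp j n hj k hin).trans hjl
    rw [hlt k hil] at hw
    rcases h.next j n hj k hin hw with h1 | ⟨p, hp, hwp⟩
    · left; rw [hlt j hjl]; exact h1
    · right
      refine ⟨p, hp, ?_⟩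
      rw [hlt p (hB.par j n hj p hp).1]
      exact hwp
  · simp at hin
    subst hin
    rw [hlt k hi] at hw
    rcases hb hw with h | h
    · left; rw [h1, h]
    · right
      refine ⟨_, rfl, ?_⟩
      rw [h2, h]
  · simp at hin
    subst hin
    rw [hlt k hi] at hw
    rcases hb hw with h | h
    · right
      refine ⟨_, rfl, ?_⟩
      rw [h1, h]
    · left; rw [h2, h]

theorem trace_root {B : Branch} (hB : Shape B) {Z : Set ℕ} :
    ∀ j, j < B.length → Trace B Z j → Trace B Z 0 := by
  intro j
  induction j using Nat.strong_induction_on with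
  | _ j ih =>
    intro hj ht
    rcases Nat.eq_zero_or_pos j with rfl | hj0
    · exact ht
    · obtain ⟨n, hn⟩ : ∃ n, B[j]? = some n := ⟨B[j], List.getElem?_eq_getElem hj⟩
      have hne := hB.ne j n hn hj0
      obtain ⟨k, hk⟩ := List.exists_mem_of_ne_nil _ hne
      have hkj := hB.inp j n hn k hk
      exact ih k hkj (hkj.trans hj) (.step ht hn hk)

/-- Key lemma: a mark of the root reaches a member of a crash-pair with parity. -/
theorem marks_crash {B : Branch} {w : ℕ → Bool} (hB : Shape B) (h : Marks B w) {i j : ℕ}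
    (hi : i < B.length) (hj : j < B.length)
    (hpar : ∀ (c : ℕ) (n : Node) (p : ℕ), B[c]? = some n → n.partner = some p → Trace B {i, j} c →
      Trace B {i, j} p) : w i = true ∨ w j = true := by
  by_contra hcon
  push Not at hcon
  have hlen : ∀ c, Trace B {i, j} c → c < B.length := by
    intro c hc
    induction hc with
    | base h =>
      rcases h with rfl | h
      · exact hi
      · rw [Set.mem_singleton_iff] at h; subst h; exact hj
    | step _ hn hin _ => exact (hB.inp _ _ hn _ hin).trans (lt_of_get hn)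
  -- the marked nodes of the trace form a bounded set without a maximum
  have hstep : ∀ c, Trace B {i, j} c → w c = true → ∃ d, c < d ∧ Trace B {i, j} d ∧ w d = true := by
    intro c hc hw
    cases hc with
    | base h =>
      rcases h with rfl | h
      · exact absurd hw hcon.1
      · rw [Set.mem_singleton_iff] at h
        subst h
        exact absurd hw hcon.2
    | @step m _ n hm hn hin =>
      rcases h.next m n hn c hin hw with h1 | ⟨p, hp, h1⟩
      · exact ⟨m, hB.inp m n hn c hin, hm, h1⟩
      · exact ⟨p, (hB.par m n hn p hp).2 c hin, hpar m n p hn hp hm, h1⟩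
  have h0 : Trace B {i, j} 0 := trace_root hB i hi (.base (Or.inl rfl))
  have key : ∀ k, ∀ c, Trace B {i, j} c → w c = true → B.length ≤ c + k → False := by
    intro k
    induction k with
    | zero =>
      intro c hc _ hk
      have := hlen c hc
      omega
    | succ k ih =>
      intro c hc hw hk
      obtain ⟨d, hcd, hd, hwd⟩ := hstep c hc hw
      exact ih d hd hwd (by omega)
  exact key B.length 0 h0 h.zero (by omega)

/-! ### The crystal lattice -/

/-- Negation. -/
def vneg : Fin 6 → Fin 6 := ![5, 4, 2, 3, 1, 0]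

/-- Meet. -/
def vand : Fin 6 → Fin 6 → Fin 6 :=
  ![![0, 0, 0, 0, 0, 0], ![0, 1, 1, 1, 1, 1], ![0, 1, 2, 1, 2, 2], ![0, 1, 1, 3, 3, 3],
    ![0, 1, 2, 3, 4, 4], ![0, 1, 2, 3, 4, 5]]

/-- Join. -/
def vor : Fin 6 → Fin 6 → Fin 6 :=
  ![![0, 1, 2, 3, 4, 5], ![1, 1, 2, 3, 4, 5], ![2, 2, 2, 4, 4, 5], ![3, 3, 4, 3, 4, 5],
    ![4, 4, 4, 4, 4, 5], ![5, 5, 5, 5, 5, 5]]

/-- Implication. -/
def vimp : Fin 6 → Fin 6 → Fin 6 :=
  ![![5, 5, 5, 5, 5, 5], ![0, 1, 2, 3, 4, 5], ![0, 0, 2, 0, 2, 5], ![0, 0, 0, 3, 3, 5],
    ![0, 0, 0, 0, 1, 5], ![0, 0, 0, 0, 0, 5]]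

/-- Evaluation in the crystal lattice. -/
def ev (v : ℕ → Fin 6) : Fm → Fin 6
  | .var n => v n
  | .neg a => vneg (ev v a)
  | .and a b => vand (ev v a) (ev v b)
  | .or a b => vor (ev v a) (ev v b)
  | .imp a b => vimp (ev v a) (ev v b)

/-- The threshold belonging to a pair of marks. -/
def ge (c d : Bool) (x : Fin 6) : Bool :=
  match c, d with
  | false, false => decide (x ≠ 0)
  | true, false => decide (x = 2 ∨ x = 4 ∨ x = 5)
  | false, true => decide (x = 3 ∨ x = 4 ∨ x = 5)
  | true, true => decide (x = 5)

theorem ge_and : ∀ c d x y, ge c d (vand x y) = true → ge c d x = true ∧ ge c d y = true := by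
  decide

theorem ge_nor : ∀ c d x y, ge c d (vneg (vor x y)) = true →
    ge c d (vneg x) = true ∧ ge c d (vneg y) = true := by
  decide

theorem ge_dneg : ∀ c d x, ge c d (vneg (vneg x)) = true → ge c d x = true := by
  decide

theorem ge_or : ∀ c d x y, ge c d (vor x y) = true → ge c d x = true ∨ ge c d y = true := by
  decide

theorem ge_nand : ∀ c d x y, ge c d (vneg (vand x y)) = true →
    ge c d (vneg x) = true ∨ ge c d (vneg y) = true := by
  decide

set_option maxRecDepth 100000 in
set_option synthInstance.maxSize 10000 in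
theorem ge_mp : ∀ c d c' d' x y, ge c d x = true → ge c' d' (vimp x y) = true →
    ge (c || c') (d || d') y = true := by
  decide

set_option maxRecDepth 100000 in
set_option synthInstance.maxSize 10000 in
theorem ge_cc : ∀ c d x y, ge c d (vneg (vimp x y)) = true →
    ∃ c₁ d₁ c₂ d₂, (c = true → c₁ = true ∨ c₂ = true) ∧ (d = true → d₁ = true ∨ d₂ = true) ∧
      ge c₁ d₁ x = true ∧ ge c₂ d₂ (vneg y) = true := by
  decide

theorem ge_crash : ∀ c d c' d' x, (c = true ∨ c' = true) → (d = true ∨ d' = true) →
    ge c d x = true → ge c' d' (vneg x) = true → False := by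
  decide

theorem ge_recr (c d : Bool) (x y : Fin 6) (h : vimp x y ≠ 0) (hx : ge c d x = true) :
    ge c d y = true := by
  have h' : ge false false (vimp x y) = true := by simpa [ge] using h
  have := ge_mp c d false false x y hx h'
  simpa using this

/-- Validity in the crystal lattice. -/
def Valid : Set Fm := {φ | ∀ v, ev v φ ≠ 0}

theorem sat_snoc {v : ℕ → Fin 6} {B : Branch} {w w' : ℕ → Bool}
    (h : ∀ (i : ℕ) (n : Node), B[i]? = some n → ge (w i) (w' i) (ev v n.label) = true) (x : Node) (c d : Bool)
    (hx : ge c d (ev v x.label) = true) :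
    ∀ (i : ℕ) (n : Node), (B ++ [x])[i]? = some n →
      ge (Function.update w B.length c i) (Function.update w' B.length d i) (ev v n.label) = true := by
  intro i n hi
  rcases getElem?_snoc hi with hi | ⟨rfl, rfl⟩
  · have hl := lt_of_get hi
    rw [Function.update_of_ne hl.ne, Function.update_of_ne hl.ne]
    exact h i n hi
  · rw [Function.update_self, Function.update_self]
    exact hx

theorem sound_branch
    (v : ℕ → Fin 6) {B : Branch} (hg : Good CrashesOneWay Valid B) :
    ∀ w w' : ℕ → Bool, Shape B → Marks B w → Marks B w' →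
      (∀ (i : ℕ) (n : Node), B[i]? = some n → ge (w i) (w' i) (ev v n.label) = true) → False := by
  -- one new non-critical node
  have one : ∀ (B : Branch) (x : Node) (w w' : ℕ → Bool), Shape B → Marks B w → Marks B w' →
      (∀ (i : ℕ) (n : Node), B[i]? = some n → ge (w i) (w' i) (ev v n.label) = true) →
      (∀ i ∈ x.inputs, i < B.length) → x.inputs ≠ [] → x.partner = none →
      ∀ c d, (∀ i ∈ x.inputs, w i = true → c = true) → (∀ i ∈ x.inputs, w' i = true → d = true) →
      ge c d (ev v x.label) = true →
      (∀ w w' : ℕ → Bool, Shape (B ++ [x]) → Marks (B ++ [x]) w → Marks (B ++ [x]) w' →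
        (∀ (i : ℕ) (n : Node), (B ++ [x])[i]? = some n → ge (w i) (w' i) (ev v n.label) = true) → False) →
      False := by
    intro B x w w' hB h1 h2 h3 hi hne hp c d hc hd hx ih
    exact ih _ _ (hB.snoc x hi hne hp) (h1.snoc hB x hi c hc) (h2.snoc hB x hi d hd)
      (sat_snoc h3 x c d hx)
  -- two new non-critical nodes with the same input
  have two : ∀ (B : Branch) (a b : Fm) (k : ℕ) (w w' : ℕ → Bool), Shape B → Marks B w →
      Marks B w' → (∀ (i : ℕ) (n : Node), B[i]? = some n → ge (w i) (w' i) (ev v n.label) = true) →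
      k < B.length → ge (w k) (w' k) (ev v a) = true → ge (w k) (w' k) (ev v b) = true →
      (∀ w w' : ℕ → Bool, Shape (B ++ [⟨a, [k], none⟩, ⟨b, [k], none⟩]) →
        Marks (B ++ [⟨a, [k], none⟩, ⟨b, [k], none⟩]) w →
        Marks (B ++ [⟨a, [k], none⟩, ⟨b, [k], none⟩]) w' →
        (∀ (i : ℕ) (n : Node), (B ++ [⟨a, [k], none⟩, ⟨b, [k], none⟩])[i]? = some n →
          ge (w i) (w' i) (ev v n.label) = true) → False) →
      False := by
    intro B a b k w w' hB h1 h2 h3 hk ha hb ih
    have e : B ++ [⟨a, [k], none⟩, ⟨b, [k], none⟩] =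
      (B ++ [⟨a, [k], none⟩]) ++ [⟨b, [k], none⟩] := by simp
    rw [e] at ih
    refine one B ⟨a, [k], none⟩ w w' hB h1 h2 h3 (by simpa using hk) (by simp) rfl (w k) (w' k)
      (by simp) (by simp) ha ?_
    have hB' : Shape (B ++ [⟨a, [k], none⟩]) := hB.snoc _ (by simpa using hk) (by simp) rfl
    intro u u' _ g1 g2 g3
    have hk' : k < (B ++ [(⟨a, [k], none⟩ : Node)]).length := by simp; omega
    exact ih _ _ (hB'.snoc _ (by simpa using hk') (by simp) rfl)
      ((h1.snoc hB ⟨a, [k], none⟩ (by simpa using hk) (w k) (by simp)).snoc hB' ⟨b, [k], none⟩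
        (by simpa using hk') (w k) (by
          intro i hi
          simp only [List.mem_singleton] at hi
          subst hi
          rw [Function.update_of_ne hk.ne]
          exact id))
      ((h2.snoc hB ⟨a, [k], none⟩ (by simpa using hk) (w' k) (by simp)).snoc hB' ⟨b, [k], none⟩
        (by simpa using hk') (w' k) (by
          intro i hi
          simp only [List.mem_singleton] at hi
          subst hi
          rw [Function.update_of_ne hk.ne]
          exact id))
      (sat_snoc (sat_snoc h3 ⟨a, [k], none⟩ _ _ ha) ⟨b, [k], none⟩ _ _ hb)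
  induction hg with
  | leaf h =>
    intro w w' hB h1 h2 h3
    obtain ⟨i, j, ζ, ⟨n, hn, rfl⟩, ⟨n', hn', hl⟩, hpar⟩ := h
    have hi := lt_of_get hn
    have hj := lt_of_get hn'
    have e1 := marks_crash hB h1 hi hj hpar
    have e2 := marks_crash hB h2 hi hj hpar
    have e3 := h3 i n hn
    have e4 := h3 j n' hn'
    rw [hl] at e4
    exact ge_crash _ _ _ _ _ e1 e2 e3 e4
  | @conj B i a b h _ ih =>
    intro w w' hB h1 h2 h3
    obtain ⟨n, hn, hl⟩ := h
    have hh := h3 i n hn
    rw [hl] at hh
    have := ge_and _ _ _ _ hh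
    exact two B a b i w w' hB h1 h2 h3 (lt_of_get hn) this.1 this.2 ih
  | @nor B i a b h _ ih =>
    intro w w' hB h1 h2 h3
    obtain ⟨n, hn, hl⟩ := h
    have hh := h3 i n hn
    rw [hl] at hh
    have := ge_nor _ _ _ _ hh
    exact two B (.neg a) (.neg b) i w w' hB h1 h2 h3 (lt_of_get hn) this.1 this.2 ih
  | @dneg B i a h _ ih =>
    intro w w' hB h1 h2 h3
    obtain ⟨n, hn, hl⟩ := h
    have hh := h3 i n hn
    rw [hl] at hh
    have := ge_dneg _ _ _ hh
    exact one B ⟨a, [i], none⟩ w w' hB h1 h2 h3 (by simpa using lt_of_get hn) (by simp) rfl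
      (w i) (w' i) (by simp) (by simp) this ih
  | @nand B i a b h _ _ ih ih' =>
    intro w w' hB h1 h2 h3
    obtain ⟨n, hn, hl⟩ := h
    have hh := h3 i n hn
    rw [hl] at hh
    rcases ge_nand _ _ _ _ hh with this | this
    · exact one B ⟨.neg a, [i], none⟩ w w' hB h1 h2 h3 (by simpa using lt_of_get hn) (by simp) rfl
        (w i) (w' i) (by simp) (by simp) this ih
    · exact one B ⟨.neg b, [i], none⟩ w w' hB h1 h2 h3 (by simpa using lt_of_get hn) (by simp) rfl
        (w i) (w' i) (by simp) (by simp) this ih'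
  | @disj B i a b h _ _ ih ih' =>
    intro w w' hB h1 h2 h3
    obtain ⟨n, hn, hl⟩ := h
    have hh := h3 i n hn
    rw [hl] at hh
    rcases ge_or _ _ _ _ hh with this | this
    · exact one B ⟨a, [i], none⟩ w w' hB h1 h2 h3 (by simpa using lt_of_get hn) (by simp) rfl
        (w i) (w' i) (by simp) (by simp) this ih
    · exact one B ⟨b, [i], none⟩ w w' hB h1 h2 h3 (by simpa using lt_of_get hn) (by simp) rfl
        (w i) (w' i) (by simp) (by simp) this ih'
  | @mp B i j a b h h' _ ih =>
    intro w w' hB h1 h2 h3
    obtain ⟨n, hn, hl⟩ := h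
    obtain ⟨n', hn', hl'⟩ := h'
    have hh := h3 i n hn
    have hh' := h3 j n' hn'
    rw [hl] at hh
    rw [hl'] at hh'
    have := ge_mp _ _ _ _ _ _ hh hh'
    refine one B ⟨b, [i, j], none⟩ w w' hB h1 h2 h3 ?_ (by simp) rfl
      (w i || w j) (w' i || w' j) ?_ ?_ this ih
    · intro k hk
      simp only [List.mem_cons, List.not_mem_nil, or_false] at hk
      rcases hk with rfl | rfl
      · exact lt_of_get hn
      · exact lt_of_get hn'
    · intro k hk hw
      simp only [List.mem_cons, List.not_mem_nil, or_false] at hk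
      rcases hk with rfl | rfl <;> simp [hw]
    · intro k hk hw
      simp only [List.mem_cons, List.not_mem_nil, or_false] at hk
      rcases hk with rfl | rfl <;> simp [hw]
  | @cc B i a b h _ ih =>
    intro w w' hB h1 h2 h3
    obtain ⟨n, hn, hl⟩ := h
    have hh := h3 i n hn
    rw [hl] at hh
    obtain ⟨c₁, d₁, c₂, d₂, hc, hd, hx, hy⟩ := ge_cc _ _ _ _ hh
    refine ih _ _ (hB.pair a (.neg b) i (lt_of_get hn))
      (h1.pair hB a (.neg b) i (lt_of_get hn) c₁ c₂ hc)
      (h2.pair hB a (.neg b) i (lt_of_get hn) d₁ d₂ hd) ?_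
    intro k m hk
    rcases getElem?_snoc2 hk with hk | ⟨rfl, rfl⟩ | ⟨rfl, rfl⟩
    · have hl := lt_of_get hk
      rw [Function.update_of_ne (by omega), Function.update_of_ne (by omega),
        Function.update_of_ne (by omega), Function.update_of_ne (by omega)]
      exact h3 k m hk
    · rw [Function.update_of_ne (by omega), Function.update_self, Function.update_of_ne (by omega),
        Function.update_self]
      exact hx
    · rw [Function.update_self, Function.update_self]
      exact hy
  | @recr B i a b h hs _ ih =>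
    intro w w' hB h1 h2 h3
    obtain ⟨n, hn, hl⟩ := h
    have hh := h3 i n hn
    rw [hl] at hh
    have := ge_recr _ _ _ _ (hs v) hh
    exact one B ⟨b, [i], none⟩ w w' hB h1 h2 h3 (by simpa using lt_of_get hn) (by simp) rfl
      (w i) (w' i) (by simp) (by simp) this ih

/-- Soundness: a formula with a good tree whose recursive steps are valid is valid. -/
theorem sound {φ : Fm} (hg : Good CrashesOneWay Valid (root φ)) : φ ∈ Valid := by
  intro v hv
  refine sound_branch v hg (fun _ => true) (fun _ => true) (shape_root φ) (marks_root φ)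
    (marks_root φ) ?_
  intro i n hn
  rcases i with _ | i
  · simp [root] at hn
    subst hn
    simp only [ev, hv]
    decide
  · simp [root] at hn

theorem acceptableOneWay_valid : Acceptable CrashesOneWay ⊆ Valid :=
  acceptable_le fun _ hψ => sound hψ

theorem acceptable_valid : Acceptable Crashes ⊆ Valid :=
  acceptable_le fun _ hψ => sound (hψ.mono (fun _ => oneWay_of_crashes) subset_rfl)

end Pool.Agent.V11235.TruthTree
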